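import Pool.Agent.Lib.MP_eb394a_al.Final

/-!
Transfer of the result to the definitions of the statement file.
-/

set_option autoImplicit false

namespace Pool.Agent.Lib.MP_eb394a_al

universe u v

variable (K : Type u) [Field K]

theorem bridge {r : ℕ} (Λ : Fin r → YoungDiagram) (h : Stmt.Decomposes K 4 Λ) :
    Decomposes K 4 Λ := fun n => h n

theorem stmt_not_decomposes [CharZero K] {r : ℕ} (Λ : Fin r → YoungDiagram) :
    ¬ Stmt.Decomposes K 4 Λ := fun h => not_decomposes K Λ (bridge K Λ h)

end Pool.Agent.Lib.MP_eb394a_al
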