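import Pool.Agent.Lib.MP_eb394a_al.Words

/-!
The eigenspaces of `g0` on `B_4(T(K^4))` in terms of the graded pieces of `L_4` and `L_5`.
-/

set_option autoImplicit false

open scoped TensorProduct DirectSum

namespace Pool.Agent.Lib.MP_eb394a_al

universe u

variable (K : Type u) [Field K] [CharZero K]

theorem Tmap_wd (u : Wd) : Tmap K (g0 K).toLinearMap (wd K u) = chi K (ct u) • wd K u := by
  induction u with
  | nil =>
    rw [wd_nil, map_one]
    have : chi K (ct []) = 1 := by
      rw [chi_eq]; simp [ct]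
    rw [this, one_smul]
  | cons i u ih =>
    have e : wd K (i :: u) = wd K [i] * wd K u := by
      rw [← wd_append]; rfl
    have h1 : Tmap K (g0 K).toLinearMap (wd K [i]) = (q i : K) • wd K [i] := by
      have : wd K [i] = TensorAlgebra.ι K (bas K i) := by simp [wd]
      rw [this, Tmap, TensorAlgebra.lift_ι_apply, LinearMap.comp_apply, g0_bas, map_smul]
    have h2 : chi K (ct (i :: u)) = (q i : K) * chi K (ct u) := by
      have : ct (i :: u) = ct [i] + ct u := by rw [← ct_append]; rfl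
      rw [this, chi_add]
      congr 1
      rw [chi_eq, Finset.prod_eq_single i]
      · simp [ct]
      · intro b _ hb
        simp [ct, Ne.symm hb]
      · intro h; exact absurd (Finset.mem_univ _) h
    rw [e, map_mul, h1, ih, smul_mul_smul_comm, h2]

theorem Tmap_of_mem {α : Fin 4 → ℕ} {x : A K} (hx : x ∈ As K α) :
    Tmap K (g0 K).toLinearMap x = chi K α • x := by
  induction hx using Submodule.span_induction with
  | mem x hx =>
    obtain ⟨u, hu, rfl⟩ := hx
    have hu' : ct u = α := hu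
    rw [Tmap_wd, hu']
  | zero => rw [map_zero, smul_zero]
  | add x y _ _ hx hy => rw [map_add, hx, hy, smul_add]
  | smul c x _ hx => rw [map_smul, hx, smul_comm]

theorem pr_Tmap (α : Fin 4 → ℕ) (x : A K) :
    pr K α (Tmap K (g0 K).toLinearMap x) = chi K α • pr K α x := by
  classical
  obtain ⟨S, hS⟩ := exists_sum_pr K x
  have h1 := hS (insert α S) (Finset.subset_insert _ _)
  have h2 : ∀ β, pr K α (Tmap K (g0 K).toLinearMap (pr K β x)) = chi K α • pr K α (pr K β x) := by
    intro β
    rw [Tmap_of_mem K (pr_mem K β x), map_smul]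
    by_cases h : β = α
    · rw [h]
    · rw [pr_of_mem_ne K h (pr_mem K β x), smul_zero, smul_zero]
  rw [h1]
  simp only [map_sum, h2, Finset.smul_sum]

/-- the class in `B_4` of an element of `X_4(α)`. -/
noncomputable def cls (α : Fin 4 → ℕ) : X K 4 α →ₗ[K] B K 4 (Fin 4 → K) :=
  ((L K (Fin 4 → K) 5).submoduleOf (L K (Fin 4 → K) 4)).mkQ ∘ₗ
    Submodule.inclusion (X_le_L K 2 α)

theorem range_cls (α : Fin 4 → ℕ) : LinearMap.range (cls K α) =
    Module.End.eigenspace (B.map K 4 (g0 K).toLinearMap) (chi K α) := by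
  classical
  apply le_antisymm
  · rintro _ ⟨x, rfl⟩
    rw [Module.End.mem_eigenspace_iff]
    have h1 : B.map K 4 (g0 K).toLinearMap (cls K α x) =
        ((L K (Fin 4 → K) 5).submoduleOf (L K (Fin 4 → K) 4)).mkQ
          ⟨Tmap K (g0 K).toLinearMap x.1, Tmap_mem_L K _ 4 (X_le_L K 2 α x.2)⟩ := rfl
    rw [h1]
    have h2 : (⟨Tmap K (g0 K).toLinearMap x.1, Tmap_mem_L K _ 4 (X_le_L K 2 α x.2)⟩ :
        L K (Fin 4 → K) 4) = chi K α • Submodule.inclusion (X_le_L K 2 α) x := by
      apply Subtype.ext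
      exact Tmap_of_mem K (X_le_As K 4 α x.2)
    rw [h2, map_smul]
    rfl
  · intro y hy
    rw [Module.End.mem_eigenspace_iff] at hy
    obtain ⟨⟨x, hx⟩, rfl⟩ := Submodule.mkQ_surjective _ y
    have h1 : B.map K 4 (g0 K).toLinearMap
        (((L K (Fin 4 → K) 5).submoduleOf (L K (Fin 4 → K) 4)).mkQ ⟨x, hx⟩) =
        ((L K (Fin 4 → K) 5).submoduleOf (L K (Fin 4 → K) 4)).mkQ
          ⟨Tmap K (g0 K).toLinearMap x, Tmap_mem_L K _ 4 hx⟩ := rfl
    rw [h1, ← map_smul, ← sub_eq_zero, ← map_sub, Submodule.mkQ_apply,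
      Submodule.Quotient.mk_eq_zero] at hy
    have h2 : Tmap K (g0 K).toLinearMap x - chi K α • x ∈ L K (Fin 4 → K) 5 := hy
    have h3 : ∀ β, β ≠ α → pr K β x ∈ L K (Fin 4 → K) 5 := by
      intro β hβ
      have h4 := X_le_L K 3 β (pr_L K 3 β h2)
      rw [map_sub, pr_Tmap, map_smul, ← sub_smul] at h4
      have h5 : chi K β - chi K α ≠ 0 := by
        intro h
        exact hβ (chi_inj K (sub_eq_zero.mp h))
      have h6 := Submodule.smul_mem _ (chi K β - chi K α)⁻¹ h4
      rwa [smul_smul, inv_mul_cancel₀ h5, one_smul] at h6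
    refine ⟨⟨pr K α x, pr_L K 2 α hx⟩, ?_⟩
    have h7 : pr K α x - x ∈ L K (Fin 4 → K) 5 := by
      obtain ⟨S, hS⟩ := exists_sum_pr K x
      have h8 := hS (insert α S) (Finset.subset_insert _ _)
      have h9 : pr K α x - x = - ∑ β ∈ (insert α S).erase α, pr K β x := by
        have h10 : x = ∑ β ∈ (insert α S).erase α, pr K β x + pr K α x := by
          rw [Finset.sum_erase_add _ _ (Finset.mem_insert_self _ _)]
          exact h8
        nth_rewrite 2 [h10]
        abel
      rw [h9]
      refine Submodule.neg_mem _ (Submodule.sum_mem _ fun β hβ => h3 β ?_)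
      exact (Finset.mem_erase.mp hβ).1
    rw [← sub_eq_zero]
    have h11 : cls K α ⟨pr K α x, pr_L K 2 α hx⟩ -
        ((L K (Fin 4 → K) 5).submoduleOf (L K (Fin 4 → K) 4)).mkQ ⟨x, hx⟩ =
        ((L K (Fin 4 → K) 5).submoduleOf (L K (Fin 4 → K) 4)).mkQ
        (⟨pr K α x, X_le_L K 2 α (pr_L K 2 α hx)⟩ - ⟨x, hx⟩) := rfl
    rw [h11, Submodule.mkQ_apply, Submodule.Quotient.mk_eq_zero]
    exact h7

theorem ker_cls (α : Fin 4 → ℕ) : LinearMap.ker (cls K α) =
    (X K 5 α).comap (X K 4 α).subtype := by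
  ext x
  rw [LinearMap.mem_ker, Submodule.mem_comap]
  change ((L K (Fin 4 → K) 5).submoduleOf (L K (Fin 4 → K) 4)).mkQ
    (Submodule.inclusion (X_le_L K 2 α) x) = 0 ↔ x.1 ∈ X K (3 + 2) α
  rw [Submodule.mkQ_apply, Submodule.Quotient.mk_eq_zero, mem_X_iff]
  constructor
  · intro h
    exact ⟨h, X_le_As K 4 α x.2⟩
  · intro h
    exact h.1

omit [CharZero K] in
theorem L_anti (V : Type u) [AddCommGroup V] [Module K V] (k : ℕ) :
    L K V (k + 2) ≤ L K V (k + 1) := by
  induction k with
  | zero => exact le_top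
  | succ k ih =>
    rw [L, Submodule.span_le]
    rintro _ ⟨a, b, hb, rfl⟩
    have : L K V (k + 1 + 1) = Submodule.span K
      {x | ∃ a : TensorAlgebra K V, ∃ b ∈ L K V (k + 1), x = a * b - b * a} := by rw [L]
    rw [this]
    exact Submodule.subset_span ⟨a, b, ih hb, rfl⟩

omit [CharZero K] in
theorem X_anti (α : Fin 4 → ℕ) : X K 5 α ≤ X K 4 α := by
  intro x hx
  have h := (mem_X_iff K 3 α x).mp hx
  exact (mem_X_iff K 2 α x).mpr ⟨L_anti K _ 3 h.1, h.2⟩

omit [CharZero K] in
theorem As_finite (α : Fin 4 → ℕ) : Module.Finite K (As K α) := by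
  have hfin : ({u : Wd | ct u = α}).Finite := by
    have h1 : ({u : Wd | ct u = α}) ⊆ {u : Wd | u.length = ∑ i, α i} := by
      intro u hu
      have hu' : ct u = α := hu
      change u.length = _
      rw [length_eq_sum_ct, hu']
    exact Set.Finite.subset (List.finite_length_eq (Fin 4) _) h1
  exact Module.Finite.span_of_finite K (hfin.image _)

omit [CharZero K] in
theorem X_finite (k : ℕ) (α : Fin 4 → ℕ) : Module.Finite K (X K k α) := by
  have := As_finite K α
  exact Submodule.finiteDimensional_of_le (X_le_As K k α)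

theorem eig_finite (α : Fin 4 → ℕ) : Module.Finite K
    (Module.End.eigenspace (B.map K 4 (g0 K).toLinearMap) (chi K α)) := by
  have := X_finite K 4 α
  rw [← range_cls]
  infer_instance

/-- the dimension formula -/
theorem finrank_eig (α : Fin 4 → ℕ) :
    Module.finrank K (Module.End.eigenspace (B.map K 4 (g0 K).toLinearMap) (chi K α)) +
      Module.finrank K (X K 5 α) = Module.finrank K (X K 4 α) := by
  have := X_finite K 4 α
  have := X_finite K 5 α
  rw [← LinearMap.finrank_range_add_finrank_ker (cls K α), range_cls, ker_cls,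
    LinearEquiv.finrank_eq (Submodule.comapSubtypeEquivOfLe (X_anti K α))]

end Pool.Agent.Lib.MP_eb394a_al
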