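import Pool.Agent.Lib.MP_eb394a_al.Check

/-!
Certificates for the dimensions of some graded pieces.
-/

set_option autoImplicit false
set_option maxRecDepth 100000

namespace Pool.Agent.Lib.MP_eb394a_al

universe u

/-- table of functionals -/
def trLB3111 : Tr :=
  (.n (.n (.n (.n .e (.n .e .e (.n .e .e .e (.l 0x830c108401082820c200318018610830c21800)) (.n .e
  .e (.l 0x14318108401084020c000218000c108300200c0) .e)) (.n .e (.n .e .e .e (.l
  0xc204204401042820c000218018610800021800)) .e (.n .e (.l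
  0x1010c600081020020c30c618010800021803) .e .e)) (.n .e (.n .e .e (.l
  0x821c00c4010c3020020c30c6086008300200c3) .e) (.n .e (.l
  0x8018108401083020000c20c6186108000200c3) .e .e) .e)) (.n (.n .e .e (.n .e .e .e (.l
  0xc30c00c421083020c200318418610620821800)) (.n .e .e (.l
  0x14314010620084060c200318408c106200200c0) .e)) .e (.n (.n .e .e .e (.l
  0xc604404421040820c208208408600220800802)) .e .e (.n (.l
  0x8508404421101020830c208418610210820802) .e .e .e)) (.n (.n .e .e (.l
  0x102102082201438218304318418820610040040) .e) .e (.n (.l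
  0x10510408620101020830c208408810210020042) .e .e .e) .e)) (.n (.n .e (.n .e .e .e (.l
  0xc304404401082020c008110018610600020802)) .e (.n .e (.l
  0x10c3084000c1820801410c618010800020803) .e .e)) (.n (.n .e .e .e (.l
  0xc500500421000820c008108408600200000802)) .e .e (.n (.l
  0xc504404421101020830c208418610200020802) .e .e .e)) .e (.n (.n .e (.l
  0x840830c620101040431020c618410400020803) .e .e) (.n (.l
  0x85083084311008204310204618410200020803) .e .e .e) .e .e)) (.n (.n .e (.n .e .e (.l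
  0xc508404421081820c30830c608600420020043) .e) (.n .e (.l
  0xc30c3084210c1820c30830c618610400020043) .e .e) .e) (.n (.n .e .e (.l
  0xc41020c431102020c50840c618610210040043) .e) .e (.n (.l
  0xc60c3084311010204310204610608210020043) .e .e .e) .e) (.n (.n .e (.l
  0xc40c308421102020411010c618610400020043) .e .e) (.n (.l
  0xc50c3084311010204310204618610200020043) .e .e .e) .e .e) .e)) (.n (.n (.n .e .e (.n .e .e .e
  (.l 0xc30c00c431083020c300314618610410421801)) (.n .e .e (.l
  0x14310010630083860c300314610c104100200c1) .e)) .e (.n (.n .e .e .e (.l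
  0xc508308431081820c20820c610608210410802)) .e .e (.n (.l
  0xc508308431101820830c20c618610208420802) .e .e .e)) (.n (.n .e .e (.l
  0x1030c20c4301030414404314618818408030041) .e) .e (.n (.l
  0x1050c30c630101840830c20c610810208020042) .e .e .e) .e)) .e (.n (.n (.n .e .e .e (.l
  0xc704504431080020c30c204608600010400003)) .e .e (.n (.l
  0xc6045044310c0820c30c208610608008410003) .e .e .e)) .e .e (.n (.n (.l
  0x8408504421101820c30c20c618610200420003) .e .e .e) .e .e .e)) (.n (.n (.n .e .e (.l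
  0xc20c208220183021430c214620620600040001) .e) .e (.n (.l
  0xc30c408420142021030c210618618400030002) .e .e .e) .e) .e (.n (.n (.l
  0xc40c508620101020c30c20c610610200020003) .e .e .e) .e .e .e) .e)) (.n (.n (.n .e (.n .e .e .e
  (.l 0xc4045044010c1820c00c008018610400020004)) .e (.n .e (.l
  0x208504200102021401400c618010800020003) .e .e)) (.n (.n .e .e .e (.l
  0xc504504421081020c10c108410608200010003)) .e .e (.n (.l
  0xc504504421101020c30c208418610200020003) .e .e .e)) .e (.n (.n .e (.l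
  0x8404408420101841021010c618410400020003) .e .e) (.n (.l
  0x8508408431101020c310208618410200020003) .e .e .e) .e .e)) (.n (.n (.n .e .e .e (.l
  0xc600600431040020c10c104608600000000003)) .e .e (.n (.l
  0xc6045044310c0820c30c208610608000010003) .e .e .e)) .e .e (.n (.n (.l
  0xc504504421101820c30c20c618610200020003) .e .e .e) .e .e .e)) .e (.n (.n (.n .e (.l
  0xc50440c630101860c40c20c618610200020003) .e .e) (.n (.l
  0xc508408431101820c30c20c618610200020003) .e .e .e) .e .e) (.n (.n (.l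
  0xc508408431101820c30c20c618610200020003) .e .e .e) .e .e .e) .e .e)) (.n (.n (.n .e (.n .e .e
  (.l 0xc6045044310c1021040830c610608210020003) .e) (.n .e (.l
  0xc508408431101021040830c618610200020003) .e .e) .e) (.n (.n .e .e (.l
  0xc508408431101821040830c618610208030003) .e) .e (.n (.l
  0xc6045044310c1020c30c208610608208020003) .e .e .e) .e) (.n (.n .e (.l
  0xc508408431101820c30c20c618610200020003) .e .e) (.n (.l
  0xc508408431101020c30c208618610200020003) .e .e .e) .e .e) .e) (.n (.n (.n .e .e (.l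
  0xc40c30c431142021050830c620618200040003) .e) .e (.n (.l
  0xc508408431101820c30c20c618610200030003) .e .e .e) .e) .e (.n (.n (.l
  0xc508408431101820c30c20c618610200020003) .e .e .e) .e .e .e) .e) (.n (.n (.n .e (.l
  0xc508408431102020c20c10c618610200020003) .e .e) (.n (.l
  0xc508408431101820c30c20c618610200020003) .e .e .e) .e .e) (.n (.n (.l
  0xc508408431101820c30c20c618610200020003) .e .e .e) .e .e .e) .e .e) .e)) (.n (.n (.n (.n .e
  .e (.n .e .e .e (.l 0xc308108431082820c30020c618610200021803)) (.n .e .e (.l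
  0x1430c108431083020c30020c618c102000200c3) .e)) .e (.n (.n .e .e .e (.l
  0xc4083084310c2020c30820c618610200020803)) .e .e (.n (.l
  0xc508308431101820830c20c618610200020803) .e .e .e)) (.n (.n .e .e (.l
  0x104083084310c2021030420c618810200020043) .e) .e (.n (.l
  0x10508308431101820830c20c618810200020043) .e .e .e) .e)) .e (.n (.n (.n .e .e .e (.l
  0xc508408431101820c30c20c618610200020003)) .e .e (.n (.l
  0xc508408431101820c30c20c618610200020003) .e .e .e)) .e .e (.n (.n (.l
  0xc508408431101820c30c20c618610200020003) .e .e .e) .e .e .e)) (.n (.n (.n .e .e (.l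
  0xc508308431101820c30c20c618610200020003) .e) .e (.n (.l
  0xc508408431101820c30c20c618610200020003) .e .e .e) .e) .e (.n (.n (.l
  0xc508408431101820c30c20c618610200020003) .e .e .e) .e .e .e) .e)) .e (.n (.n (.n (.n .e .e .e
  (.l 0xc50c30c431181820c50c30c620618200020003)) .e .e (.n (.l
  0xc508408431101820c30c20c618610200020003) .e .e .e)) .e .e (.n (.n (.l
  0xc508408431101820c30c20c618610200020003) .e .e .e) .e .e .e)) .e .e (.n (.n (.n (.l
  0xc508408431101820c30c20c618610200020003) .e .e .e) .e .e .e) .e .e .e)) (.n (.n (.n (.n .e .e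
  (.l 0xc508108431101820011810c618610200020003) .e) .e (.n (.l
  0xc508308431101820831020c618610200020003) .e .e .e) .e) .e (.n (.n (.l
  0xc508408431101820c30c20c618610200020003) .e .e .e) .e .e .e) .e) .e (.n (.n (.n (.l
  0xc508408431101820c30c20c618610200020003) .e .e .e) .e .e .e) .e .e .e) .e)) (.n (.n (.n (.n
  .e (.n .e .e .e (.l 0xc504504401101020c20c000018610200020006)) .e (.n .e (.l
  0x208604000183022420c00c620018800020003) .e .e)) (.n (.n .e .e .e (.l
  0xc508408421101820c20c108418610200020004)) .e .e (.n (.l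
  0xc504504421101020c30c208418610200020004) .e .e .e)) .e (.n (.n .e (.l
  0x8400504220102041c30c10c618410400020003) .e .e) (.n (.l
  0x8508508431101821430c20c618410200020003) .e .e .e) .e .e)) (.n (.n (.n .e .e .e (.l
  0xc508408431101820c30c20c618610200020003)) .e .e (.n (.l
  0xc508408431101820c30c20c618610200020003) .e .e .e)) .e .e (.n (.n (.l
  0xc504504421101820c30c20c618610400020003) .e .e .e) .e .e .e)) .e (.n (.n (.n .e (.l
  0xc500408430101861440c20c618610200020003) .e .e) (.n (.l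
  0xc508408431101821030c20c618610200020003) .e .e .e) .e .e) (.n (.n (.l
  0xc50c40c631101820c30c20c618610200020003) .e .e .e) .e .e .e) .e .e)) (.n (.n (.n (.n .e .e .e
  (.l 0xc504504431101820c30c20c618610200020003)) .e .e (.n (.l
  0xc508408431101820c30c20c618610200020003) .e .e .e)) .e .e (.n (.n (.l
  0xc608408431101820c30c20c618610200020003) .e .e .e) .e .e .e)) .e .e (.n (.n (.n (.l
  0x107005044310c1820c30c20c618610200020003) .e .e .e) .e .e .e) .e .e .e)) .e (.n (.n (.n (.n
  .e (.l 0xc50440c630101880c50c30c618610200020003) .e .e) (.n (.l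
  0x10508408431101820c30c20c618610200020003) .e .e .e) .e .e) (.n (.n (.l
  0x1050c408431101800c30c20c618610200020003) .e .e .e) .e .e .e) .e .e) (.n (.n (.n (.l
  0x1050c40c630101820c30c20c618610200020003) .e .e .e) .e .e .e) .e .e .e) .e .e)) (.n (.n (.n
  (.n .e (.n .e .e (.l 0x850c408431101820c30c20c618610200020003) .e) (.n .e (.l
  0xc508408431101820c30c20c618610200020003) .e .e) .e) (.n (.n .e .e (.l
  0xc508408431101820c30c20c618610200020003) .e) .e (.n (.l
  0xc508408431101820c30c20c618610200020003) .e .e .e) .e) (.n (.n .e (.l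
  0xc508408431101820c30c20c618610200020003) .e .e) (.n (.l
  0xc508408431101820c30c20c618610200020003) .e .e .e) .e .e) .e) (.n (.n (.n .e .e (.l
  0xc508408431101820c30c20c618610200020003) .e) .e (.n (.l
  0xc508408431101820c30c20c618610200020003) .e .e .e) .e) .e (.n (.n (.l
  0xc508408431101820c30c20c618610200020003) .e .e .e) .e .e .e) .e) (.n (.n (.n .e (.l
  0xc508408431101820c30c20c618610200020003) .e .e) (.n (.l
  0xc508408431101820c30c20c618610200020003) .e .e .e) .e .e) (.n (.n (.l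
  0xc508408431101820c30c20c618610200020003) .e .e .e) .e .e .e) .e .e) .e) (.n (.n (.n (.n .e .e
  (.l 0xc508408431101820c30c20c618610200020003) .e) .e (.n (.l
  0xc508408431101820c30c20c618610200020003) .e .e .e) .e) .e (.n (.n (.l
  0xc508408431101820c30c20c618610200020003) .e .e .e) .e .e .e) .e) .e (.n (.n (.n (.l
  0xc40c30c431142020c30c20c620618200020003) .e .e .e) .e .e .e) .e .e .e) .e) (.n (.n (.n (.n .e
  (.l 0xc508408431101820c30c20c618610200020003) .e .e) (.n (.l
  0xc508408431101820c30c20c618610200020003) .e .e .e) .e .e) (.n (.n (.l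
  0xc508408431101820c30c20c618610200020003) .e .e .e) .e .e .e) .e .e) (.n (.n (.n (.l
  0xc508408431102020c30c20c618610200020003) .e .e .e) .e .e .e) .e .e .e) .e .e) .e))

/-- elements -/
def elLB3111 : List (ℕ × ℕ × ℕ) :=
  [(834, 3, 6), (291, 4, 5), (306, 4, 5), (531, 4, 6), (198, 5, 5), (897, 3, 6), (210, 5, 6), (39,
  5, 6), (267, 4, 6), (54, 2, 6), (210, 3, 5), (210, 1, 6), (3330, 0, 6), (834, 5, 6), (450, 5,
  6), (1794, 3, 7), (1059, 1, 6), (1155, 0, 7), (2115, 1, 6), (114, 1, 4), (561, 3, 5), (450, 1,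
  5), (705, 1, 6), (2817, 3, 6), (519, 0, 6), (135, 0, 6), (27, 0, 6)]

theorem goodLB3111 : allW (fun w => goodC 8 (look 6 trLB3111 w) (wid elLB3111) 0) 6 0 3 1 1 1 = true := by
  decide +kernel

theorem vanLB3111 : allW (chkV (look 6 trLB3111) 6 (cmp 3 6)) 6 0 3 1 1 1 = true := by
  decide +kernel

theorem elsLB3111 : chkE (look 6 trLB3111) 6 3 1 1 1 (cmp 2 6) elLB3111 0 = true := by
  decide +kernel

theorem LB3111 (K : Type u) [Field K] [CharZero K] :
    Module.finrank K (X K 5 ![3, 1, 1, 1]) + 27 ≤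
      Module.finrank K (X K 4 ![3, 1, 1, 1]) := by
  have h := lb K 2 6 3 1 1 1 8 elLB3111 (by norm_num) (by norm_num) (by norm_num)
    (X K 5 ![3, 1, 1, 1]) (X_anti K _) goodLB3111
    (fun q hq => vanish (k := 3) (M := 8) K q (by norm_num) (by norm_num) hq vanLB3111) elsLB3111
  have h1 : elLB3111.length = 27 := by decide +kernel
  rw [h1] at h
  exact h

/-- table of functionals -/
def trUB2111 : Tr :=
  (.n (.n (.n .e (.n .e .e (.n .e .e .e (.l 0x46204246011108620111110c402022)) (.n .e .e (.l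
  0x4040200824108c4210208988422220) .e)) (.n .e (.n .e .e .e (.l
  0x4820600422208c401201988c420022)) .e (.n .e (.l 0x4a00424a03108c2203121014020022) .e .e)) (.n
  .e (.n .e .e (.l 0x4222024e050088260131010c022220) .e) (.n .e (.l
  0x4420200c26100c021221888c060220) .e .e) .e)) (.n (.n .e .e (.n .e .e .e (.l
  0x482042460210c8620211108c402022)) (.n .e .e (.l 0x443022082310886211208908422220) .e)) .e (.n
  (.n .e .e .e (.l 0x443024462110c48211208908603111)) .e .e (.n (.l
  0x444024422118c48021209084822201) .e .e .e)) (.n (.n .e .e (.l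
  0x444022042318886021209084822210) .e) .e (.n (.l 0x405004044218848030300904822300) .e .e .e)
  .e)) (.n (.n .e (.n .e .e .e (.l 0x443042062218886021111108621111)) .e (.n .e (.l
  0x46204248031088421221888c421111) .e .e)) (.n (.n .e .e .e (.l
  0x463042442218886022111088621111)) .e .e (.n (.l 0x444024024120848031209084821201) .e .e .e))
  .e (.n (.n .e (.l 0x443024062218848031210888621201) .e .e) (.n (.l
  0x463024442218886022211008621201) .e .e .e) .e .e)) (.n (.n .e (.n .e .e (.l
  0x443022082410884221210888422210) .e) (.n .e (.l 0x443022082418484031210888441210) .e .e) .e)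
  (.n (.n .e .e (.l 0x443024082310846221308888422210) .e) .e (.n (.l
  0x424204462310846221308884622300) .e .e .e) .e) (.n (.n .e (.l
  0x444022062418484031210884641300) .e .e) (.n (.l 0x424004064318446031308884641300) .e .e .e)
  .e .e) .e)) (.n (.n (.n .e .e (.n .e .e .e (.l 0x4a2044460110c8620311100c402022)) (.n .e .e
  (.l 0x443024082210848212208888422220) .e)) .e (.n (.n .e .e .e (.l
  0x463044460110c48212208888603111)) .e .e (.n (.l 0x444024042218848031208884822201) .e .e .e))
  (.n (.n .e .e (.l 0x444024042218848031208884822210) .e) .e (.n (.l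
  0x444024042218848031208884822300) .e .e .e) .e)) .e (.n (.n (.n .e .e .e (.l
  0x424206460110c0a221300104804200)) .e .e (.n (.l 0x444024042218848031208884823200) .e .e .e))
  .e .e (.n (.n (.l 0x444024042218848031208884842200) .e .e .e) .e .e .e)) (.n (.n (.n .e .e (.l
  0x445024002220848031208880c22200) .e) .e (.n (.l 0x444024042218848031208884a22200) .e .e .e)
  .e) .e (.n (.n (.l 0x444024042218848031208888822200) .e .e .e) .e .e .e) .e)) (.n (.n (.n .e
  (.n .e .e .e (.l 0x405024042218848030208984822200)) .e (.n .e (.l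
  0x424204460310846221310104822200) .e .e)) (.n (.n .e .e .e (.l
  0x444024042218848031208904822200)) .e .e (.n (.l 0x444024042218848031209084822200) .e .e .e))
  .e (.n (.n .e (.l 0x444024042218848031210884822200) .e .e) (.n (.l
  0x444024042218848031308884822200) .e .e .e) .e .e)) (.n (.n (.n .e .e .e (.l
  0x444024042218848032208884822200)) .e .e (.n (.l 0x444024042218848041208884822200) .e .e .e))
  .e .e (.n (.n (.l 0x444024042218848231208884822200) .e .e .e) .e .e .e)) .e (.n (.n (.n .e (.l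
  0x444026042018c0c031208884822200) .e .e) (.n (.l 0x44402404221884a031208884822200) .e .e .e)
  .e .e) (.n (.n (.l 0x444024042218888031208884822200) .e .e .e) .e .e .e) .e .e)) (.n (.n (.n
  .e (.n .e .e (.l 0x444024042218c48031208884822200) .e) (.n .e (.l
  0x444024042220848031208884822200) .e .e) .e) (.n (.n .e .e (.l
  0x444024042318848031208884822200) .e) .e (.n (.l 0x444024044218848031208884822200) .e .e .e)
  .e) (.n (.n .e (.l 0x444024062218848031208884822200) .e .e) (.n (.l
  0x444024442218848031208884822200) .e .e .e) .e .e) .e) (.n (.n (.n .e .e (.l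
  0x444026042218848031208884822200) .e) .e (.n (.l 0x444044042218848031208884822200) .e .e .e)
  .e) .e (.n (.n (.l 0x444224042218848031208884822200) .e .e .e) .e .e .e) .e) (.n (.n (.n .e
  (.l 0x445024042218848031208884822200) .e .e) (.n (.l 0x464024042218848031208884822200) .e .e
  .e) .e .e) (.n (.n (.l 0x444024042218848031208884822200) .e .e .e) .e .e .e) .e .e) .e))

/-- elements -/
def elUB2111 : List (ℕ × ℕ × ℕ) :=
  [(300, 0, 4), (306, 0, 4), (312, 0, 4), (396, 0, 5), (432, 0, 4), (456, 0, 5), (480, 0, 5),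
  (531, 0, 4), (540, 0, 4), (561, 0, 5), (564, 0, 4), (579, 0, 4), (588, 0, 5), (624, 0, 4),
  (708, 0, 5), (720, 0, 4), (774, 0, 5), (777, 0, 5), (786, 0, 5), (792, 0, 4), (801, 0, 5),
  (804, 0, 3), (834, 0, 4), (840, 0, 4), (864, 0, 3), (897, 0, 5), (900, 0, 5), (912, 1, 3)]

theorem goodUB2111 : allW (fun w => goodC 4 (look 5 trUB2111 w) (wid elUB2111) 0) 5 0 2 1 1 1 = true := by
  decide +kernel

theorem vanUB2111 : allW (chkV (look 5 trUB2111) 5 (cmp 2 5)) 5 0 2 1 1 1 = true := by
  decide +kernel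

theorem elsUB2111 : chkU (look 5 trUB2111) 5 2 1 1 1 912 elUB2111 0 = true := by
  decide +kernel

theorem UB2111 (K : Type u) [Field K] [CharZero K] :
    Module.finrank K (X K 4 ![2, 1, 1, 1]) + 28 ≤ 60 := by
  have h := ub K 2 5 2 1 1 1 4 912 elUB2111 (by norm_num) (by norm_num) goodUB2111 vanUB2111
    (by decide +kernel) elsUB2111
  have h1 : elUB2111.length = 28 := by decide +kernel
  have h2 : cW 5 2 1 1 1 = 60 := by decide +kernel
  rw [h1, h2] at h
  exact h

/-- table of functionals -/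
def trRB2111 : Tr :=
  (.n (.n (.n .e (.n .e .e (.n .e .e .e (.l 0x1)) (.n .e .e (.l 0x0) .e)) (.n .e (.n .e .e .e (.l
  0x10)) .e (.n .e (.l 0x0) .e .e)) (.n .e (.n .e .e (.l 0x0) .e) (.n .e (.l 0x0) .e .e) .e))
  (.n (.n .e .e (.n .e .e .e (.l 0x1000000)) (.n .e .e (.l 0x0) .e)) .e (.n (.n .e .e .e (.l
  0x10000000)) .e .e (.n (.l 0x0) .e .e .e)) (.n (.n .e .e (.l 0x0) .e) .e (.n (.l 0x0) .e .e
  .e) .e)) (.n (.n .e (.n .e .e .e (.l 0x100000000)) .e (.n .e (.l 0x0) .e .e)) (.n (.n .e .e .e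
  (.l 0x1000000000)) .e .e (.n (.l 0x0) .e .e .e)) .e (.n (.n .e (.l 0x0) .e .e) (.n (.l 0x0) .e
  .e .e) .e .e)) (.n (.n .e (.n .e .e (.l 0x0) .e) (.n .e (.l 0x0) .e .e) .e) (.n (.n .e .e (.l
  0x0) .e) .e (.n (.l 0x0) .e .e .e) .e) (.n (.n .e (.l 0x0) .e .e) (.n (.l 0x0) .e .e .e) .e
  .e) .e)) (.n (.n (.n .e .e (.n .e .e .e (.l 0x100)) (.n .e .e (.l 0x0) .e)) .e (.n (.n .e .e
  .e (.l 0x10000000000)) .e .e (.n (.l 0x0) .e .e .e)) (.n (.n .e .e (.l 0x0) .e) .e (.n (.l
  0x0) .e .e .e) .e)) .e (.n (.n (.n .e .e .e (.l 0x1000)) .e .e (.n (.l 0x0) .e .e .e)) .e .e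
  (.n (.n (.l 0x0) .e .e .e) .e .e .e)) (.n (.n (.n .e .e (.l 0x0) .e) .e (.n (.l 0x0) .e .e .e)
  .e) .e (.n (.n (.l 0x0) .e .e .e) .e .e .e) .e)) (.n (.n (.n .e (.n .e .e .e (.l 0x10000)) .e
  (.n .e (.l 0x0) .e .e)) (.n (.n .e .e .e (.l 0x100000000000)) .e .e (.n (.l 0x0) .e .e .e)) .e
  (.n (.n .e (.l 0x0) .e .e) (.n (.l 0x0) .e .e .e) .e .e)) (.n (.n (.n .e .e .e (.l 0x100000))
  .e .e (.n (.l 0x0) .e .e .e)) .e .e (.n (.n (.l 0x0) .e .e .e) .e .e .e)) .e (.n (.n (.n .e
  (.l 0x0) .e .e) (.n (.l 0x0) .e .e .e) .e .e) (.n (.n (.l 0x0) .e .e .e) .e .e .e) .e .e)) (.n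
  (.n (.n .e (.n .e .e (.l 0x0) .e) (.n .e (.l 0x0) .e .e) .e) (.n (.n .e .e (.l 0x0) .e) .e (.n
  (.l 0x0) .e .e .e) .e) (.n (.n .e (.l 0x0) .e .e) (.n (.l 0x0) .e .e .e) .e .e) .e) (.n (.n
  (.n .e .e (.l 0x0) .e) .e (.n (.l 0x0) .e .e .e) .e) .e (.n (.n (.l 0x0) .e .e .e) .e .e .e)
  .e) (.n (.n (.n .e (.l 0x0) .e .e) (.n (.l 0x0) .e .e .e) .e .e) (.n (.n (.l 0x0) .e .e .e) .e
  .e .e) .e .e) .e))

/-- elements -/
def elRB2111 : List (ℕ × ℕ × ℕ) :=
  [(27, 0, 4), (39, 0, 4), (267, 0, 4), (387, 0, 4), (519, 0, 4), (579, 0, 4), (75, 0, 4), (99, 0,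
  4), (135, 0, 4), (147, 0, 4), (291, 0, 4), (531, 0, 4)]

theorem goodRB2111 : allW (fun w => goodC 8 (look 5 trRB2111 w) (wid elRB2111) 0) 5 0 2 1 1 1 = true := by
  decide +kernel

theorem elsRB2111 : chkE (look 5 trRB2111) 5 2 1 1 1 (cmp 3 5) elRB2111 0 = true := by
  decide +kernel

theorem RB2111 (K : Type u) [Field K] [CharZero K] :
    12 ≤ Module.finrank K (X K 5 ![2, 1, 1, 1]) := by
  have h := lb K 3 5 2 1 1 1 8 elRB2111 (by norm_num) (by norm_num) (by norm_num)
    ⊥ bot_le goodRB2111 (fun q _ y hy => by rw [(Submodule.mem_bot K).mp hy, map_zero]) elsRB2111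
  have h1 : elRB2111.length = 12 := by decide +kernel
  rw [h1, finrank_bot, zero_add] at h
  exact h

/-- table of functionals -/
def trLB3200 : Tr :=
  (.n (.n (.n (.n .e (.n .e (.l 0x403) .e .e) .e .e) (.n (.n .e (.l 0x21) .e .e) (.n (.l 0x421) .e
  .e .e) .e .e) .e .e) (.n (.n (.n .e (.l 0x420) .e .e) (.n (.l 0x420) .e .e .e) .e .e) (.n (.n
  (.l 0x420) .e .e .e) .e .e .e) .e .e) .e .e) (.n (.n (.n (.n .e (.l 0x420) .e .e) (.n (.l
  0x420) .e .e .e) .e .e) (.n (.n (.l 0x820) .e .e .e) .e .e .e) .e .e) (.n (.n (.n (.l 0x440)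
  .e .e .e) .e .e .e) .e .e .e) .e .e) .e .e)

/-- elements -/
def elLB3200 : List (ℕ × ℕ × ℕ) :=
  [(17, 1, 5), (17, 0, 5), (257, 0, 5)]

theorem goodLB3200 : allW (fun w => goodC 8 (look 5 trLB3200 w) (wid elLB3200) 0) 5 0 3 2 0 0 = true := by
  decide +kernel

theorem vanLB3200 : allW (chkV (look 5 trLB3200) 5 (cmp 3 5)) 5 0 3 2 0 0 = true := by
  decide +kernel

theorem elsLB3200 : chkE (look 5 trLB3200) 5 3 2 0 0 (cmp 2 5) elLB3200 0 = true := by
  decide +kernel

theorem LB3200 (K : Type u) [Field K] [CharZero K] :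
    Module.finrank K (X K 5 ![3, 2, 0, 0]) + 3 ≤
      Module.finrank K (X K 4 ![3, 2, 0, 0]) := by
  have h := lb K 2 5 3 2 0 0 8 elLB3200 (by norm_num) (by norm_num) (by norm_num)
    (X K 5 ![3, 2, 0, 0]) (X_anti K _) goodLB3200
    (fun q hq => vanish (k := 3) (M := 8) K q (by norm_num) (by norm_num) hq vanLB3200) elsLB3200
  have h1 : elLB3200.length = 3 := by decide +kernel
  rw [h1] at h
  exact h

/-- table of functionals -/
def trUB2200 : Tr :=
  (.n (.n (.n .e (.n .e (.l 0x4002) .e .e) .e .e) (.n (.n .e (.l 0x4801) .e .e) (.n (.l 0x4810) .e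
  .e .e) .e .e) .e .e) (.n (.n (.n .e (.l 0x4880) .e .e) (.n (.l 0x4c00) .e .e .e) .e .e) (.n
  (.n (.l 0x4800) .e .e .e) .e .e .e) .e .e) .e .e)

/-- elements -/
def elUB2200 : List (ℕ × ℕ × ℕ) :=
  [(17, 0, 4), (20, 0, 3), (65, 0, 3), (68, 0, 4), (80, 1, 3)]

theorem goodUB2200 : allW (fun w => goodC 4 (look 4 trUB2200 w) (wid elUB2200) 0) 4 0 2 2 0 0 = true := by
  decide +kernel

theorem vanUB2200 : allW (chkV (look 4 trUB2200) 4 (cmp 2 4)) 4 0 2 2 0 0 = true := by
  decide +kernel

theorem elsUB2200 : chkU (look 4 trUB2200) 4 2 2 0 0 80 elUB2200 0 = true := by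
  decide +kernel

theorem UB2200 (K : Type u) [Field K] [CharZero K] :
    Module.finrank K (X K 4 ![2, 2, 0, 0]) + 5 ≤ 6 := by
  have h := ub K 2 4 2 2 0 0 4 80 elUB2200 (by norm_num) (by norm_num) goodUB2200 vanUB2200
    (by decide +kernel) elsUB2200
  have h1 : elUB2200.length = 5 := by decide +kernel
  have h2 : cW 4 2 2 0 0 = 6 := by decide +kernel
  rw [h1, h2] at h
  exact h

/-- table of functionals -/
def trUB3100 : Tr :=
  (.n (.n (.n (.n .e (.l 0x203) .e .e) (.n (.l 0x231) .e .e .e) .e .e) (.n (.n (.l 0x240) .e .e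
  .e) .e .e .e) .e .e) (.n (.n (.n (.l 0x230) .e .e .e) .e .e .e) .e .e .e) .e .e)

/-- elements -/
def elUB3100 : List (ℕ × ℕ × ℕ) :=
  [(4, 0, 4), (16, 0, 5), (64, 1, 3)]

theorem goodUB3100 : allW (fun w => goodC 4 (look 4 trUB3100 w) (wid elUB3100) 0) 4 0 3 1 0 0 = true := by
  decide +kernel

theorem vanUB3100 : allW (chkV (look 4 trUB3100) 4 (cmp 2 4)) 4 0 3 1 0 0 = true := by
  decide +kernel

theorem elsUB3100 : chkU (look 4 trUB3100) 4 3 1 0 0 64 elUB3100 0 = true := by
  decide +kernel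

theorem UB3100 (K : Type u) [Field K] [CharZero K] :
    Module.finrank K (X K 4 ![3, 1, 0, 0]) + 3 ≤ 4 := by
  have h := ub K 2 4 3 1 0 0 4 64 elUB3100 (by norm_num) (by norm_num) goodUB3100 vanUB3100
    (by decide +kernel) elsUB3100
  have h1 : elUB3100.length = 3 := by decide +kernel
  have h2 : cW 4 3 1 0 0 = 4 := by decide +kernel
  rw [h1, h2] at h
  exact h

end Pool.Agent.Lib.MP_eb394a_al
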