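import Pool.Agent.Lib.MP_eb394a_al.Numeric

/-!
Boolean checks and the dimension estimates they imply.
-/

set_option autoImplicit false

open scoped TensorProduct DirectSum

namespace Pool.Agent.Lib.MP_eb394a_al

universe u

/-! ### tables -/

/-- tries of natural numbers -/
inductive Tr where
  | e : Tr
  | l (v : ℕ) : Tr
  | n (a b c d : Tr) : Tr

/-- select one of four values -/
def sel {α : Type} (i : ℕ) (a b c d : α) : α :=
  Nat.casesOn i a fun i => Nat.casesOn i b fun i => Nat.casesOn i c fun _ => d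

/-- child of a node -/
def Tr.child (t : Tr) (i : ℕ) : Tr :=
  Tr.casesOn t Tr.e (fun _ => Tr.e) (fun a b c d => sel i a b c d)

/-- value of a leaf -/
def Tr.val (t : Tr) : ℕ := Tr.casesOn t 0 (fun v => v) (fun _ _ _ _ => 0)

/-- look up the code of a word of length `n` -/
noncomputable def look (n : ℕ) (t : Tr) (c : ℕ) : ℕ := force c fun c =>
  Nat.rec (motive := fun _ => Tr → ℕ → ℕ) (fun t _ => t.val)
    (fun n ih t c => ih (t.child (Nat.mod (Nat.div c (Nat.pow 4 n)) 4)) c) n t c

/-! ### exponents -/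

/-- partial sums of the list of widths -/
def eo : List ℕ → ℕ → ℕ
  | _, 0 => 0
  | [], _ + 1 => 0
  | w :: ws, j + 1 => w + eo ws j

theorem eo_le_succ (ws : List ℕ) : ∀ j, eo ws j ≤ eo ws (j + 1) := by
  induction ws with
  | nil => intro j; cases j <;> simp [eo]
  | cons w ws ih =>
    intro j
    cases j with
    | zero => simp [eo]
    | succ j => simp only [eo]; exact Nat.add_le_add_left (ih j) w

theorem eo_mono (ws : List ℕ) : Monotone (eo ws) := monotone_nat_of_le_succ (eo_le_succ ws)

/-- the digits of `x` are small -/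
noncomputable def goodC (M x : ℕ) (ws : List ℕ) : ℕ → Bool :=
  List.rec (motive := fun _ => ℕ → Bool) (fun _ => true)
    (fun w _ ih E => and (Nat.ble (Nat.succ (Nat.mul (Nat.mod x (Nat.pow 2 (Nat.add E w))) M))
      (Nat.pow 2 (Nat.add E w))) (ih (Nat.add E w))) ws

theorem goodC_cons (M x w : ℕ) (ws : List ℕ) (E : ℕ) : goodC M x (w :: ws) E =
    and (Nat.ble (Nat.succ ((x % 2 ^ (E + w)) * M)) (2 ^ (E + w))) (goodC M x ws (E + w)) := rfl

theorem goodC_spec (M x : ℕ) (ws : List ℕ) : ∀ E, goodC M x ws E = true →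
    (x % 2 ^ E) * M < 2 ^ E → ∀ j ≤ ws.length, (x % 2 ^ (E + eo ws j)) * M < 2 ^ (E + eo ws j) := by
  induction ws with
  | nil =>
    intro E _ h j hj
    have : j = 0 := by simpa using hj
    subst this
    simpa [eo] using h
  | cons w ws ih =>
    intro E h h0 j hj
    rw [goodC_cons, Bool.and_eq_true] at h
    cases j with
    | zero => simpa [eo] using h0
    | succ j =>
      have h1 : (x % 2 ^ (E + w)) * M < 2 ^ (E + w) := Nat.le_of_ble_eq_true h.1
      have h2 := ih (E + w) h.2 h1 j (by simpa using hj)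
      rw [eo, ← add_assoc]
      exact h2

/-! ### vanishing -/

/-- the sums over the positive and the negative words agree -/
noncomputable def chkV (tb : ℕ → ℕ) (L : ℕ) (cl : List (List ℕ)) (w : ℕ) : Bool :=
  force w fun w => List.rec (motive := fun _ => Bool) true
    (fun cs _ ih => and (Nat.beq (ev tb (blk cs L w) true L 1 0)
      (ev tb (blk cs L w) false L 1 0)) ih) cl

/-- sum of the values of `tb` over the words of sign `s` -/
def S (tb : ℕ → ℕ) (bs : List Wd) (s : Bool) : ℕ := ((cp bs s).map fun u => tb (code u)).sum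

theorem ev_blk (tb : ℕ → ℕ) (bs : List Wd) (s : Bool) :
    ev tb (blk (bs.map List.length) bs.flatten.length (code bs.flatten)) s bs.flatten.length 1 0 =
      S tb bs s := by
  rw [blk_eq, ev_eq, S]
  simp only [mul_one, add_zero]

theorem chkV_spec {tb : ℕ → ℕ} {cl : List (List ℕ)} {bs : List Wd}
    (h : chkV tb bs.flatten.length cl (code bs.flatten) = true) (hbs : bs.map List.length ∈ cl) :
    S tb bs true = S tb bs false := by
  rw [chkV, force_eq] at h
  induction cl with
  | nil => simp at hbs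
  | cons cs cl ih =>
    have h' : and (Nat.beq (ev tb (blk cs bs.flatten.length (code bs.flatten)) true
        bs.flatten.length 1 0) (ev tb (blk cs bs.flatten.length (code bs.flatten)) false
        bs.flatten.length 1 0)) (List.rec (motive := fun _ => Bool) true
      (fun cs _ ih => and (Nat.beq (ev tb (blk cs bs.flatten.length (code bs.flatten)) true
        bs.flatten.length 1 0)
      (ev tb (blk cs bs.flatten.length (code bs.flatten)) false bs.flatten.length 1 0)) ih) cl)
        = true := h
    rw [Bool.and_eq_true] at h'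
    rcases List.mem_cons.mp hbs with h1 | h1
    · have h2 := Nat.eq_of_beq_eq_true h'.1
      rw [← h1, ev_blk, ev_blk] at h2
      exact h2
    · exact ih h'.2 h1

/-! ### elements -/

/-- compare two numbers above two thresholds -/
def stepC (sP sN E E' : ℕ) : Bool :=
  force sP fun p => force sN fun q =>
    and (Nat.beq (Nat.div p (Nat.pow 2 E')) (Nat.div q (Nat.pow 2 E')))
      (!(Nat.beq (Nat.div p (Nat.pow 2 E)) (Nat.div q (Nat.pow 2 E))))

theorem stepC_spec {sP sN E E' : ℕ} (h : stepC sP sN E E' = true) :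
    sP / 2 ^ E' = sN / 2 ^ E' ∧ sP / 2 ^ E ≠ sN / 2 ^ E := by
  rw [stepC, force_eq, force_eq, Bool.and_eq_true] at h
  refine ⟨Nat.eq_of_beq_eq_true h.1, fun h1 => ?_⟩
  have h2 : (Nat.beq (sP / 2 ^ E) (sN / 2 ^ E)) = true := by rw [h1]; simp
  have h3 : (!(Nat.beq (sP / 2 ^ E) (sN / 2 ^ E))) = true := h.2
  rw [h2] at h3
  exact absurd h3 (by decide)

/-- list access -/
noncomputable def getc (cl : List (List ℕ)) : ℕ → List ℕ :=
  List.rec (motive := fun _ => ℕ → List ℕ) (fun _ => [])
    (fun c _ ih i => Nat.casesOn i c ih) cl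

theorem getc_spec (cl : List (List ℕ)) : ∀ i, getc cl i = [] ∨ getc cl i ∈ cl := by
  induction cl with
  | nil => intro i; exact Or.inl rfl
  | cons c cl ih =>
    intro i
    cases i with
    | zero => exact Or.inr (List.mem_cons_self ..)
    | succ i =>
      rcases ih i with h | h
      · exact Or.inl h
      · exact Or.inr (List.mem_cons_of_mem _ h)

/-- check of a triangular list of commutators; entries: code, index of composition, width -/
noncomputable def chkE (tb : ℕ → ℕ) (n a b c d : ℕ) (cl : List (List ℕ))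
    (els : List (ℕ × ℕ × ℕ)) : ℕ → Bool :=
  List.rec (motive := fun _ => ℕ → Bool) (fun _ => true)
    (fun x _ ih E => and (okc n a b c d x.1)
      (and (stepC (ev tb (blk (getc cl x.2.1) n x.1) true n 1 0)
        (ev tb (blk (getc cl x.2.1) n x.1) false n 1 0) E (Nat.add E x.2.2))
        (ih (Nat.add E x.2.2)))) els

theorem chkE_cons (tb : ℕ → ℕ) (n a b c d : ℕ) (cl : List (List ℕ)) (x : ℕ × ℕ × ℕ)
    (els : List (ℕ × ℕ × ℕ)) (E : ℕ) : chkE tb n a b c d cl (x :: els) E =
    and (okc n a b c d x.1)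
      (and (stepC (ev tb (blk (getc cl x.2.1) n x.1) true n 1 0)
        (ev tb (blk (getc cl x.2.1) n x.1) false n 1 0) E (E + x.2.2))
        (chkE tb n a b c d cl els (E + x.2.2))) := rfl

/-- widths of a list of elements -/
def wid (els : List (ℕ × ℕ × ℕ)) : List ℕ := els.map fun x => x.2.2

theorem chkE_spec {tb : ℕ → ℕ} {n a b c d : ℕ} {cl : List (List ℕ)}
    (hcl : ∀ cs ∈ cl, cs.sum = n) (els : List (ℕ × ℕ × ℕ)) :
    ∀ E, chkE tb n a b c d cl els E = true → ∀ j < els.length, ∃ bs : List Wd,
      bs.map List.length ∈ cl ∧ ct bs.flatten = ![a, b, c, d] ∧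
      S tb bs true / 2 ^ (E + eo (wid els) (j + 1)) = S tb bs false / 2 ^ (E + eo (wid els) (j + 1)) ∧
      S tb bs true / 2 ^ (E + eo (wid els) j) ≠ S tb bs false / 2 ^ (E + eo (wid els) j) := by
  induction els with
  | nil => intro E _ j hj; simp at hj
  | cons x els ih =>
    intro E h j hj
    rw [chkE_cons, Bool.and_eq_true, Bool.and_eq_true] at h
    obtain ⟨h1, h2, h3⟩ := h
    cases j with
    | zero =>
      obtain ⟨u, hu1, hu2, hu3⟩ := okc_spec h1
      have h4 := stepC_spec h2
      rcases getc_spec cl x.2.1 with h5 | h5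
      · exfalso
        rw [h5] at h4
        exact h4.2 rfl
      · obtain ⟨bs, hbs1, hbs2⟩ := exists_blocks (getc cl x.2.1) u (by rw [hcl _ h5, hu1])
        refine ⟨bs, by rw [hbs1]; exact h5, by rw [hbs2]; exact hu2, ?_⟩
        have e1 : ∀ s, ev tb (blk (getc cl x.2.1) n x.1) s n 1 0 = S tb bs s := by
          intro s
          rw [← ev_blk, hbs1, hbs2, hu1, hu3]
        rw [e1, e1] at h4
        have e2 : eo (wid (x :: els)) (0 + 1) = x.2.2 := by
          rw [wid, List.map_cons, eo, eo]; rfl
        have e3 : eo (wid (x :: els)) 0 = 0 := by rw [eo]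
        rw [e2, e3, add_zero]
        exact h4
    | succ j =>
      obtain ⟨bs, g1, g2, g3, g4⟩ := ih (E + x.2.2) h3 j (by simpa using hj)
      have e1 : ∀ i, eo (wid (x :: els)) (i + 1) = x.2.2 + eo (wid els) i := by
        intro i
        rw [wid, List.map_cons, eo]; rfl
      refine ⟨bs, g1, g2, ?_, ?_⟩
      · rw [e1, ← add_assoc]; exact g3
      · rw [e1, ← add_assoc]; exact g4

/-- check of a triangular list of differences of words -/
noncomputable def chkU (tb : ℕ → ℕ) (n a b c d star : ℕ) (els : List (ℕ × ℕ × ℕ)) : ℕ → Bool :=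
  List.rec (motive := fun _ => ℕ → Bool) (fun _ => true)
    (fun x _ ih E => and (okc n a b c d x.1)
      (and (stepC (tb x.1) (Nat.casesOn x.2.1 (tb star) fun _ => 0) E (Nat.add E x.2.2))
        (ih (Nat.add E x.2.2)))) els

theorem chkU_cons (tb : ℕ → ℕ) (n a b c d star : ℕ) (x : ℕ × ℕ × ℕ)
    (els : List (ℕ × ℕ × ℕ)) (E : ℕ) : chkU tb n a b c d star (x :: els) E =
    and (okc n a b c d x.1)
      (and (stepC (tb x.1) (Nat.casesOn x.2.1 (tb star) fun _ => 0) E (E + x.2.2))
        (chkU tb n a b c d star els (E + x.2.2))) := rfl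

theorem chkU_spec {tb : ℕ → ℕ} {n a b c d star : ℕ} (hstar : okc n a b c d star = true)
    (els : List (ℕ × ℕ × ℕ)) :
    ∀ E, chkU tb n a b c d star els E = true → ∀ j < els.length, ∃ P N : List Wd,
      P.length ≤ 1 ∧ N.length ≤ 1 ∧
      (∀ u ∈ P, ct u = ![a, b, c, d]) ∧ (∀ u ∈ N, ct u = ![a, b, c, d]) ∧
      (P.map fun u => tb (code u)).sum / 2 ^ (E + eo (wid els) (j + 1)) =
        (N.map fun u => tb (code u)).sum / 2 ^ (E + eo (wid els) (j + 1)) ∧
      (P.map fun u => tb (code u)).sum / 2 ^ (E + eo (wid els) j) ≠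
        (N.map fun u => tb (code u)).sum / 2 ^ (E + eo (wid els) j) := by
  induction els with
  | nil => intro E _ j hj; simp at hj
  | cons x els ih =>
    intro E h j hj
    rw [chkU_cons, Bool.and_eq_true, Bool.and_eq_true] at h
    obtain ⟨h1, h2, h3⟩ := h
    cases j with
    | zero =>
      obtain ⟨u, hu1, hu2, hu3⟩ := okc_spec h1
      obtain ⟨v, hv1, hv2, hv3⟩ := okc_spec hstar
      have h4 := stepC_spec h2
      have e2 : eo (wid (x :: els)) (0 + 1) = x.2.2 := by
        rw [wid, List.map_cons, eo, eo]; rfl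
      have e3 : eo (wid (x :: els)) 0 = 0 := by rw [eo]
      cases hx : x.2.1 with
      | zero =>
        rw [hx] at h4
        refine ⟨[u], [v], le_rfl, le_rfl, by simpa using hu2, by simpa using hv2, ?_⟩
        rw [e2, e3, add_zero]
        simp only [List.map_cons, List.map_nil, List.sum_cons, List.sum_nil, add_zero, hu3, hv3]
        exact h4
      | succ m =>
        rw [hx] at h4
        refine ⟨[u], [], le_rfl, Nat.zero_le _, by simpa using hu2, by simp, ?_⟩
        rw [e2, e3, add_zero]
        simp only [List.map_cons, List.map_nil, List.sum_cons, List.sum_nil, add_zero, hu3]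
        exact h4
    | succ j =>
      obtain ⟨P, N, g0, g1, g2, g2', g3, g4⟩ := ih (E + x.2.2) h3 j (by simpa using hj)
      have e1 : ∀ i, eo (wid (x :: els)) (i + 1) = x.2.2 + eo (wid els) i := by
        intro i
        rw [wid, List.map_cons, eo]; rfl
      refine ⟨P, N, g0, g1, g2, g2', ?_, ?_⟩
      · rw [e1, ← add_assoc]; exact g3
      · rw [e1, ← add_assoc]; exact g4

/-! ### number of words -/

/-- number of words of given content -/
noncomputable def cW (n : ℕ) : ℕ → ℕ → ℕ → ℕ → ℕ :=
  Nat.rec (motive := fun _ => ℕ → ℕ → ℕ → ℕ → ℕ) (fun _ _ _ _ => 1)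
    (fun _ ih a b c d =>
      Nat.add (Nat.rec 0 (fun a' _ => ih a' b c d) a)
      (Nat.add (Nat.rec 0 (fun b' _ => ih a b' c d) b)
      (Nat.add (Nat.rec 0 (fun c' _ => ih a b c' d) c)
      (Nat.rec 0 (fun d' _ => ih a b c d') d)))) n

theorem cW_succ (n a b c d : ℕ) : cW (n + 1) a b c d =
    (Nat.rec (motive := fun _ => ℕ) 0 (fun a' _ => cW n a' b c d) a : ℕ) +
      ((Nat.rec (motive := fun _ => ℕ) 0 (fun b' _ => cW n a b' c d) b : ℕ) +
      ((Nat.rec (motive := fun _ => ℕ) 0 (fun c' _ => cW n a b c' d) c : ℕ) +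
      (Nat.rec (motive := fun _ => ℕ) 0 (fun d' _ => cW n a b c d') d : ℕ))) := rfl

theorem cW_aux (x : ℕ) (f : ℕ → ℕ) (i : Fin 4) (T : ℕ → Wd → Prop)
    (h : ∀ y, ∃ l : List Wd, l.length = f y ∧ ∀ u, T y u → u ∈ l) :
    ∃ l : List Wd, l.length = (Nat.rec (motive := fun _ => ℕ) 0 (fun y _ => f y) x : ℕ) ∧
      ∀ y u, x = y + 1 → T y u → (i :: u) ∈ l := by
  cases x with
  | zero => exact ⟨[], rfl, fun y u h => absurd h (by omega)⟩
  | succ x =>
    obtain ⟨l, h1, h2⟩ := h x
    refine ⟨l.map (i :: ·), by rw [List.length_map]; exact h1, ?_⟩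
    intro y u hy hu
    have : x = y := by omega
    subst this
    exact List.mem_map_of_mem (h2 u hu)

theorem cW_spec (n : ℕ) : ∀ a b c d : ℕ, ∃ l : List Wd, l.length = cW n a b c d ∧
    ∀ u : Wd, (u.length = n ∧ ct u = ![a, b, c, d]) → u ∈ l := by
  induction n with
  | zero =>
    intro a b c d
    refine ⟨[[]], rfl, ?_⟩
    rintro u ⟨h, -⟩
    rw [List.eq_nil_of_length_eq_zero h]
    exact List.mem_cons_self ..
  | succ n ih =>
    intro a b c d
    obtain ⟨l0, hl0, h0⟩ := cW_aux a (fun y => cW n y b c d) 0 _ fun y => ih y b c d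
    obtain ⟨l1, hl1, h1⟩ := cW_aux b (fun y => cW n a y c d) 1 _ fun y => ih a y c d
    obtain ⟨l2, hl2, h2⟩ := cW_aux c (fun y => cW n a b y d) 2 _ fun y => ih a b y d
    obtain ⟨l3, hl3, h3⟩ := cW_aux d (fun y => cW n a b c y) 3 _ fun y => ih a b c y
    refine ⟨l0 ++ (l1 ++ (l2 ++ l3)), ?_, ?_⟩
    · rw [List.length_append, List.length_append, List.length_append, hl0, hl1, hl2, hl3, cW_succ]
    · rintro u ⟨hu, hct⟩
      cases u with
      | nil => simp at hu
      | cons i v =>
        have hv : v.length = n := by simpa using hu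
        rw [ct_cons] at hct
        have e0 := congrFun hct 0
        have e1 := congrFun hct 1
        have e2 := congrFun hct 2
        have e3 := congrFun hct 3
        simp only [List.mem_append]
        fin_cases i
        · left
          simp at e0 e1 e2 e3
          exact h0 (ct v 0) v e0.symm ⟨hv, by funext j; fin_cases j <;> simp [e1, e2, e3]⟩
        · right; left
          simp at e0 e1 e2 e3
          exact h1 (ct v 1) v e1.symm ⟨hv, by funext j; fin_cases j <;> simp [e0, e2, e3]⟩
        · right; right; left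
          simp at e0 e1 e2 e3
          exact h2 (ct v 2) v e2.symm ⟨hv, by funext j; fin_cases j <;> simp [e0, e1, e3]⟩
        · right; right; right
          simp at e0 e1 e2 e3
          exact h3 (ct v 3) v e3.symm ⟨hv, by funext j; fin_cases j <;> simp [e0, e1, e2]⟩

variable (K : Type u) [Field K]

theorem finrank_As_le {n a b c d : ℕ} (hn : a + b + c + d = n) :
    Module.finrank K (As K ![a, b, c, d]) ≤ cW n a b c d := by
  classical
  obtain ⟨l, hl, h⟩ := cW_spec n a b c d
  have h1 : As K ![a, b, c, d] ≤ Submodule.span K (((l.map (wd K)).toFinset : Finset (A K)) :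
      Set (A K)) := by
    rw [As]
    apply Submodule.span_mono
    rintro _ ⟨u, hu, rfl⟩
    have hu' : ct u = ![a, b, c, d] := hu
    simp only [List.coe_toFinset, Set.mem_ofPred_eq]
    refine List.mem_map_of_mem (h u ⟨?_, hu'⟩)
    rw [length_eq_sum_ct, hu', ← hn]
    simp [Fin.sum_univ_four]
  have h2 := Submodule.finrank_mono h1
  refine h2.trans ((finrank_span_finset_le_card _).trans ?_)
  refine (List.toFinset_card_le _).trans ?_
  rw [List.length_map, hl]

/-! ### the dimension estimates -/

theorem length_cp (bs : List Wd) : ∀ (m m' : Wd) (s : Bool),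
    (cp (m :: m' :: bs) s).length = 2 ^ bs.length := by
  induction bs with
  | nil => intro m m' s; cases s <;> simp [cp]
  | cons x bs ih =>
    intro m m' s
    rw [cp, List.length_append, List.length_map, List.length_map, ih, ih, List.length_cons,
      pow_succ]
    ring

theorem length_cp' {k : ℕ} {bs : List Wd} (h : bs.length = k + 2) (s : Bool) :
    (cp bs s).length = 2 ^ k := by
  match bs, h with
  | m :: m' :: bs, h =>
    rw [length_cp]
    congr 1
    simpa using h

theorem comm_eq_vec (bs : List Wd) : comm K bs = vec K (cp bs true) (cp bs false) := comm_eq K bs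

theorem comm_mem_X {k : ℕ} {α : Fin 4 → ℕ} {bs : List Wd} (h : IsGen k bs)
    (hα : ct bs.flatten = α) : comm K bs ∈ X K k α := Submodule.subset_span ⟨bs, ⟨h, hα⟩, rfl⟩

theorem cmp_sum {k n : ℕ} (hk : k + 2 ≤ n) : ∀ cs ∈ cmp k n, cs.sum = n :=
  fun cs hcs => (cmp_sound k n cs hcs hk).1

theorem length_of_ct {a b c d n : ℕ} (hn : a + b + c + d = n) {u : Wd}
    (hu : ct u = ![a, b, c, d]) : u.length = n := by
  rw [length_eq_sum_ct, hu, ← hn]
  simp [Fin.sum_univ_four]

theorem vanish {tb : ℕ → ℕ} {k n a b c d M : ℕ} (q : ℕ) (hn : a + b + c + d = n) (hM : 2 ^ k ≤ M)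
    (good : ∀ u : Wd, ct u = ![a, b, c, d] → (tb (code u) % q) * M < q)
    (h : allW (chkV tb n (cmp k n)) n 0 a b c d = true) :
    ∀ y ∈ X K (k + 2) ![a, b, c, d], fn K tb q y = 0 := by
  intro y hy
  have h1 : X K (k + 2) ![a, b, c, d] ≤ LinearMap.ker (fn K tb q) := by
    rw [X, Submodule.span_le]
    rintro _ ⟨bs, ⟨hbs, hα⟩, rfl⟩
    rw [SetLike.mem_coe, LinearMap.mem_ker]
    have hlen := length_of_ct hn hα
    have h2 := allW_spec _ n 0 a b c d h bs.flatten hlen hα
    rw [zero_mul, zero_add] at h2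
    rw [← hlen] at h2
    have h3 := chkV_spec h2 (cmp_complete k bs hbs)
    rw [comm_eq_vec, vec, map_sub,
      fn_sum K tb q M _ (fun u hu => good u ((ct_of_mem_cp bs _ u hu).trans hα))
        (by rw [length_cp' hbs.1]; exact hM),
      fn_sum K tb q M _ (fun u hu => good u ((ct_of_mem_cp bs _ u hu).trans hα))
        (by rw [length_cp' hbs.1]; exact hM)]
    change ((S tb bs true / q : ℕ) : K) - ((S tb bs false / q : ℕ) : K) = 0
    rw [h3, sub_self]
  exact h1 hy

theorem good_of {tb : ℕ → ℕ} {n a b c d M : ℕ} {ws : List ℕ} (hn : a + b + c + d = n)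
    (h : allW (fun w => goodC M (tb w) ws 0) n 0 a b c d = true) :
    ∀ u : Wd, ct u = ![a, b, c, d] → ∀ j ≤ ws.length,
      (tb (code u) % 2 ^ eo ws j) * M < 2 ^ eo ws j := by
  intro u hu j hj
  have h1 := allW_spec _ n 0 a b c d h u (length_of_ct hn hu) hu
  rw [zero_mul, zero_add] at h1
  have h2 := goodC_spec M (tb (code u)) ws 0 h1 (by simp [Nat.mod_one]) j hj
  rwa [zero_add] at h2

variable [CharZero K]

/-- upper bound for the dimension of `X_{k+2}(a,b,c,d)` -/
theorem ub {tb : ℕ → ℕ} (k n a b c d M star : ℕ) (els : List (ℕ × ℕ × ℕ))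
    (hn : a + b + c + d = n) (hM : 2 ^ k ≤ M)
    (hgood : allW (fun w => goodC M (tb w) (wid els) 0) n 0 a b c d = true)
    (hvan : allW (chkV tb n (cmp k n)) n 0 a b c d = true)
    (hstar : okc n a b c d star = true)
    (hels : chkU tb n a b c d star els 0 = true) :
    Module.finrank K (X K (k + 2) ![a, b, c, d]) + els.length ≤ cW n a b c d := by
  have := As_finite K ![a, b, c, d]
  have good := good_of hn hgood
  have hwl : (wid els).length = els.length := by rw [wid, List.length_map]
  have hM1 : 1 ≤ M := le_trans Nat.one_le_two_pow hM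
  refine le_trans ?_ (finrank_As_le K hn)
  refine bound K (eo_mono (wid els)) (fun u hu j hj => good u hu j (by rw [hwl]; exact hj))
    (X_le_As K _ _) ?_ ?_
  · intro j hj
    exact vanish K _ hn hM (fun u hu => good u hu j (by rw [hwl]; exact hj.le)) hvan
  · intro j hj
    obtain ⟨P, N, h1, h2, h3, h4, h5, h6⟩ := chkU_spec hstar els 0 hels j hj
    rw [zero_add] at h5 h6
    refine ⟨P, N, h1.trans hM1, h2.trans hM1, h3, h4, ?_, h5, h6⟩
    have hP : ∀ P : List Wd, (∀ u ∈ P, ct u = ![a, b, c, d]) →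
        (P.map (wd K)).sum ∈ As K ![a, b, c, d] := by
      intro P hP
      induction P with
      | nil => simp
      | cons x P ih =>
        rw [List.map_cons, List.sum_cons]
        exact Submodule.add_mem _ (Submodule.subset_span ⟨x, hP x (List.mem_cons_self ..), rfl⟩)
          (ih fun u hu => hP u (List.mem_cons_of_mem _ hu))
    exact Submodule.sub_mem _ (hP P h3) (hP N h4)

/-- lower bound for the dimension of `X_{k+2}(a,b,c,d)` modulo a subspace -/
theorem lb {tb : ℕ → ℕ} (k n a b c d M : ℕ) (els : List (ℕ × ℕ × ℕ))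
    (hn : a + b + c + d = n) (hk : k + 2 ≤ n) (hM : 2 ^ k ≤ M)
    (Y : Submodule K (A K)) (hYX : Y ≤ X K (k + 2) ![a, b, c, d])
    (hgood : allW (fun w => goodC M (tb w) (wid els) 0) n 0 a b c d = true)
    (hY : ∀ q, (∀ u : Wd, ct u = ![a, b, c, d] → (tb (code u) % q) * M < q) →
      ∀ y ∈ Y, fn K tb q y = 0)
    (hels : chkE tb n a b c d (cmp k n) els 0 = true) :
    Module.finrank K Y + els.length ≤ Module.finrank K (X K (k + 2) ![a, b, c, d]) := by
  have := X_finite K (k + 2) ![a, b, c, d]
  have good := good_of hn hgood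
  have hwl : (wid els).length = els.length := by rw [wid, List.length_map]
  refine bound K (eo_mono (wid els)) (fun u hu j hj => good u hu j (by rw [hwl]; exact hj))
    hYX ?_ ?_
  · intro j hj
    exact hY _ (fun u hu => good u hu j (by rw [hwl]; exact hj.le))
  · intro j hj
    obtain ⟨bs, h1, h2, h3, h4⟩ := chkE_spec (cmp_sum hk) els 0 hels j hj
    rw [zero_add] at h3 h4
    have hgen := (cmp_sound k n _ h1 hk).2 bs rfl
    refine ⟨cp bs true, cp bs false, ?_, ?_, ?_, ?_, ?_, h3, h4⟩
    · rw [length_cp' hgen.1]; exact hM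
    · rw [length_cp' hgen.1]; exact hM
    · exact fun u hu => (ct_of_mem_cp bs _ u hu).trans h2
    · exact fun u hu => (ct_of_mem_cp bs _ u hu).trans h2
    · rw [← comm_eq_vec]
      exact comm_mem_X K hgen h2

end Pool.Agent.Lib.MP_eb394a_al
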