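import Pool.Agent.Lib.MP_eb394a_al.Stmt

/-!
# Lower central series quotients of tensor algebras and Schur functors

Definitions used in the statement about `B_k(T(V))`. Everything is over a field `K` and functorial
in the vector space `V`.
-/

set_option autoImplicit false

open scoped TensorProduct DirectSum

namespace Pool.Agent.Lib.MP_eb394a_al

universe u v w

variable (K : Type u) [Field K]

/-! ### The lower central series quotients `B_k(T(V))` -/

/-- The algebra homomorphism `T(f) : T(V) → T(W)` induced by a linear map `f : V → W`. -/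
noncomputable def Tmap {V : Type v} {W : Type w} [AddCommGroup V] [Module K V]
    [AddCommGroup W] [Module K W] (f : V →ₗ[K] W) : TensorAlgebra K V →ₐ[K] TensorAlgebra K W :=
  TensorAlgebra.lift K (TensorAlgebra.ι K ∘ₗ f)

/-- `L_k`, for `k ≥ 1`: the `k`-th term of the lower central series of the tensor algebra,
`L_1 = T(V)` and `L_{k+1} = [T(V), L_k]`, the span of the commutators `a b - b a` with `a ∈ T(V)`
and `b ∈ L_k`. (The value at `k = 0` is irrelevant.) -/
def L (V : Type v) [AddCommGroup V] [Module K V] : ℕ → Submodule K (TensorAlgebra K V)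
  | 0 => ⊤
  | 1 => ⊤
  | k + 2 => Submodule.span K {x | ∃ a : TensorAlgebra K V, ∃ b ∈ L V (k + 1), x = a * b - b * a}

theorem Tmap_mem_L {V : Type v} {W : Type w} [AddCommGroup V] [Module K V]
    [AddCommGroup W] [Module K W] (f : V →ₗ[K] W) (k : ℕ) {x : TensorAlgebra K V}
    (hx : x ∈ L K V k) : Tmap K f x ∈ L K W k := by
  induction k using Nat.twoStepInduction generalizing x with
  | zero => exact Submodule.mem_top
  | one => exact Submodule.mem_top
  | more k _ ih =>
    rw [L] at hx ⊢
    induction hx using Submodule.span_induction with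
    | mem y hy =>
      obtain ⟨a, b, hb, rfl⟩ := hy
      refine Submodule.subset_span ⟨Tmap K f a, Tmap K f b, ih hb, ?_⟩
      rw [map_sub, map_mul, map_mul]
    | zero => rw [map_zero]; exact Submodule.zero_mem _
    | add y z _ _ hy hz => rw [map_add]; exact Submodule.add_mem _ hy hz
    | smul c y _ hy => rw [map_smul]; exact Submodule.smul_mem _ c hy

/-- `B_k(T(V)) = L_k / L_{k+1}`. -/
abbrev B (k : ℕ) (V : Type v) [AddCommGroup V] [Module K V] : Type (max u v) :=
  ↥(L K V k) ⧸ (L K V (k + 1)).submoduleOf (L K V k)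

/-- The linear map `B_k(T(V)) → B_k(T(W))` induced by a linear map `f : V → W`. -/
noncomputable def B.map (k : ℕ) {V : Type v} {W : Type w} [AddCommGroup V] [Module K V]
    [AddCommGroup W] [Module K W] (f : V →ₗ[K] W) : B K k V →ₗ[K] B K k W :=
  Submodule.mapQ _ _
    ((Tmap K f).toLinearMap.restrict (p := L K V k) (q := L K W k) fun _ hx => Tmap_mem_L K f k hx)
    fun _ hx => Tmap_mem_L K f (k + 1) hx

/-! ### Schur functors -/

/-- The tensor power of `V` with one tensor factor for each cell of the Young diagram `μ`. -/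
abbrev TP (μ : YoungDiagram) (V : Type v) [AddCommGroup V] [Module K V] : Type (max u v) :=
  ⨂[K] _ : μ.cells, V

/-- The Young symmetrizer of `μ` acting on the tensor power `TP K μ V`: the product
`(∑ p) ∘ (∑ sign(q) q)` where `p` runs over the permutations of the cells of `μ` which preserve
every row and `q` over those which preserve every column. -/
noncomputable def youngSymmetrizer (μ : YoungDiagram) (V : Type v) [AddCommGroup V] [Module K V] :
    TP K μ V →ₗ[K] TP K μ V :=
  (∑ p ∈ Stmt.rowPerms μ, (PiTensorProduct.reindex K (fun _ => V) p).toLinearMap) ∘ₗ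
  (∑ q ∈ Stmt.colPerms μ, (open scoped Classical in ((Equiv.Perm.sign q : ℤ) : K)) •
    (PiTensorProduct.reindex K (fun _ => V) q).toLinearMap)

open scoped Classical in
theorem youngSymmetrizer_eq (μ : YoungDiagram) (V : Type v) [AddCommGroup V] [Module K V] :
    youngSymmetrizer K μ V =
  (∑ p : {p : Equiv.Perm μ.cells // ∀ c, (p c).1.1 = c.1.1},
    (PiTensorProduct.reindex K (fun _ => V) p.1).toLinearMap) ∘ₗ
  (∑ q : {q : Equiv.Perm μ.cells // ∀ c, (q c).1.2 = c.1.2},
    ((Equiv.Perm.sign q.1 : ℤ) : K) • (PiTensorProduct.reindex K (fun _ => V) q.1).toLinearMap) := by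
  rw [youngSymmetrizer]
  congr 1
  · refine Finset.sum_subtype _ (fun p => ?_) _
    simp [Stmt.rowPerms]
  · refine Finset.sum_subtype _ (fun p => ?_)
      (fun q => ((Equiv.Perm.sign q : ℤ) : K) • (PiTensorProduct.reindex K (fun _ => V) q).toLinearMap)
    simp [Stmt.colPerms]

/-- The Schur functor `𝕊_μ(V)`: the image of the Young symmetrizer on the tensor power. -/
noncomputable def Schur (μ : YoungDiagram) (V : Type v) [AddCommGroup V] [Module K V] :
    Submodule K (TP K μ V) :=
  LinearMap.range (youngSymmetrizer K μ V)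

theorem map_reindex {μ : YoungDiagram} {V : Type v} {W : Type w} [AddCommGroup V] [Module K V]
    [AddCommGroup W] [Module K W] (f : V →ₗ[K] W) (p : Equiv.Perm μ.cells) (x : TP K μ V) :
    PiTensorProduct.map (fun _ => f) (PiTensorProduct.reindex K (fun _ => V) p x) =
      PiTensorProduct.reindex K (fun _ => W) p (PiTensorProduct.map (fun _ => f) x) := by
  induction x using PiTensorProduct.induction_on with
  | smul_tprod r m =>
    simp only [map_smul, PiTensorProduct.reindex_tprod, PiTensorProduct.map_tprod]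
  | add x y hx hy => rw [map_add, map_add, hx, hy, map_add, map_add]

theorem map_mem_Schur {μ : YoungDiagram} {V : Type v} {W : Type w} [AddCommGroup V] [Module K V]
    [AddCommGroup W] [Module K W] (f : V →ₗ[K] W) {x : TP K μ V} (hx : x ∈ Schur K μ V) :
    PiTensorProduct.map (fun _ => f) x ∈ Schur K μ W := by
  obtain ⟨y, rfl⟩ := hx
  refine ⟨PiTensorProduct.map (fun _ => f) y, ?_⟩
  simp only [youngSymmetrizer, LinearMap.comp_apply, LinearMap.sum_apply, LinearMap.smul_apply,
    map_sum, map_smul, LinearEquiv.coe_coe, map_reindex]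

/-- The linear map `𝕊_μ(V) → 𝕊_μ(W)` induced by a linear map `f : V → W`. -/
noncomputable def Schur.map (μ : YoungDiagram) {V : Type v} {W : Type w} [AddCommGroup V]
    [Module K V] [AddCommGroup W] [Module K W] (f : V →ₗ[K] W) : Schur K μ V →ₗ[K] Schur K μ W :=
  (PiTensorProduct.map fun _ => f).restrict fun _ hx => map_mem_Schur K f hx

/-- The Young diagram `(μ, 1^m)`: `m` rows of length `1` are appended below `μ`. -/
def appendOnes (μ : YoungDiagram) (m : ℕ) : YoungDiagram where
  cells := μ.cells ∪ (Finset.range m).image fun i => (μ.colLen 0 + i, 0)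
  isLowerSet := by
    rintro ⟨i, j⟩ ⟨i', j'⟩ ⟨h1, h2⟩ h
    simp only [Finset.coe_union, Set.mem_union, Finset.mem_coe, YoungDiagram.mem_cells,
      Finset.mem_image, Finset.mem_range, Prod.mk.injEq] at h ⊢
    simp only at h1 h2
    rcases h with h | ⟨a, ha, hi, hj⟩
    · exact Or.inl (μ.up_left_mem h1 h2 h)
    · have hj' : j' = 0 := by omega
      subst hj'
      by_cases hc : i' < μ.colLen 0
      · exact Or.inl (YoungDiagram.mem_iff_lt_colLen.mpr hc)
      · exact Or.inr ⟨i' - μ.colLen 0, by omega, by omega, rfl⟩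

/-! ### The functors `𝒢_μ` -/

/-- `𝒢_μ(V) = S(V) ⊗ ⨁_{j ≥ 0} 𝕊_{(μ, 1^{2j})}(V)`. -/
abbrev G (μ : YoungDiagram) (V : Type v) [AddCommGroup V] [Module K V] : Type (max u v) :=
  SymmetricAlgebra K V ⊗[K] (⨁ j : ℕ, Schur K (appendOnes μ (2 * j)) V)

/-- The linear map `𝒢_μ(V) → 𝒢_μ(W)` induced by a linear map `f : V → W`. -/
noncomputable def G.map (μ : YoungDiagram) {V : Type v} {W : Type w} [AddCommGroup V] [Module K V]
    [AddCommGroup W] [Module K W] (f : V →ₗ[K] W) : G K μ V →ₗ[K] G K μ W :=
  TensorProduct.map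
    (SymmetricAlgebra.lift (SymmetricAlgebra.ι K W ∘ₗ f)).toLinearMap
    (DirectSum.lmap fun j => Schur.map K (appendOnes μ (2 * j)) f)

/-- `B_k(T(V)) ≅ ⨁_{i < r} 𝒢_{Λ i}(V)` as abstract Schur functors, i.e. for every `n` the values
on `K^n` are isomorphic as modules over `GL_n(K)`. -/
def Decomposes (k : ℕ) {r : ℕ} (Λ : Fin r → YoungDiagram) : Prop :=
  ∀ n : ℕ, ∃ e : B K k (Fin n → K) ≃ₗ[K] (⨁ i : Fin r, G K (Λ i) (Fin n → K)),
    ∀ (g : (Fin n → K) ≃ₗ[K] (Fin n → K)) (x : B K k (Fin n → K)),
      e (B.map K k g.toLinearMap x) =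
        DirectSum.lmap (fun i : Fin r => G.map K (Λ i) g.toLinearMap) (e x)

end Pool.Agent.Lib.MP_eb394a_al
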