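import Mathlib

/-!
Eigenspaces of an endomorphism which has a basis of eigenvectors.
-/

set_option autoImplicit false

namespace Pool.Agent.Lib.MP_eb394a_al

universe u v w

section eigen

variable {K : Type u} [Field K] {M : Type v} [AddCommGroup M] [Module K M]
  {J : Type w} (b : Module.Basis J K M) (g : M →ₗ[K] M) (m : J → K)
  (hg : ∀ j, g (b j) = m j • b j) (c : K)

include hg

theorem eigenspace_eq_span : Module.End.eigenspace g c =
    Submodule.span K (Set.range fun j : {j // m j = c} => b j) := by
  classical
  apply le_antisymm
  · intro x hx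
    rw [Module.End.mem_eigenspace_iff] at hx
    have h1 : ∀ j, b.repr (g x) j = m j * b.repr x j := by
      intro j
      have : b.repr.toLinearMap ∘ₗ g =
          (Finsupp.mapRange.linearMap LinearMap.id : (J →₀ K) →ₗ[K] (J →₀ K)) ∘ₗ
            (b.repr.toLinearMap ∘ₗ g) := by
        ext; simp
      have key : ∀ y : M, b.repr (g y) j = m j * b.repr y j := by
        intro y
        have hlin : (Finsupp.lapply j ∘ₗ b.repr.toLinearMap ∘ₗ g : M →ₗ[K] K) =
            m j • (Finsupp.lapply j ∘ₗ b.repr.toLinearMap : M →ₗ[K] K) := by
          apply b.ext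
          intro i
          simp only [LinearMap.comp_apply, LinearEquiv.coe_coe, hg i, map_smul,
            Module.Basis.repr_self, LinearMap.smul_apply, Finsupp.lapply_apply,
            smul_eq_mul, Finsupp.single_apply]
          split_ifs with h
          · rw [h]
          · simp
        exact congrArg (fun f => f y) hlin
      exact key x
    rw [hx] at h1
    have h2 : ∀ j, m j ≠ c → b.repr x j = 0 := by
      intro j hj
      have h3 := h1 j
      rw [map_smul, Finsupp.smul_apply, smul_eq_mul] at h3
      have h4 : (m j - c) * b.repr x j = 0 := by rw [sub_mul, ← h3, sub_self]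
      rcases mul_eq_zero.mp h4 with h5 | h5
      · exact absurd (sub_eq_zero.mp h5) hj
      · exact h5
    rw [← b.linearCombination_repr x, Finsupp.linearCombination_apply, Finsupp.sum]
    refine Submodule.sum_mem _ fun j hj => Submodule.smul_mem _ _ ?_
    have hmj : m j = c := by
      by_contra hne
      exact (Finsupp.mem_support_iff.mp hj) (h2 j hne)
    exact Submodule.subset_span ⟨⟨j, hmj⟩, rfl⟩
  · rw [Submodule.span_le]
    rintro _ ⟨⟨j, hj⟩, rfl⟩
    rw [SetLike.mem_coe, Module.End.mem_eigenspace_iff, hg j, hj]

/-- a basis of the eigenspace -/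
theorem exists_basis_eigenspace :
    Nonempty (Module.Basis {j // m j = c} K (Module.End.eigenspace g c)) := by
  have hli : LinearIndependent K (fun j : {j // m j = c} => b j) :=
    b.linearIndependent.comp _ Subtype.val_injective
  exact ⟨(Module.Basis.span hli).map
    (LinearEquiv.ofEq _ _ (eigenspace_eq_span b g m hg c).symm)⟩

theorem finrank_eigenspace :
    Module.finrank K (Module.End.eigenspace g c) = Nat.card {j // m j = c} := by
  obtain ⟨b'⟩ := exists_basis_eigenspace b g m hg c
  exact Module.finrank_eq_nat_card_basis b'

theorem finite_index (hfin : Module.Finite K (Module.End.eigenspace g c)) :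
    Finite {j // m j = c} := by
  obtain ⟨b'⟩ := exists_basis_eigenspace b g m hg c
  exact Module.Finite.finite_basis b'

end eigen

section span

variable {K : Type u} [Field K] {M : Type v} [AddCommGroup M] [Module K M]
  {I : Type w} (x : I → M)

/-- a spanning family contains a basis -/
theorem exists_basis_of_span (hx : Submodule.span K (Set.range x) = ⊤) :
    ∃ (J : Type w) (a : J → I) (b : Module.Basis J K M), ∀ j, b j = x (a j) := by
  obtain ⟨κ, a, ha, hs, hli⟩ := exists_linearIndependent' K x
  refine ⟨κ, a, Module.Basis.mk hli (by rw [hs, hx]), ?_⟩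
  intro j
  rw [Module.Basis.mk_apply]
  rfl

end span

/-- An equivariant isomorphism preserves eigenspaces. -/
theorem eigenspace_equiv {K : Type u} [Field K] {M : Type v} [AddCommGroup M] [Module K M]
    {N : Type w} [AddCommGroup N] [Module K N] (e : M ≃ₗ[K] N) (g : M →ₗ[K] M) (h : N →ₗ[K] N)
    (he : ∀ x, e (g x) = h (e x)) (c : K) :
    Nonempty (Module.End.eigenspace g c ≃ₗ[K] Module.End.eigenspace h c) := by
  have : Submodule.map e.toLinearMap (Module.End.eigenspace g c) = Module.End.eigenspace h c := by
    ext y
    rw [Submodule.mem_map]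
    constructor
    · rintro ⟨x, hx, rfl⟩
      rw [Module.End.mem_eigenspace_iff] at hx ⊢
      change h (e x) = c • e x
      rw [← he, hx, map_smul]
    · intro hy
      refine ⟨e.symm y, ?_, by simp⟩
      rw [Module.End.mem_eigenspace_iff] at hy ⊢
      apply e.injective
      rw [he, map_smul, LinearEquiv.apply_symm_apply, hy]
  exact ⟨(e.submoduleMap _).trans (LinearEquiv.ofEq _ _ this)⟩

end Pool.Agent.Lib.MP_eb394a_al
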