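import Pool.Agent.Lib.MP_eb394a_al.Gside
import Pool.Agent.Lib.MP_eb394a_al.CertA
import Pool.Agent.Lib.MP_eb394a_al.CertB
import Pool.Agent.Lib.MP_eb394a_al.CertC
import Pool.Agent.Lib.MP_eb394a_al.CertD

/-!
`B_4(T(V))` has no decomposition into functors `𝒢_λ`.
-/

set_option autoImplicit false

open scoped TensorProduct DirectSum

namespace Pool.Agent.Lib.MP_eb394a_al

universe u

/-- the counting argument -/
theorem counting {Z : Type} (cz : Z → Fin 4 → ℕ)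
    (hfin : ∀ α, Finite {z // cz z ≤ α})
    (h3211 : Nat.card {z // cz z ≤ ![3, 2, 1, 1]} ≤ 50)
    (h2211 : 42 ≤ Nat.card {z // cz z ≤ ![2, 2, 1, 1]})
    (h3111 : 27 ≤ Nat.card {z // cz z ≤ ![3, 1, 1, 1]})
    (h2111 : Nat.card {z // cz z ≤ ![2, 1, 1, 1]} ≤ 20)
    (h3200 : 3 ≤ Nat.card {z // cz z ≤ ![3, 2, 0, 0]})
    (h2200 : Nat.card {z // cz z ≤ ![2, 2, 0, 0]} ≤ 1)
    (h3100 : Nat.card {z // cz z ≤ ![3, 1, 0, 0]} ≤ 1)
    (hstep : (∃ z, cz z = ![3, 2, 0, 0]) → ∃ z, cz z = ![3, 2, 1, 1]) : False := by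
  classical
  let D : (Fin 4 → ℕ) → Set Z := fun α => {z | cz z ≤ α}
  have hF : ∀ α, (D α).Finite := fun α => by
    have : Finite ↥(D α) := hfin α
    exact Set.toFinite _
  have hc : ∀ α, Nat.card {z // cz z ≤ α} = (D α).ncard := fun α => Nat.card_coe_set_eq (D α)
  rw [hc] at h3211 h2211 h3111 h2111 h3200 h2200 h3100
  have hle : ∀ (v w : Fin 4 → ℕ), v ≤ w ↔ v 0 ≤ w 0 ∧ v 1 ≤ w 1 ∧ v 2 ≤ w 2 ∧ v 3 ≤ w 3 := by
    intro v w
    rw [Pi.le_def]
    constructor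
    · intro h; exact ⟨h 0, h 1, h 2, h 3⟩
    · rintro ⟨h0, h1, h2, h3⟩ i
      fin_cases i
      · exact h0
      · exact h1
      · exact h2
      · exact h3
  have hmem : ∀ (z : Z) (a b c d : ℕ), z ∈ D ![a, b, c, d] ↔
      cz z 0 ≤ a ∧ cz z 1 ≤ b ∧ cz z 2 ≤ c ∧ cz z 3 ≤ d := by
    intro z a b c d
    change cz z ≤ ![a, b, c, d] ↔ _
    rw [hle]
    simp
  have heq : ∀ (z : Z) (a b c d : ℕ), cz z = ![a, b, c, d] ↔
      cz z 0 = a ∧ cz z 1 = b ∧ cz z 2 = c ∧ cz z 3 = d := by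
    intro z a b c d
    constructor
    · intro h; rw [h]; simp
    · rintro ⟨h0, h1, h2, h3⟩
      funext i
      fin_cases i
      · exact h0
      · exact h1
      · exact h2
      · exact h3
  -- an element of weight (3,2,0,0)
  have h1 : ∃ z, cz z = ![3, 2, 0, 0] := by
    by_contra hcon
    push Not at hcon
    have hsub : D ![3, 2, 0, 0] ⊆ D ![2, 2, 0, 0] ∪ D ![3, 1, 0, 0] := by
      intro z hz
      rw [Set.mem_union, hmem, hmem]
      rw [hmem] at hz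
      have h2 := hcon z
      rw [Ne, heq] at h2
      omega
    have h3 := Set.ncard_le_ncard hsub ((hF _).union (hF _))
    have h4 := Set.ncard_union_le (D ![2, 2, 0, 0]) (D ![3, 1, 0, 0])
    omega
  obtain ⟨z1, hz1⟩ := h1
  obtain ⟨z2, hz2⟩ := hstep ⟨z1, hz1⟩
  rw [heq] at hz1 hz2
  have hsub : insert z1 (insert z2 (D ![2, 2, 1, 1] ∪ D ![3, 1, 1, 1])) ⊆ D ![3, 2, 1, 1] := by
    intro z hz
    rw [hmem]
    rcases Set.mem_insert_iff.mp hz with rfl | hz
    · omega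
    rcases Set.mem_insert_iff.mp hz with rfl | hz
    · omega
    rw [Set.mem_union, hmem, hmem] at hz
    omega
  have hinter : D ![2, 2, 1, 1] ∩ D ![3, 1, 1, 1] ⊆ D ![2, 1, 1, 1] := by
    intro z hz
    rw [Set.mem_inter_iff, hmem, hmem] at hz
    rw [hmem]
    omega
  have hz2' : z2 ∉ D ![2, 2, 1, 1] ∪ D ![3, 1, 1, 1] := by
    intro hz
    rw [Set.mem_union, hmem, hmem] at hz
    omega
  have hz1' : z1 ∉ insert z2 (D ![2, 2, 1, 1] ∪ D ![3, 1, 1, 1]) := by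
    intro hz
    rcases Set.mem_insert_iff.mp hz with rfl | hz
    · omega
    rw [Set.mem_union, hmem, hmem] at hz
    omega
  have hU := (hF ![2, 2, 1, 1]).union (hF ![3, 1, 1, 1])
  have h5 := Set.ncard_le_ncard hsub (hF _)
  rw [Set.ncard_insert_of_notMem hz1' (hU.insert _), Set.ncard_insert_of_notMem hz2' hU] at h5
  have h6 := Set.ncard_union_add_ncard_inter (D ![2, 2, 1, 1]) (D ![3, 1, 1, 1]) (hF _) (hF _)
  have h7 := Set.ncard_le_ncard hinter (hF _)
  omega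

theorem not_decomposes (K : Type u) [Field K] [CharZero K] {r : ℕ} (Λ : Fin r → YoungDiagram) :
    ¬ Decomposes K 4 Λ := by
  intro h
  obtain ⟨Z, cz, hfin, hN, hstep⟩ := exists_weights K Λ h
  have hb := fun α => finrank_eig K α
  simp only [hN] at hb
  refine counting cz (fun α => hfin α (eig_finite K α)) ?_ ?_ ?_ ?_ ?_ ?_ ?_ hstep
  · have h1 := hb ![3, 2, 1, 1]
    have h2 := UB3211 K
    have h3 := RB3211 K
    omega
  · have h1 := hb ![2, 2, 1, 1]
    have h2 := LB2211 K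
    omega
  · have h1 := hb ![3, 1, 1, 1]
    have h2 := LB3111 K
    omega
  · have h1 := hb ![2, 1, 1, 1]
    have h2 := UB2111 K
    have h3 := RB2111 K
    omega
  · have h1 := hb ![3, 2, 0, 0]
    have h2 := LB3200 K
    omega
  · have h1 := hb ![2, 2, 0, 0]
    have h2 := UB2200 K
    omega
  · have h1 := hb ![3, 1, 0, 0]
    have h2 := UB3100 K
    omega

end Pool.Agent.Lib.MP_eb394a_al
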