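import Pool.Agent.Lib.MP_eb394a_al.Young

/-!
Dimensions of the eigenspaces of `g0` on a finite direct sum of the functors `𝒢_μ`.
-/

set_option autoImplicit false

open scoped TensorProduct DirectSum

namespace Pool.Agent.Lib.MP_eb394a_al

universe u

variable (K : Type u) [Field K]

theorem dbasis_apply {ι : Type} [DecidableEq ι] {M : ι → Type u} [∀ i, AddCommMonoid (M i)]
    [∀ i, Module K (M i)] {η : ι → Type} (b : ∀ i, Module.Basis (η i) K (M i)) (i : ι) (x : η i) :
    (DFinsupp.basis b : Module.Basis (Σ i, η i) K (⨁ i, M i)) ⟨i, x⟩ =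
      DirectSum.lof K ι M i (b i x) := by
  classical
  apply (DFinsupp.basis b).repr.injective
  rw [Module.Basis.repr_self]
  ext ⟨j, y⟩
  change _ = (b j).repr ((DFinsupp.single i (b i x) : Π₀ i, M i) j) y
  by_cases h : i = j
  · subst h
    rw [DFinsupp.single_eq_same, Module.Basis.repr_self]
    simp only [Finsupp.single_apply]
    by_cases h' : x = y
    · subst h'; simp
    · rw [if_neg h', if_neg]
      intro h''
      exact h' (by simpa using h'')
  · rw [DFinsupp.single_eq_of_ne (Ne.symm h), map_zero, Finsupp.zero_apply, Finsupp.single_apply,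
      if_neg]
    intro h''
    exact h (by simpa using congrArg Sigma.fst h'')

theorem lmap_eigen {ι : Type} [DecidableEq ι] {M : ι → Type u} [∀ i, AddCommMonoid (M i)]
    [∀ i, Module K (M i)] {η : ι → Type} (b : ∀ i, Module.Basis (η i) K (M i))
    (f : ∀ i, M i →ₗ[K] M i) (w : ∀ i, η i → K) (hw : ∀ i x, f i (b i x) = w i x • b i x)
    (y : Σ i, η i) :
    DirectSum.lmap f ((DFinsupp.basis b : Module.Basis (Σ i, η i) K (⨁ i, M i)) y) =
      w y.1 y.2 • (DFinsupp.basis b : Module.Basis (Σ i, η i) K (⨁ i, M i)) y := by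
  obtain ⟨i, x⟩ := y
  rw [dbasis_apply, DirectSum.lmap_lof, hw, map_smul]

theorem total_eigen {X : Type u} [AddCommGroup X] [Module K X] (gX : X →ₗ[K] X) {r : ℕ}
    {M : Fin r → Type u} [∀ i, AddCommGroup (M i)] [∀ i, Module K (M i)] {η : Fin r → Type}
    (b : ∀ i, Module.Basis (η i) K (M i)) (f : ∀ i, M i →ₗ[K] M i) (w : ∀ i, η i → K)
    (hw : ∀ i x, f i (b i x) = w i x • b i x) (e : X ≃ₗ[K] ⨁ i, M i)
    (he : ∀ x, e (gX x) = DirectSum.lmap f (e x)) (c : K) :
    (Module.Finite K (Module.End.eigenspace gX c) →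
      Finite {y : Σ i, η i // w y.1 y.2 = c}) ∧
    Module.finrank K (Module.End.eigenspace gX c) =
      Nat.card {y : Σ i, η i // w y.1 y.2 = c} := by
  obtain ⟨e1⟩ := eigenspace_equiv e gX (DirectSum.lmap f) he c
  have h1 := lmap_eigen K b f w hw
  constructor
  · intro hfin
    have hfin' : Module.Finite K (Module.End.eigenspace (DirectSum.lmap f) c) :=
      Module.Finite.equiv e1
    exact finite_index _ _ _ h1 c hfin'
  · rw [LinearEquiv.finrank_eq e1, finrank_eigenspace _ _ _ h1 c]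

variable [CharZero K]

theorem weight_equiv {r : ℕ} {J : Fin r → ℕ → Type} (cz : (Σ i : Fin r, Σ j, J i j) → Fin 4 → ℕ)
    (α : Fin 4 → ℕ) :
    Nonempty ({y : Σ i : Fin r, (Fin 4 →₀ ℕ) × (Σ j, J i j) //
      chi K (y.2.1 + cz ⟨y.1, y.2.2⟩) = chi K α} ≃ {z // cz z ≤ α}) := by
  refine ⟨{
    toFun := fun y => ⟨⟨y.1.1, y.1.2.2⟩, ?_⟩
    invFun := fun z => ⟨⟨z.1.1, Finsupp.equivFunOnFinite.symm (α - cz z.1), z.1.2⟩, ?_⟩
    left_inv := ?_
    right_inv := ?_ }⟩
  · exact le_of_le_of_eq (fun i => Nat.le_add_left _ _) (chi_inj K y.2)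
  · congr 1
    funext i
    have h1 := z.2 i
    simp only [Pi.add_apply, Finsupp.equivFunOnFinite_symm_apply_apply, Pi.sub_apply]
    exact Nat.sub_add_cancel h1
  · rintro ⟨⟨i, m, x⟩, hy⟩
    have h1 := chi_inj K hy
    apply Subtype.ext
    simp only [Sigma.mk.injEq, heq_eq_eq, Prod.mk.injEq, and_true, true_and]
    ext j
    simp only [Finsupp.equivFunOnFinite_symm_apply_apply, Pi.sub_apply]
    rw [← h1]
    simp only [Pi.add_apply]
    omega
  · rintro ⟨⟨i, x⟩, hz⟩
    rfl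

theorem step_weight {μ : YoungDiagram} {J : ℕ → Type}
    (a : ∀ j, J j → ((appendOnes μ (2 * j)).cells → Fin 4))
    (b : ∀ j, Module.Basis (J j) K (Schur K (appendOnes μ (2 * j)) (Fin 4 → K)))
    (hb : ∀ j x, b j x = vT K _ (a j x)) {j : ℕ} {x : J j}
    (h1 : cont (a j x) = ![3, 2, 0, 0]) : ∃ x : J 1, cont (a 1 x) = ![3, 2, 1, 1] := by
  have h2 : youngSymmetrizer K _ _ (eT K _ (a j x)) ≠ 0 := by
    intro h0
    have h3 := (b j).ne_zero x
    rw [hb j x] at h3
    apply h3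
    apply Subtype.ext
    exact h0
  obtain ⟨T', hT', hc'⟩ := young_step K μ j (a j x) h2 h1
  have h4 : ∀ x, Schur.map K (appendOnes μ (2 * 1)) (g0 K).toLinearMap (b 1 x) =
      chi K (cont (a 1 x)) • b 1 x := by
    intro x
    rw [hb, map_vT]
  have h5 := eigenspace_eq_span (M := Schur K (appendOnes μ (2 * 1)) (Fin 4 → K)) (b 1)
    (Schur.map K (appendOnes μ (2 * 1)) (g0 K).toLinearMap) (fun x => chi K (cont (a 1 x))) h4
    (chi K ![3, 2, 1, 1])
  have h6 : vT K _ T' ∈ Module.End.eigenspace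
      (Schur.map K (appendOnes μ (2 * 1)) (g0 K).toLinearMap) (chi K ![3, 2, 1, 1]) := by
    rw [Module.End.mem_eigenspace_iff, map_vT, hc']
  have h7 : vT K _ T' ≠ 0 := by
    intro h8
    exact hT' (congrArg Subtype.val h8)
  by_contra hcon
  push Not at hcon
  have h8 : IsEmpty {x // chi K (cont (a 1 x)) = chi K ![3, 2, 1, 1]} :=
    ⟨fun x => hcon x.1 (chi_inj K x.2)⟩
  rw [h5, Set.range_eq_empty, Submodule.span_empty, Submodule.mem_bot] at h6
  exact h7 h6

set_option maxHeartbeats 1000000 in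
theorem exists_weights {r : ℕ} (Λ : Fin r → YoungDiagram) (h : Decomposes K 4 Λ) :
    ∃ (Z : Type) (cz : Z → Fin 4 → ℕ),
      (∀ α, Module.Finite K
        (Module.End.eigenspace (B.map K 4 (g0 K).toLinearMap) (chi K α)) →
        Finite {z // cz z ≤ α}) ∧
      (∀ α, Module.finrank K
        (Module.End.eigenspace (B.map K 4 (g0 K).toLinearMap) (chi K α)) =
        Nat.card {z // cz z ≤ α}) ∧
      ((∃ z, cz z = ![3, 2, 0, 0]) → ∃ z, cz z = ![3, 2, 1, 1]) := by
  choose J a b hb using fun (i : Fin r) (j : ℕ) => exists_basis_Schur K (appendOnes (Λ i) (2 * j))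
  obtain ⟨e, he⟩ := h 4
  have htot := total_eigen K (B.map K 4 (g0 K).toLinearMap)
    (M := fun i => G K (Λ i) (Fin 4 → K)) (fun i => basG K (Λ i) (b i))
    (fun i : Fin r => G.map K (Λ i) (g0 K).toLinearMap)
    (fun i z => chi K (z.1 + cont (a i z.2.1 z.2.2)))
    (fun i z => map_basG K (Λ i) (a i) (b i) (hb i) z.1 z.2) e (fun x => he (g0 K) x)
  refine ⟨Σ i : Fin r, Σ j, J i j, fun z => cont (a z.1 z.2.1 z.2.2), ?_, ?_, ?_⟩
  · intro α hfin
    have h1 := (htot (chi K α)).1 hfin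
    obtain ⟨e2⟩ := weight_equiv K (fun z => cont (a z.1 z.2.1 z.2.2)) α
    exact Finite.of_equiv _ e2
  · intro α
    obtain ⟨e2⟩ := weight_equiv K (fun z => cont (a z.1 z.2.1 z.2.2)) α
    rw [(htot (chi K α)).2]
    exact Nat.card_congr e2
  · rintro ⟨⟨i, j, x⟩, hz⟩
    obtain ⟨x', hx'⟩ := step_weight K (a i) (b i) (hb i) (j := j) (x := x) hz
    exact ⟨⟨i, 1, x'⟩, hx'⟩

end Pool.Agent.Lib.MP_eb394a_al
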