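import Pool.Agent.Lib.MP_eb394a_al.Bside

/-!
Certificates for dimensions of the spaces `X K k α`: functionals are packed into natural numbers.
-/

set_option autoImplicit false

open scoped TensorProduct DirectSum

namespace Pool.Agent.Lib.MP_eb394a_al

universe u

/-! ### codes of words -/

/-- the code of a word in base 4 -/
def code : Wd → ℕ
  | [] => 0
  | i :: u => i.val * 4 ^ u.length + code u

theorem code_append (u v : Wd) : code (u ++ v) = code u * 4 ^ v.length + code v := by
  induction u with
  | nil => simp [code]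
  | cons i u ih =>
    simp only [List.cons_append, code, List.length_append, ih, pow_add]
    ring

theorem code_lt (u : Wd) : code u < 4 ^ u.length := by
  induction u with
  | nil => simp [code]
  | cons i u ih =>
    simp only [code, List.length_cons, pow_succ]
    have h := i.isLt
    have h2 : i.val * 4 ^ u.length ≤ 3 * 4 ^ u.length := Nat.mul_le_mul_right _ (by omega)
    omega

theorem length_of_mem_cp {bs : List Wd} {s : Bool} {u : Wd} (hu : u ∈ cp bs s) :
    u.length = bs.flatten.length := by
  rw [length_eq_sum_ct, length_eq_sum_ct, ct_of_mem_cp bs s u hu]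

/-! ### kernel friendly functions -/

/-- evaluate the argument first -/
def force {α : Type} (x : ℕ) (f : ℕ → α) : α := Nat.casesOn x (f 0) (fun n => f (Nat.succ n))

theorem force_eq {α : Type} (x : ℕ) (f : ℕ → α) : force x f = f x := by cases x <;> rfl

/-- sum of the values of `tb` over the words with sign `s` of an iterated commutator -/
noncomputable def ev (tb : ℕ → ℕ) (bs : List (ℕ × ℕ)) : Bool → ℕ → ℕ → ℕ → ℕ :=
  List.rec (motive := fun _ => Bool → ℕ → ℕ → ℕ → ℕ) (fun _ _ _ _ => 0)
    (fun b bs ih s L A C =>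
      List.rec (motive := fun _ => ℕ) (Bool.rec 0 (tb (Nat.add (Nat.mul b.2 A) C)) s)
        (fun _ _ _ => Nat.add
          (ih s (Nat.sub L b.1) A
            (Nat.add C (Nat.mul (Nat.mul b.2 (Nat.pow 4 (Nat.sub L b.1))) A)))
          (ih (!s) (Nat.sub L b.1) (Nat.mul A (Nat.pow 4 b.1)) (Nat.add C (Nat.mul b.2 A)))) bs) bs

theorem ev_single (tb : ℕ → ℕ) (b : ℕ × ℕ) (s : Bool) (L A C : ℕ) :
    ev tb [b] s L A C = if s then tb (b.2 * A + C) else 0 := by cases s <;> rfl

theorem ev_cons (tb : ℕ → ℕ) (b b' : ℕ × ℕ) (bs : List (ℕ × ℕ)) (s : Bool) (L A C : ℕ) :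
    ev tb (b :: b' :: bs) s L A C =
      ev tb (b' :: bs) s (L - b.1) A (C + b.2 * 4 ^ (L - b.1) * A) +
      ev tb (b' :: bs) (!s) (L - b.1) (A * 4 ^ b.1) (C + b.2 * A) := rfl

theorem ev_eq (tb : ℕ → ℕ) (bs : List Wd) : ∀ (s : Bool) (A C : ℕ),
    ev tb (bs.map fun m => (m.length, code m)) s bs.flatten.length A C =
      ((cp bs s).map fun u => tb (code u * A + C)).sum := by
  induction bs with
  | nil => intro s A C; rfl
  | cons m bs ih =>
    intro s A C
    cases bs with
    | nil => cases s <;> simp [ev_single, cp]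
    | cons m' bs =>
      have hL : (m :: m' :: bs).flatten.length - m.length = (m' :: bs).flatten.length := by
        rw [List.flatten_cons, List.length_append]; omega
      have h1 := ih s A (C + code m * 4 ^ (m' :: bs).flatten.length * A)
      have h2 := ih (!s) (A * 4 ^ m.length) (C + code m * A)
      rw [List.map_cons] at h1 h2
      rw [List.map_cons, List.map_cons, ev_cons, hL]
      dsimp only
      rw [h1, h2, cp, List.map_append, List.sum_append, List.map_map, List.map_map]
      congr 1
      · congr 1
        apply List.map_congr_left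
        intro u hu
        rw [Function.comp_apply, code_append, length_of_mem_cp hu]
        congr 1
        ring
      · congr 1
        apply List.map_congr_left
        intro u hu
        rw [Function.comp_apply, code_append]
        congr 1
        ring

/-- lengths and codes of the blocks of a word -/
noncomputable def blk (cs : List ℕ) : ℕ → ℕ → List (ℕ × ℕ) :=
  List.rec (motive := fun _ => ℕ → ℕ → List (ℕ × ℕ)) (fun _ _ => [])
    (fun a _ ih L c => (a, Nat.div c (Nat.pow 4 (Nat.sub L a))) ::
      ih (Nat.sub L a) (Nat.mod c (Nat.pow 4 (Nat.sub L a)))) cs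

theorem blk_cons (a : ℕ) (cs : List ℕ) (L c : ℕ) :
    blk (a :: cs) L c = (a, c / 4 ^ (L - a)) :: blk cs (L - a) (c % 4 ^ (L - a)) := rfl

theorem blk_eq (bs : List Wd) : blk (bs.map List.length) bs.flatten.length (code bs.flatten) =
    bs.map fun m => (m.length, code m) := by
  induction bs with
  | nil => rfl
  | cons m bs ih =>
    have hL : (m :: bs).flatten.length - m.length = bs.flatten.length := by
      rw [List.flatten_cons, List.length_append]; omega
    have hlt := code_lt bs.flatten
    have h1 : code (m :: bs).flatten / 4 ^ bs.flatten.length = code m := by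
      rw [List.flatten_cons, code_append, mul_comm, Nat.mul_add_div (by positivity),
        Nat.div_eq_of_lt hlt, add_zero]
    have h2 : code (m :: bs).flatten % 4 ^ bs.flatten.length = code bs.flatten := by
      rw [List.flatten_cons, code_append, mul_comm, Nat.mul_add_mod, Nat.mod_eq_of_lt hlt]
    rw [List.map_cons, blk_cons, hL, h1, h2, ih, List.map_cons]

/-- check `p` on all codes of words with prescribed content -/
noncomputable def allW (p : ℕ → Bool) (n : ℕ) : ℕ → ℕ → ℕ → ℕ → ℕ → Bool :=
  Nat.rec (motive := fun _ => ℕ → ℕ → ℕ → ℕ → ℕ → Bool) (fun acc _ _ _ _ => p acc)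
    (fun _ ih acc a b c d =>
      and (Nat.rec true (fun a' _ => ih (Nat.mul 4 acc) a' b c d) a)
      (and (Nat.rec true (fun b' _ => ih (Nat.add (Nat.mul 4 acc) 1) a b' c d) b)
      (and (Nat.rec true (fun c' _ => ih (Nat.add (Nat.mul 4 acc) 2) a b c' d) c)
      (Nat.rec true (fun d' _ => ih (Nat.add (Nat.mul 4 acc) 3) a b c d') d)))) n

theorem allW_succ (p : ℕ → Bool) (n acc a b c d : ℕ) (h : allW p (n + 1) acc a b c d = true) :
    (∀ a', a = a' + 1 → allW p n (4 * acc) a' b c d = true) ∧
    (∀ b', b = b' + 1 → allW p n (4 * acc + 1) a b' c d = true) ∧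
    (∀ c', c = c' + 1 → allW p n (4 * acc + 2) a b c' d = true) ∧
    (∀ d', d = d' + 1 → allW p n (4 * acc + 3) a b c d' = true) := by
  have h' : and (Nat.rec (motive := fun _ => Bool) true (fun a' _ => allW p n (4 * acc) a' b c d) a)
      (and (Nat.rec (motive := fun _ => Bool) true
        (fun b' _ => allW p n (4 * acc + 1) a b' c d) b)
      (and (Nat.rec (motive := fun _ => Bool) true
        (fun c' _ => allW p n (4 * acc + 2) a b c' d) c)
      (Nat.rec (motive := fun _ => Bool) true
        (fun d' _ => allW p n (4 * acc + 3) a b c d') d))) = true := h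
  simp only [Bool.and_eq_true] at h'
  obtain ⟨h1, h2, h3, h4⟩ := h'
  refine ⟨?_, ?_, ?_, ?_⟩
  · rintro a' rfl; exact h1
  · rintro b' rfl; exact h2
  · rintro c' rfl; exact h3
  · rintro d' rfl; exact h4

theorem ct_cons (i : Fin 4) (u : Wd) : ct (i :: u) = ct u + Pi.single i 1 := by
  funext j
  rw [ct, List.count_cons, Pi.add_apply, Pi.single_apply, ct]
  congr 1
  by_cases h : i = j
  · subst h; simp
  · rw [if_neg (by simpa using h), if_neg (Ne.symm h)]

theorem allW_spec (p : ℕ → Bool) (n : ℕ) : ∀ (acc a b c d : ℕ), allW p n acc a b c d = true →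
    ∀ u : Wd, u.length = n → ct u = ![a, b, c, d] → p (acc * 4 ^ n + code u) = true := by
  induction n with
  | zero =>
    intro acc a b c d h u hu _
    have : u = [] := List.eq_nil_of_length_eq_zero hu
    subst this
    have h' : p acc = true := h
    simpa [code] using h'
  | succ n ih =>
    intro acc a b c d h u hu hct
    obtain ⟨h1, h2, h3, h4⟩ := allW_succ p n acc a b c d h
    cases u with
    | nil => simp at hu
    | cons i v =>
      have hv : v.length = n := by simpa using hu
      rw [ct_cons] at hct
      have e0 := congrFun hct 0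
      have e1 := congrFun hct 1
      have e2 := congrFun hct 2
      have e3 := congrFun hct 3
      fin_cases i
      · simp at e0 e1 e2 e3
        have h5 := ih (4 * acc) (ct v 0) b c d (h1 _ e0.symm) v hv
          (by funext j; fin_cases j <;> simp [e1, e2, e3])
        rw [← h5]; congr 1; simp only [code, hv, pow_succ, Fin.val_zero, Fin.val_one, Fin.val_two, Fin.mk_zero, Fin.mk_one]; ring
      · simp at e0 e1 e2 e3
        have h5 := ih (4 * acc + 1) a (ct v 1) c d (h2 _ e1.symm) v hv
          (by funext j; fin_cases j <;> simp [e0, e2, e3])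
        rw [← h5]; congr 1; simp only [code, hv, pow_succ, Fin.val_zero, Fin.val_one, Fin.val_two, Fin.mk_zero, Fin.mk_one]; ring
      · simp at e0 e1 e2 e3
        have h5 := ih (4 * acc + 2) a b (ct v 2) d (h3 _ e2.symm) v hv
          (by funext j; fin_cases j <;> simp [e0, e1, e3])
        rw [← h5]; congr 1; simp only [code, hv, pow_succ, Fin.val_zero, Fin.val_one, Fin.val_two, Fin.mk_zero, Fin.mk_one]; ring
      · simp at e0 e1 e2 e3
        have h5 := ih (4 * acc + 3) a b c (ct v 3) (h4 _ e3.symm) v hv
          (by funext j; fin_cases j <;> simp [e0, e1, e2])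
        rw [← h5]; congr 1; simp only [code, hv, pow_succ, Fin.val_zero, Fin.val_one, Fin.val_two, Fin.mk_zero, Fin.mk_one]; ring

/-- decode a word -/
def dec : ℕ → ℕ → Wd
  | 0, _ => []
  | n + 1, w => ⟨w / 4 ^ n % 4, Nat.mod_lt _ (by norm_num)⟩ :: dec n w

theorem length_dec (n w : ℕ) : (dec n w).length = n := by
  induction n with
  | zero => rfl
  | succ n ih => rw [dec, List.length_cons, ih]

theorem code_dec (n w : ℕ) : code (dec n w) = w % 4 ^ n := by
  induction n with
  | zero => simp [dec, code, Nat.mod_one]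
  | succ n ih =>
    rw [dec, code, length_dec, ih, Nat.mod_pow_succ]
    simp only
    ring

/-- number of digits `i` of a code -/
noncomputable def cnt (n w i : ℕ) : ℕ :=
  Nat.rec (motive := fun _ => ℕ) 0 (fun m ih =>
    Nat.add ih (Bool.rec 0 1 (Nat.beq (Nat.mod (Nat.div w (Nat.pow 4 m)) 4) i))) n

theorem cnt_succ (n w i : ℕ) : cnt (n + 1) w i = cnt n w i +
    (Bool.rec 0 1 (Nat.beq (w / 4 ^ n % 4) i) : ℕ) := rfl

theorem count_dec (n w : ℕ) (i : Fin 4) : (dec n w).count i = cnt n w i.val := by
  induction n with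
  | zero => rfl
  | succ n ih =>
    rw [dec, List.count_cons, ih, cnt_succ]
    congr 1
    by_cases h : w / 4 ^ n % 4 = i.val
    · have h1 : (Nat.beq (w / 4 ^ n % 4) i.val) = true := by rw [h]; simp
      rw [h1]
      simp only [beq_iff_eq, Fin.ext_iff]
      rw [if_pos h]
    · have h1 : (Nat.beq (w / 4 ^ n % 4) i.val) = false := by
        rw [Bool.eq_false_iff]
        intro h2
        exact h (Nat.eq_of_beq_eq_true h2)
      rw [h1]
      simp only [beq_iff_eq, Fin.ext_iff]
      rw [if_neg h]

/-- the code `w` is the code of a word with the given content -/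
noncomputable def okc (n a b c d w : ℕ) : Bool :=
  and (Nat.ble (Nat.succ w) (Nat.pow 4 n)) (and (Nat.beq (cnt n w 0) a)
    (and (Nat.beq (cnt n w 1) b) (and (Nat.beq (cnt n w 2) c) (Nat.beq (cnt n w 3) d))))

theorem okc_spec {n a b c d w : ℕ} (h : okc n a b c d w = true) :
    ∃ u : Wd, u.length = n ∧ ct u = ![a, b, c, d] ∧ code u = w := by
  rw [okc] at h
  simp only [Bool.and_eq_true] at h
  obtain ⟨h0, h1, h2, h3, h4⟩ := h
  refine ⟨dec n w, length_dec n w, ?_, ?_⟩
  · have g1 := Nat.eq_of_beq_eq_true h1
    have g2 := Nat.eq_of_beq_eq_true h2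
    have g3 := Nat.eq_of_beq_eq_true h3
    have g4 := Nat.eq_of_beq_eq_true h4
    funext i
    simp only [ct, count_dec]
    fin_cases i
    · exact g1
    · exact g2
    · exact g3
    · exact g4
  · rw [code_dec]
    apply Nat.mod_eq_of_lt
    exact Nat.le_of_ble_eq_true h0

/-! ### compositions -/

/-- the compositions of `L` into `k + 2` parts with last but one part `1` -/
def cmp : ℕ → ℕ → List (List ℕ)
  | 0, L => [[1, L - 1]]
  | k + 1, L => (List.range (L - (k + 2))).flatMap fun a => (cmp k (L - (a + 1))).map ((a + 1) :: ·)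

theorem length_ge_of_ne_nil (bs : List Wd) (h : ∀ m ∈ bs, m ≠ []) :
    bs.length ≤ bs.flatten.length := by
  induction bs with
  | nil => simp
  | cons m bs ih =>
    rw [List.flatten_cons, List.length_append, List.length_cons]
    have h1 := ih fun m' hm' => h m' (List.mem_cons_of_mem _ hm')
    have h2 : 0 < m.length := List.length_pos_of_ne_nil (h m (List.mem_cons_self ..))
    omega

theorem IsGen.tail {k : ℕ} {m : Wd} {bs : List Wd} (h : IsGen (k + 3) (m :: bs)) :
    m ≠ [] ∧ IsGen (k + 2) bs := by
  obtain ⟨hlen, hne, bs', i, m', hbs⟩ := h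
  refine ⟨hne m (List.mem_cons_self ..), ?_, fun m' hm' => hne m' (List.mem_cons_of_mem _ hm'), ?_⟩
  · simpa using hlen
  · cases bs' with
    | nil =>
      exfalso
      rw [hbs] at hlen
      simp at hlen
    | cons x bs' =>
      rw [List.cons_append, List.cons.injEq] at hbs
      exact ⟨bs', i, m', hbs.2⟩

theorem cmp_complete (k : ℕ) : ∀ (bs : List Wd), IsGen (k + 2) bs →
    bs.map List.length ∈ cmp k bs.flatten.length := by
  induction k with
  | zero =>
    rintro bs ⟨hlen, hne, bs', i, m, rfl⟩
    have : bs' = [] := by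
      apply List.eq_nil_of_length_eq_zero
      simpa using hlen
    subst this
    simp [cmp]
  | succ k ih =>
    intro bs h
    cases bs with
    | nil => exact absurd h.1 (by simp)
    | cons m bs =>
      obtain ⟨hm, hbs⟩ := h.tail
      have h1 := ih bs hbs
      have h2 := length_ge_of_ne_nil bs hbs.2.1
      have h3 : 0 < m.length := List.length_pos_of_ne_nil hm
      rw [hbs.1] at h2
      rw [cmp, List.mem_flatMap]
      refine ⟨m.length - 1, ?_, ?_⟩
      · rw [List.mem_range, List.flatten_cons, List.length_append]; omega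
      · rw [List.mem_map]
        refine ⟨bs.map List.length, ?_, ?_⟩
        · have : (m :: bs).flatten.length - (m.length - 1 + 1) = bs.flatten.length := by
            rw [List.flatten_cons, List.length_append]; omega
          rw [this]; exact h1
        · rw [List.map_cons]
          congr 1
          omega

theorem cmp_sound (k : ℕ) : ∀ (L : ℕ) (cs : List ℕ), cs ∈ cmp k L → k + 2 ≤ L →
    cs.sum = L ∧ ∀ bs : List Wd, bs.map List.length = cs → IsGen (k + 2) bs := by
  induction k with
  | zero =>
    intro L cs hcs hL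
    rw [cmp, List.mem_singleton] at hcs
    subst hcs
    refine ⟨by simp; omega, ?_⟩
    intro bs hbs
    have hlen : bs.length = 2 := by
      have := congrArg List.length hbs
      simpa using this
    match bs, hlen, hbs with
    | [x, m], _, hbs =>
      simp only [List.map_cons, List.map_nil, List.cons.injEq, and_true] at hbs
      obtain ⟨hx, hm⟩ := hbs
      rw [List.length_eq_one_iff] at hx
      obtain ⟨i, rfl⟩ := hx
      refine ⟨rfl, ?_, [], i, m, rfl⟩
      intro m' hm'
      simp only [List.mem_cons, List.not_mem_nil, or_false] at hm'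
      rcases hm' with rfl | rfl
      · simp
      · intro h; rw [h] at hm; simp at hm; omega
  | succ k ih =>
    intro L cs hcs hL
    rw [cmp, List.mem_flatMap] at hcs
    obtain ⟨a, ha, hcs⟩ := hcs
    rw [List.mem_map] at hcs
    obtain ⟨cs', hcs', rfl⟩ := hcs
    rw [List.mem_range] at ha
    obtain ⟨h1, h2⟩ := ih _ _ hcs' (by omega)
    refine ⟨by rw [List.sum_cons, h1]; omega, ?_⟩
    intro bs hbs
    cases bs with
    | nil => simp at hbs
    | cons m bs =>
      rw [List.map_cons, List.cons.injEq] at hbs
      obtain ⟨h3, h4, bs', i, m', h5⟩ := h2 bs hbs.2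
      refine ⟨by rw [List.length_cons, h3], ?_, m :: bs', i, m', by rw [h5]; rfl⟩
      intro x hx
      rcases List.mem_cons.mp hx with rfl | hx
      · intro h; rw [h] at hbs; simp at hbs
      · exact h4 x hx

theorem exists_blocks (cs : List ℕ) : ∀ (u : Wd), cs.sum = u.length →
    ∃ bs : List Wd, bs.map List.length = cs ∧ bs.flatten = u := by
  induction cs with
  | nil =>
    intro u hu
    refine ⟨[], rfl, ?_⟩
    rw [List.sum_nil] at hu
    rw [List.eq_nil_of_length_eq_zero hu.symm]; rfl
  | cons a cs ih =>
    intro u hu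
    rw [List.sum_cons] at hu
    obtain ⟨bs, h1, h2⟩ := ih (u.drop a) (by rw [List.length_drop]; omega)
    refine ⟨u.take a :: bs, ?_, ?_⟩
    · rw [List.map_cons, h1, List.length_take]
      congr 1
      omega
    · rw [List.flatten_cons, h2, List.take_append_drop]

/-! ### functionals -/

variable (K : Type u) [Field K]

/-- the functional with value `⌊tb / q⌋` on words -/
noncomputable def fn (tb : ℕ → ℕ) (q : ℕ) : A K →ₗ[K] K :=
  (wbas K).constr K fun u => ((tb (code u) / q : ℕ) : K)

theorem fn_wd (tb : ℕ → ℕ) (q : ℕ) (u : Wd) :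
    fn K tb q (wd K u) = ((tb (code u) / q : ℕ) : K) := by
  rw [fn, ← wbas_apply, Module.Basis.constr_basis]

/-- the difference of two sums of words -/
noncomputable def vec (P N : List Wd) : A K := (P.map (wd K)).sum - (N.map (wd K)).sum

theorem sum_div (q M : ℕ) (P : List ℕ) (h : ∀ x ∈ P, (x % q) * M < q) (hM : P.length ≤ M) :
    P.sum / q = (P.map (· / q)).sum := by
  rcases Nat.eq_zero_or_pos M with rfl | hM0
  · have : P = [] := List.eq_nil_of_length_eq_zero (by omega)
    subst this
    simp
  rcases Nat.eq_zero_or_pos q with rfl | hq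
  · have : (P.map (· / 0)).sum = 0 := by
      clear h hM
      induction P with
      | nil => rfl
      | cons a P ih => simp
    rw [this]; simp
  have h1 : P.sum = q * (P.map (· / q)).sum + (P.map (· % q)).sum := by
    clear h hM
    induction P with
    | nil => rfl
    | cons a P ih =>
      simp only [List.sum_cons, List.map_cons]
      have := Nat.div_add_mod a q
      rw [ih]; nlinarith
  have h2 : (P.map (· % q)).sum * M ≤ P.length * (q - 1) := by
    clear hM h1
    induction P with
    | nil => simp
    | cons a P ih =>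
      simp only [List.sum_cons, List.map_cons, List.length_cons]
      have h3 := h a (List.mem_cons_self ..)
      have h4 := ih fun x hx => h x (List.mem_cons_of_mem _ hx)
      have h5 : (a % q) * M ≤ q - 1 := by omega
      nlinarith
  have h3 : (P.map (· % q)).sum < q := by
    have h4 : P.length * (q - 1) ≤ M * (q - 1) := Nat.mul_le_mul_right _ hM
    by_contra h5
    push Not at h5
    have h6 : q * M ≤ (P.map (· % q)).sum * M := Nat.mul_le_mul_right _ h5
    have h7 : q * M ≤ M * (q - 1) := le_trans h6 (le_trans h2 h4)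
    have h8 : M * (q - 1) < M * q := Nat.mul_lt_mul_of_pos_left (by omega) hM0
    rw [mul_comm q M] at h7
    omega
  rw [h1, Nat.mul_add_div hq, Nat.div_eq_of_lt h3, add_zero]

theorem fn_sum (tb : ℕ → ℕ) (q M : ℕ) (P : List Wd)
    (h : ∀ u ∈ P, (tb (code u) % q) * M < q) (hM : P.length ≤ M) :
    fn K tb q (P.map (wd K)).sum = (((P.map fun u => tb (code u)).sum / q : ℕ) : K) := by
  rw [sum_div q M]
  · rw [List.map_map]
    clear h hM
    induction P with
    | nil => simp
    | cons a P ih =>
      simp only [List.map_cons, List.sum_cons, map_add, ih, fn_wd, Nat.cast_add,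
        Function.comp_apply]
  · intro x hx
    obtain ⟨u, hu, rfl⟩ := List.mem_map.mp hx
    exact h u hu
  · rw [List.length_map]; exact hM

/-! ### the triangular lemma -/

theorem tri {V : Type*} [AddCommGroup V] [Module K V] (c : ℕ) : ∀ (Y X : Submodule K V)
    [Module.Finite K X] (_ : Y ≤ X) (F : ℕ → V →ₗ[K] K) (R : ℕ → V)
    (_ : ∀ i < c, ∀ y ∈ Y, F i y = 0) (_ : ∀ j < c, R j ∈ X)
    (_ : ∀ i j, j < i → i < c → F i (R j) = 0) (_ : ∀ j < c, F j (R j) ≠ 0),
    Module.finrank K Y + c ≤ Module.finrank K X := by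
  induction c with
  | zero =>
    intro Y X _ hYX F R _ _ _ _
    exact Submodule.finrank_mono hYX
  | succ c ih =>
    intro Y X _ hYX F R hY hR h0 h1
    have hle : X ⊓ LinearMap.ker (F c) ≤ X := inf_le_left
    have : Module.Finite K ↥(X ⊓ LinearMap.ker (F c)) := Submodule.finiteDimensional_of_le hle
    have h2 := ih Y (X ⊓ LinearMap.ker (F c))
      (le_inf hYX fun y hy => by
        rw [LinearMap.mem_ker]; exact hY c (Nat.lt_succ_self c) y hy)
      F R (fun i hi => hY i (by omega))
      (fun j hj => ⟨hR j (by omega), by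
        rw [SetLike.mem_coe, LinearMap.mem_ker]; exact h0 c j hj (Nat.lt_succ_self c)⟩)
      (fun i j hji hi => h0 i j hji (by omega)) (fun j hj => h1 j (by omega))
    have hlt : X ⊓ LinearMap.ker (F c) < X := by
      refine lt_of_le_of_ne hle fun h => ?_
      have h3 : R c ∈ X ⊓ LinearMap.ker (F c) := by rw [h]; exact hR c (Nat.lt_succ_self c)
      exact h1 c (Nat.lt_succ_self c) (LinearMap.mem_ker.mp h3.2)
    have h4 := Submodule.finrank_lt_finrank_of_lt hlt
    omega

variable [CharZero K]

/-- the main estimate -/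
theorem bound {tb : ℕ → ℕ} {α : Fin 4 → ℕ} {M c : ℕ} {e : ℕ → ℕ} (he : Monotone e)
    (good : ∀ u : Wd, ct u = α → ∀ j ≤ c, (tb (code u) % 2 ^ e j) * M < 2 ^ e j)
    {Y X : Submodule K (A K)} [Module.Finite K X] (hYX : Y ≤ X)
    (hY : ∀ j < c, ∀ y ∈ Y, fn K tb (2 ^ e j) y = 0)
    (hE : ∀ j < c, ∃ P N : List Wd, P.length ≤ M ∧ N.length ≤ M ∧
      (∀ u ∈ P, ct u = α) ∧ (∀ u ∈ N, ct u = α) ∧ vec K P N ∈ X ∧
      (P.map fun u => tb (code u)).sum / 2 ^ e (j + 1) =
        (N.map fun u => tb (code u)).sum / 2 ^ e (j + 1) ∧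
      (P.map fun u => tb (code u)).sum / 2 ^ e j ≠ (N.map fun u => tb (code u)).sum / 2 ^ e j) :
    Module.finrank K Y + c ≤ Module.finrank K X := by
  choose! P N hP hN hPα hNα hX h1 h2 using hE
  have key : ∀ i ≤ c, ∀ j < c, fn K tb (2 ^ e i) (vec K (P j) (N j)) =
      ((((P j).map fun u => tb (code u)).sum / 2 ^ e i : ℕ) : K) -
      ((((N j).map fun u => tb (code u)).sum / 2 ^ e i : ℕ) : K) := by
    intro i hi j hj
    rw [vec, map_sub, fn_sum K tb _ M (P j) (fun u hu => good u (hPα j hj u hu) i hi) (hP j hj),
      fn_sum K tb _ M (N j) (fun u hu => good u (hNα j hj u hu) i hi) (hN j hj)]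
  refine tri K c Y X hYX (fun i => fn K tb (2 ^ e i)) (fun j => vec K (P j) (N j)) hY hX ?_ ?_
  · intro i j hji hi
    have h3 : j < c := lt_trans hji hi
    rw [key i hi.le j h3]
    have h4 : 2 ^ e i = 2 ^ e (j + 1) * 2 ^ (e i - e (j + 1)) := by
      rw [← pow_add, Nat.add_sub_cancel' (he hji)]
    rw [h4, ← Nat.div_div_eq_div_mul, ← Nat.div_div_eq_div_mul, h1 j h3, sub_self]
  · intro j hj
    rw [key j hj.le j hj, sub_ne_zero]
    exact fun h => h2 j hj (Nat.cast_injective h)

end Pool.Agent.Lib.MP_eb394a_al
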