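import Mathlib

/-!
# Lower central series quotients of tensor algebras and Schur functors

Definitions used in the statement about `B_k(T(V))`. Everything is over a field `K` and functorial
in the vector space `V`. Every space below is a type with its own name, carrying the module
structure of the Mathlib construction it is defined by; every functor `F` comes with the induced
maps `F.map : F(V) → F(W)` of linear maps `V → W`.
-/

set_option autoImplicit false

open scoped TensorProduct DirectSum

namespace Pool.Agent.Lib.MP_eb394a_al.Stmt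

universe u v w

variable (K : Type u) [Field K]

/-! ### The lower central series quotients `B_k(T(V))` -/

/-- The tensor algebra `T(V)`. -/
def T (V : Type v) [AddCommGroup V] [Module K V] : Type (max u v) := TensorAlgebra K V

noncomputable instance (V : Type v) [AddCommGroup V] [Module K V] : Ring (T K V) :=
  TensorAlgebra.instRing V

noncomputable instance (V : Type v) [AddCommGroup V] [Module K V] : Algebra K (T K V) :=
  (TensorAlgebra.instAlgebra : Algebra K (TensorAlgebra K V))

/-- The inclusion `V → T(V)`. -/
noncomputable def T.ι (V : Type v) [AddCommGroup V] [Module K V] : V →ₗ[K] T K V :=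
  TensorAlgebra.ι K

/-- The algebra homomorphism `T(V) → T(W)` induced by a linear map `f : V → W`. -/
noncomputable def T.map {V : Type v} {W : Type w} [AddCommGroup V] [Module K V]
    [AddCommGroup W] [Module K W] (f : V →ₗ[K] W) : T K V →ₐ[K] T K W :=
  (TensorAlgebra.lift K (T.ι K W ∘ₗ f) : TensorAlgebra K V →ₐ[K] T K W)

/-- `[T(V), P]` for a subspace `P` of `T(V)`: the span of the commutators `a b - b a` with
`a ∈ T(V)` and `b ∈ P`. -/
noncomputable def bracket (V : Type v) [AddCommGroup V] [Module K V] (P : Submodule K (T K V)) :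
    Submodule K (T K V) :=
  Submodule.span K {x | ∃ a : T K V, ∃ b ∈ P, x = a * b - b * a}

/-- `L_k`, for `k ≥ 1`: the `k`-th term of the lower central series of the tensor algebra,
`L_1 = T(V)` and `L_{k+1} = [T(V), L_k]`. (The value at `k = 0` is irrelevant.) -/
noncomputable def L (V : Type v) [AddCommGroup V] [Module K V] (k : ℕ) : Submodule K (T K V) :=
  (bracket K V)^[k - 1] ⊤

theorem L_one (V : Type v) [AddCommGroup V] [Module K V] : L K V 1 = ⊤ := rfl

theorem L_succ (V : Type v) [AddCommGroup V] [Module K V] (k : ℕ) (hk : 1 ≤ k) :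
    L K V (k + 1) = bracket K V (L K V k) := by
  obtain ⟨k, rfl⟩ := Nat.exists_eq_add_of_le' hk
  exact Function.iterate_succ_apply' _ _ _

theorem T.map_mem_L {V : Type v} {W : Type w} [AddCommGroup V] [Module K V]
    [AddCommGroup W] [Module K W] (f : V →ₗ[K] W) (k : ℕ) {x : T K V}
    (hx : x ∈ L K V k) : T.map K f x ∈ L K W k := by
  induction k using Nat.twoStepInduction generalizing x with
  | zero => exact Submodule.mem_top
  | one => exact Submodule.mem_top
  | more k _ ih =>
    rw [L_succ K _ _ (by omega), bracket] at hx ⊢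
    induction hx using Submodule.span_induction with
    | mem y hy =>
      obtain ⟨a, b, hb, rfl⟩ := hy
      refine Submodule.subset_span ⟨T.map K f a, T.map K f b, ih hb, ?_⟩
      rw [map_sub, map_mul, map_mul]
    | zero => rw [map_zero]; exact Submodule.zero_mem _
    | add y z _ _ hy hz => rw [map_add]; exact Submodule.add_mem _ hy hz
    | smul c y _ hy => rw [map_smul]; exact Submodule.smul_mem _ c hy

/-- The restriction `L_k(V) → L_k(W)` of `T.map f`. -/
noncomputable def L.map (k : ℕ) {V : Type v} {W : Type w} [AddCommGroup V] [Module K V]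
    [AddCommGroup W] [Module K W] (f : V →ₗ[K] W) : L K V k →ₗ[K] L K W k :=
  (T.map K f).toLinearMap.restrict fun _ hx => T.map_mem_L K f k hx

/-- `L_{k+1}` as a subspace of `L_k`. -/
noncomputable def L.next (k : ℕ) (V : Type v) [AddCommGroup V] [Module K V] :
    Submodule K (L K V k) := (L K V (k + 1)).submoduleOf (L K V k)

theorem L.next_le (k : ℕ) {V : Type v} {W : Type w} [AddCommGroup V] [Module K V]
    [AddCommGroup W] [Module K W] (f : V →ₗ[K] W) :
    L.next K k V ≤ (L.next K k W).comap (L.map K k f) :=
  fun _ hx => T.map_mem_L K f (k + 1) hx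

/-- `B_k(T(V)) = L_k / L_{k+1}`. -/
def B (k : ℕ) (V : Type v) [AddCommGroup V] [Module K V] : Type (max u v) :=
  L K V k ⧸ L.next K k V

noncomputable instance (k : ℕ) (V : Type v) [AddCommGroup V] [Module K V] :
    AddCommGroup (B K k V) := Submodule.Quotient.addCommGroup _

noncomputable instance (k : ℕ) (V : Type v) [AddCommGroup V] [Module K V] :
    Module K (B K k V) := Submodule.Quotient.module _

/-- The map `B_k(T(V)) → B_k(T(W))` induced by a linear map `f : V → W`. -/
noncomputable def B.map (k : ℕ) {V : Type v} {W : Type w} [AddCommGroup V] [Module K V]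
    [AddCommGroup W] [Module K W] (f : V →ₗ[K] W) : B K k V →ₗ[K] B K k W :=
  Submodule.mapQ (L.next K k V) (L.next K k W) (L.map K k f) (L.next_le K k f)

/-! ### Schur functors -/

/-- The tensor power of `V` with one tensor factor for each cell of the Young diagram `μ`. -/
def TP (μ : YoungDiagram) (V : Type v) [AddCommGroup V] [Module K V] : Type (max u v) :=
  ⨂[K] _ : μ.cells, V

noncomputable instance (μ : YoungDiagram) (V : Type v) [AddCommGroup V] [Module K V] :
    AddCommMonoid (TP K μ V) := PiTensorProduct.instAddCommMonoid _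

noncomputable instance (μ : YoungDiagram) (V : Type v) [AddCommGroup V] [Module K V] :
    Module K (TP K μ V) := PiTensorProduct.instModule

/-- The map `TP(V) → TP(W)` induced by a linear map `f : V → W`. -/
noncomputable def TP.map (μ : YoungDiagram) {V : Type v} {W : Type w} [AddCommGroup V]
    [Module K V] [AddCommGroup W] [Module K W] (f : V →ₗ[K] W) : TP K μ V →ₗ[K] TP K μ W :=
  PiTensorProduct.map fun _ => f

/-- The permutation `p` of the cells of `μ` acting on the tensor power by permuting the factors. -/
noncomputable def TP.perm (μ : YoungDiagram) (V : Type v) [AddCommGroup V] [Module K V]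
    (p : Equiv.Perm μ.cells) : TP K μ V →ₗ[K] TP K μ V :=
  (PiTensorProduct.reindex K (fun _ => V) p).toLinearMap

open scoped Classical in
/-- The permutations of the cells of `μ` which preserve every row. -/
noncomputable def rowPerms (μ : YoungDiagram) : Finset (Equiv.Perm μ.cells) :=
  {p | ∀ c, (p c).1.1 = c.1.1}

open scoped Classical in
/-- The permutations of the cells of `μ` which preserve every column. -/
noncomputable def colPerms (μ : YoungDiagram) : Finset (Equiv.Perm μ.cells) :=
  {q | ∀ c, (q c).1.2 = c.1.2}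

/-- The sum of the permutations in `rowPerms μ`, acting on the tensor power. -/
noncomputable def rowSym (μ : YoungDiagram) (V : Type v) [AddCommGroup V] [Module K V] :
    TP K μ V →ₗ[K] TP K μ V :=
  ∑ p ∈ rowPerms μ, TP.perm K μ V p

open scoped Classical in
/-- The sum of the permutations in `colPerms μ` with their signs, acting on the tensor power. -/
noncomputable def colAlt (μ : YoungDiagram) (V : Type v) [AddCommGroup V] [Module K V] :
    TP K μ V →ₗ[K] TP K μ V :=
  ∑ q ∈ colPerms μ, ((Equiv.Perm.sign q : ℤ) : K) • TP.perm K μ V q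

/-- The Young symmetrizer of `μ` acting on the tensor power. -/
noncomputable def youngSymmetrizer (μ : YoungDiagram) (V : Type v) [AddCommGroup V] [Module K V] :
    TP K μ V →ₗ[K] TP K μ V :=
  rowSym K μ V ∘ₗ colAlt K μ V

/-- The Schur functor `𝕊_μ(V)`: the image of the Young symmetrizer on the tensor power. -/
def Schur (μ : YoungDiagram) (V : Type v) [AddCommGroup V] [Module K V] : Type (max u v) :=
  LinearMap.range (youngSymmetrizer K μ V)

noncomputable instance (μ : YoungDiagram) (V : Type v) [AddCommGroup V] [Module K V] :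
    AddCommMonoid (Schur K μ V) := Submodule.addCommMonoid _

noncomputable instance (μ : YoungDiagram) (V : Type v) [AddCommGroup V] [Module K V] :
    Module K (Schur K μ V) := Submodule.module _

theorem TP.map_perm {μ : YoungDiagram} {V : Type v} {W : Type w} [AddCommGroup V] [Module K V]
    [AddCommGroup W] [Module K W] (f : V →ₗ[K] W) (p : Equiv.Perm μ.cells) (x : TP K μ V) :
    TP.map K μ f (TP.perm K μ V p x) = TP.perm K μ W p (TP.map K μ f x) := by
  change PiTensorProduct.map (fun _ => f) (PiTensorProduct.reindex K (fun _ => V) p x) =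
    PiTensorProduct.reindex K (fun _ => W) p (PiTensorProduct.map (fun _ => f) x)
  induction x using PiTensorProduct.induction_on with
  | smul_tprod r m =>
    simp only [map_smul, PiTensorProduct.reindex_tprod, PiTensorProduct.map_tprod]
  | add x y hx hy => rw [map_add, map_add, hx, hy, map_add, map_add]

theorem Schur.map_mem {μ : YoungDiagram} {V : Type v} {W : Type w} [AddCommGroup V] [Module K V]
    [AddCommGroup W] [Module K W] (f : V →ₗ[K] W) {x : TP K μ V}
    (hx : x ∈ LinearMap.range (youngSymmetrizer K μ V)) :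
    TP.map K μ f x ∈ LinearMap.range (youngSymmetrizer K μ W) := by
  obtain ⟨y, rfl⟩ := hx
  refine ⟨TP.map K μ f y, ?_⟩
  simp only [youngSymmetrizer, rowSym, colAlt, LinearMap.comp_apply, LinearMap.sum_apply,
    LinearMap.smul_apply, map_sum, map_smul, TP.map_perm]

/-- The map `𝕊_μ(V) → 𝕊_μ(W)` induced by a linear map `f : V → W`. -/
noncomputable def Schur.map (μ : YoungDiagram) {V : Type v} {W : Type w} [AddCommGroup V]
    [Module K V] [AddCommGroup W] [Module K W] (f : V →ₗ[K] W) : Schur K μ V →ₗ[K] Schur K μ W :=
  (TP.map K μ f).restrict fun _ hx => Schur.map_mem K f hx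

/-- The Young diagram `(μ, 1^m)`: `m` rows of length `1` are appended below `μ`. -/
def appendOnes (μ : YoungDiagram) (m : ℕ) : YoungDiagram where
  cells := μ.cells ∪ (Finset.range m).image fun i => (μ.colLen 0 + i, 0)
  isLowerSet := by
    rintro ⟨i, j⟩ ⟨i', j'⟩ ⟨h1, h2⟩ h
    simp only [Finset.coe_union, Set.mem_union, Finset.mem_coe, YoungDiagram.mem_cells,
      Finset.mem_image, Finset.mem_range, Prod.mk.injEq] at h ⊢
    simp only at h1 h2
    rcases h with h | ⟨a, ha, hi, hj⟩
    · exact Or.inl (μ.up_left_mem h1 h2 h)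
    · have hj' : j' = 0 := by omega
      subst hj'
      by_cases hc : i' < μ.colLen 0
      · exact Or.inl (YoungDiagram.mem_iff_lt_colLen.mpr hc)
      · exact Or.inr ⟨i' - μ.colLen 0, by omega, by omega, rfl⟩

/-! ### The functors `𝒢_μ` -/

/-- The symmetric algebra `S(V)`. -/
def S (V : Type v) [AddCommGroup V] [Module K V] : Type (max u v) := SymmetricAlgebra K V

noncomputable instance (V : Type v) [AddCommGroup V] [Module K V] : CommSemiring (S K V) :=
  SymmetricAlgebra.instCommSemiring K V

noncomputable instance (V : Type v) [AddCommGroup V] [Module K V] : Algebra K (S K V) :=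
  (inferInstance : Algebra K (SymmetricAlgebra K V))

/-- The inclusion `V → S(V)`. -/
noncomputable def S.ι (V : Type v) [AddCommGroup V] [Module K V] : V →ₗ[K] S K V :=
  SymmetricAlgebra.ι K V

/-- The algebra homomorphism `S(V) → S(W)` induced by a linear map `f : V → W`. -/
noncomputable def S.map {V : Type v} {W : Type w} [AddCommGroup V] [Module K V]
    [AddCommGroup W] [Module K W] (f : V →ₗ[K] W) : S K V →ₐ[K] S K W :=
  (SymmetricAlgebra.lift (S.ι K W ∘ₗ f) : SymmetricAlgebra K V →ₐ[K] S K W)

/-- `⨁_{j ≥ 0} 𝕊_{(μ, 1^{2j})}(V)` -/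
def H (μ : YoungDiagram) (V : Type v) [AddCommGroup V] [Module K V] : Type (max u v) :=
  ⨁ j : ℕ, Schur K (appendOnes μ (2 * j)) V

noncomputable instance (μ : YoungDiagram) (V : Type v) [AddCommGroup V] [Module K V] :
    AddCommMonoid (H K μ V) := DirectSum.instAddCommMonoid _ _

noncomputable instance (μ : YoungDiagram) (V : Type v) [AddCommGroup V] [Module K V] :
    Module K (H K μ V) := DirectSum.instModule

/-- The map `H_μ(V) → H_μ(W)` induced by a linear map `f : V → W`. -/
noncomputable def H.map (μ : YoungDiagram) {V : Type v} {W : Type w} [AddCommGroup V]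
    [Module K V] [AddCommGroup W] [Module K W] (f : V →ₗ[K] W) : H K μ V →ₗ[K] H K μ W :=
  DirectSum.lmap fun j => Schur.map K (appendOnes μ (2 * j)) f

/-- `𝒢_μ(V) = S(V) ⊗ ⨁_{j ≥ 0} 𝕊_{(μ, 1^{2j})}(V)`. -/
def G (μ : YoungDiagram) (V : Type v) [AddCommGroup V] [Module K V] : Type (max u v) :=
  S K V ⊗[K] H K μ V

noncomputable instance (μ : YoungDiagram) (V : Type v) [AddCommGroup V] [Module K V] :
    AddCommMonoid (G K μ V) := TensorProduct.addCommMonoid

noncomputable instance (μ : YoungDiagram) (V : Type v) [AddCommGroup V] [Module K V] :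
    Module K (G K μ V) := TensorProduct.instModule

/-- The map `𝒢_μ(V) → 𝒢_μ(W)` induced by a linear map `f : V → W`. -/
noncomputable def G.map (μ : YoungDiagram) {V : Type v} {W : Type w} [AddCommGroup V] [Module K V]
    [AddCommGroup W] [Module K W] (f : V →ₗ[K] W) : G K μ V →ₗ[K] G K μ W :=
  TensorProduct.map (S.map K f).toLinearMap (H.map K μ f)

/-- `⨁_{i < r} 𝒢_{Λ i}(V)` -/
def GSum {r : ℕ} (Λ : Fin r → YoungDiagram) (V : Type v) [AddCommGroup V] [Module K V] :
    Type (max u v) :=
  ⨁ i : Fin r, G K (Λ i) V

noncomputable instance {r : ℕ} (Λ : Fin r → YoungDiagram) (V : Type v) [AddCommGroup V]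
    [Module K V] : AddCommMonoid (GSum K Λ V) := DirectSum.instAddCommMonoid _ _

noncomputable instance {r : ℕ} (Λ : Fin r → YoungDiagram) (V : Type v) [AddCommGroup V]
    [Module K V] : Module K (GSum K Λ V) := DirectSum.instModule

/-- The map `⨁ 𝒢_{Λ i}(V) → ⨁ 𝒢_{Λ i}(W)` induced by a linear map `f : V → W`. -/
noncomputable def GSum.map {r : ℕ} (Λ : Fin r → YoungDiagram) {V : Type v} {W : Type w}
    [AddCommGroup V] [Module K V] [AddCommGroup W] [Module K W] (f : V →ₗ[K] W) :
    GSum K Λ V →ₗ[K] GSum K Λ W :=
  DirectSum.lmap fun i => G.map K (Λ i) f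

/-- The vector space `K^n`. -/
def Kn (n : ℕ) : Type u := Fin n → K

instance (n : ℕ) : AddCommGroup (Kn K n) := Pi.addCommGroup

instance (n : ℕ) : Module K (Kn K n) := Pi.module _ _ _

/-- `B_k(T(V)) ≅ ⨁_{i < r} 𝒢_{Λ i}(V)` as abstract Schur functors, i.e. for every `n` the values
on `K^n` are isomorphic as modules over `GL_n(K)`. -/
def Decomposes (k : ℕ) {r : ℕ} (Λ : Fin r → YoungDiagram) : Prop :=
  ∀ n : ℕ, ∃ e : B K k (Kn K n) ≃ₗ[K] GSum K Λ (Kn K n),
    ∀ (g : Kn K n ≃ₗ[K] Kn K n) (x : B K k (Kn K n)),
      e (B.map K k g.toLinearMap x) = GSum.map K Λ g.toLinearMap (e x)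

end Pool.Agent.Lib.MP_eb394a_al.Stmt
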