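import Pool.Agent.Lib.MP_eb394a_al.Defs
import Pool.Agent.Lib.MP_eb394a_al.Eigen

/-!
The diagonal element `g0 = diag(2, 3, 5, 7)` of `GL_4(K)` and its eigenvectors on Schur functors
and on the functors `𝒢_μ`.
-/

set_option autoImplicit false

open scoped TensorProduct DirectSum

namespace Pool.Agent.Lib.MP_eb394a_al

universe u

/-- the four primes -/
def q : Fin 4 → ℕ := ![2, 3, 5, 7]

/-- the natural number attached to a weight -/
def chiN (α : Fin 4 → ℕ) : ℕ := ∏ i, q i ^ α i

theorem chiN_inj {α β : Fin 4 → ℕ} (h : chiN α = chiN β) : α = β := by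
  have h2 : Nat.Prime 2 := by norm_num
  have h3 : Nat.Prime 3 := by norm_num
  have h5 : Nat.Prime 5 := by norm_num
  have h7 : Nat.Prime 7 := by norm_num
  have key : ∀ γ : Fin 4 → ℕ, ∀ j, (chiN γ).factorization (q j) = γ j := by
    intro γ j
    have e : chiN γ = 2 ^ γ 0 * 3 ^ γ 1 * 5 ^ γ 2 * 7 ^ γ 3 := by
      simp [chiN, Fin.prod_univ_four, q]
    rw [e, Nat.factorization_mul (by positivity) (by positivity),
      Nat.factorization_mul (by positivity) (by positivity),
      Nat.factorization_mul (by positivity) (by positivity),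
      h2.factorization_pow, h3.factorization_pow, h5.factorization_pow, h7.factorization_pow]
    fin_cases j <;> simp [q]
  funext j
  rw [← key α j, ← key β j, h]

section K

variable (K : Type u) [Field K]

/-- the eigenvalue attached to a weight -/
def chi (α : Fin 4 → ℕ) : K := (chiN α : K)

theorem chi_eq (α : Fin 4 → ℕ) : chi K α = ∏ i, (q i : K) ^ α i := by
  unfold chi chiN
  push_cast
  rfl

theorem chi_add (α β : Fin 4 → ℕ) : chi K (α + β) = chi K α * chi K β := by
  simp only [chi_eq, Pi.add_apply, pow_add, Finset.prod_mul_distrib]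

variable [CharZero K]

theorem chi_inj {α β : Fin 4 → ℕ} (h : chi K α = chi K β) : α = β :=
  chiN_inj (Nat.cast_injective h)

theorem q_ne (i : Fin 4) : (q i : K) ≠ 0 := by
  have : q i ≠ 0 := by fin_cases i <;> simp [q]
  exact_mod_cast this

/-- the diagonal element -/
noncomputable def g0 : (Fin 4 → K) ≃ₗ[K] (Fin 4 → K) :=
  LinearEquiv.piCongrRight fun i => LinearEquiv.smulOfNeZero K K (q i : K) (q_ne K i)

/-- the standard basis -/
noncomputable abbrev bas : Module.Basis (Fin 4) K (Fin 4 → K) := Pi.basisFun K (Fin 4)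

theorem g0_bas (i : Fin 4) : (g0 K).toLinearMap (bas K i) = (q i : K) • bas K i := by
  ext j
  simp only [g0, LinearEquiv.coe_coe, LinearEquiv.piCongrRight_apply, Pi.basisFun_apply,
    LinearEquiv.smulOfNeZero_apply, Pi.smul_apply, smul_eq_mul]
  by_cases h : i = j
  · subst h; rfl
  · simp [Ne.symm h]

/-- content of a filling -/
def cont {C : Type} [Fintype C] (T : C → Fin 4) : Fin 4 → ℕ :=
  fun i => (Finset.univ.filter fun c => T c = i).card

omit [CharZero K] in
theorem prod_q {C : Type} [Fintype C] (T : C → Fin 4) :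
    ∏ c, (q (T c) : K) = chi K (cont T) := by
  rw [chi_eq]
  simp only [cont]
  rw [← Finset.prod_fiberwise_of_maps_to (s := Finset.univ) (t := Finset.univ) (g := T)
    (f := fun c => (q (T c) : K)) (fun _ _ => Finset.mem_univ _)]
  refine Finset.prod_congr rfl fun i _ => ?_
  rw [Finset.prod_congr rfl (g := fun _ => (q i : K)), Finset.prod_const]
  intro c hc
  rw [(Finset.mem_filter.mp hc).2]

/-! ### Schur functors -/

section schur

variable (μ : YoungDiagram)

/-- the standard tensors -/
noncomputable def eT (T : μ.cells → Fin 4) : TP K μ (Fin 4 → K) :=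
  PiTensorProduct.tprod K fun c => bas K (T c)

/-- their images under the Young symmetrizer -/
noncomputable def vT (T : μ.cells → Fin 4) : Schur K μ (Fin 4 → K) :=
  ⟨youngSymmetrizer K μ _ (eT K μ T), ⟨_, rfl⟩⟩

theorem map_eT (T : μ.cells → Fin 4) :
    PiTensorProduct.map (fun _ => (g0 K).toLinearMap) (eT K μ T) = chi K (cont T) • eT K μ T := by
  rw [eT, PiTensorProduct.map_tprod]
  simp only [g0_bas]
  rw [MultilinearMap.map_smul_univ, prod_q]

omit [CharZero K] in
theorem young_map {V W : Type u} [AddCommGroup V] [Module K V]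
    [AddCommGroup W] [Module K W] (f : V →ₗ[K] W) (y : TP K μ V) :
    youngSymmetrizer K μ W (PiTensorProduct.map (fun _ => f) y) =
      PiTensorProduct.map (fun _ => f) (youngSymmetrizer K μ V y) := by
  simp only [youngSymmetrizer, LinearMap.comp_apply, LinearMap.sum_apply, LinearMap.smul_apply,
    map_sum, map_smul, LinearEquiv.coe_coe, map_reindex]

theorem map_vT (T : μ.cells → Fin 4) :
    Schur.map K μ (g0 K).toLinearMap (vT K μ T) = chi K (cont T) • vT K μ T := by
  apply Subtype.ext
  change PiTensorProduct.map (fun _ => (g0 K).toLinearMap) (youngSymmetrizer K μ _ (eT K μ T)) =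
    chi K (cont T) • youngSymmetrizer K μ _ (eT K μ T)
  rw [← young_map, map_eT, map_smul]

omit [CharZero K] in
theorem span_vT : Submodule.span K (Set.range (vT K μ)) = ⊤ := by
  rw [eq_top_iff]
  rintro ⟨_, ⟨y, rfl⟩⟩ -
  have hy : y ∈ Submodule.span K (Set.range (eT K μ)) := by
    have hb := (Basis.piTensorProduct (R := K) (fun _ : μ.cells => bas K)).span_eq
    have : Set.range (Basis.piTensorProduct (R := K) (fun _ : μ.cells => bas K)) =
        Set.range (eT K μ) := by
      congr 1
      funext T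
      rw [Basis.piTensorProduct_apply]
      rfl
    rw [this] at hb
    rw [hb]
    exact Submodule.mem_top
  induction hy using Submodule.span_induction with
  | mem y hy =>
    obtain ⟨T, rfl⟩ := hy
    exact Submodule.subset_span ⟨T, rfl⟩
  | zero =>
    have : (⟨youngSymmetrizer K μ _ 0, ⟨0, rfl⟩⟩ : Schur K μ (Fin 4 → K)) = 0 := by
      apply Subtype.ext; exact map_zero _
    rw [this]; exact Submodule.zero_mem _
  | add y z _ _ hy hz =>
    have : (⟨youngSymmetrizer K μ _ (y + z), ⟨_, rfl⟩⟩ : Schur K μ (Fin 4 → K)) =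
        ⟨youngSymmetrizer K μ _ y, ⟨_, rfl⟩⟩ + ⟨youngSymmetrizer K μ _ z, ⟨_, rfl⟩⟩ := by
      apply Subtype.ext; exact map_add _ _ _
    rw [this]; exact Submodule.add_mem _ hy hz
  | smul c y _ hy =>
    have : (⟨youngSymmetrizer K μ _ (c • y), ⟨_, rfl⟩⟩ : Schur K μ (Fin 4 → K)) =
        c • ⟨youngSymmetrizer K μ _ y, ⟨_, rfl⟩⟩ := by
      apply Subtype.ext; exact map_smul _ _ _
    rw [this]; exact Submodule.smul_mem _ _ hy

omit [CharZero K] in
theorem exists_basis_Schur : ∃ (J : Type) (a : J → (μ.cells → Fin 4))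
    (b : Module.Basis J K (Schur K μ (Fin 4 → K))), ∀ j, b j = vT K μ (a j) :=
  exists_basis_of_span (M := Schur K μ (Fin 4 → K)) (vT K μ) (span_vT K μ)

end schur

/-! ### the symmetric algebra -/

theorem sym_map (m : Fin 4 →₀ ℕ) :
    SymmetricAlgebra.lift (SymmetricAlgebra.ι K (Fin 4 → K) ∘ₗ (g0 K).toLinearMap)
      ((bas K).symmetricAlgebra m) = chi K m • (bas K).symmetricAlgebra m := by
  have h1 : (bas K).symmetricAlgebra m = ∏ i, (SymmetricAlgebra.ι K (Fin 4 → K) (bas K i)) ^ m i := by
    rw [Module.Basis.symmetricAlgebra, Module.Basis.map_apply, MvPolynomial.coe_basisMonomials]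
    change (SymmetricAlgebra.equivMvPolynomial (bas K)).symm (MvPolynomial.monomial m 1) = _
    rw [MvPolynomial.monomial_eq, map_one, one_mul, Finsupp.prod_fintype _ _ (by simp), map_prod]
    refine Finset.prod_congr rfl fun i _ => ?_
    rw [map_pow, SymmetricAlgebra.equivMvPolynomial_symm_X]
  rw [h1, map_prod, chi_eq, ← Finset.prod_smul]
  refine Finset.prod_congr rfl fun i _ => ?_
  rw [map_pow, SymmetricAlgebra.lift_ι_apply, LinearMap.comp_apply, g0_bas, map_smul, smul_pow]

/-! ### the functors `𝒢_μ` -/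

section GG

variable (μ : YoungDiagram) {J : ℕ → Type} (a : ∀ j, J j → ((appendOnes μ (2 * j)).cells → Fin 4))
  (b : ∀ j, Module.Basis (J j) K (Schur K (appendOnes μ (2 * j)) (Fin 4 → K)))
  (hb : ∀ j x, b j x = vT K _ (a j x))

/-- basis of `𝒢_μ(K^4)` -/
noncomputable def basG : Module.Basis ((Fin 4 →₀ ℕ) × (Σ j, J j)) K (G K μ (Fin 4 → K)) :=
  (bas K).symmetricAlgebra.tensorProduct
    (DFinsupp.basis b : Module.Basis (Σ j, J j) K
      (⨁ j : ℕ, Schur K (appendOnes μ (2 * j)) (Fin 4 → K)))

include hb in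
theorem map_basG (m : Fin 4 →₀ ℕ) (x : Σ j, J j) :
    G.map K μ (g0 K).toLinearMap (basG K μ b (m, x)) =
      chi K (m + cont (a x.1 x.2)) • basG K μ b (m, x) := by
  obtain ⟨j, x⟩ := x
  have h1 : (DFinsupp.basis b : Module.Basis (Σ j, J j) K
      (⨁ j : ℕ, Schur K (appendOnes μ (2 * j)) (Fin 4 → K))) ⟨j, x⟩ =
      DirectSum.lof K ℕ (fun j => Schur K (appendOnes μ (2 * j)) (Fin 4 → K)) j (b j x) := by
    classical
    apply (DFinsupp.basis b).repr.injective
    rw [Module.Basis.repr_self]
    ext ⟨i, y⟩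
    change _ = (b i).repr ((DFinsupp.single j (b j x) : Π₀ j, Schur K (appendOnes μ (2 * j)) (Fin 4 → K)) i) y
    by_cases h : j = i
    · subst h
      rw [DFinsupp.single_eq_same, Module.Basis.repr_self]
      simp only [Finsupp.single_apply]
      by_cases h' : x = y
      · subst h'; simp
      · rw [if_neg h', if_neg]
        intro h''
        exact h' (by simpa using h'')
    · rw [DFinsupp.single_eq_of_ne (Ne.symm h), map_zero, Finsupp.zero_apply, Finsupp.single_apply,
        if_neg]
      intro h''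
      exact h (by simpa using congrArg Sigma.fst h'')
  rw [basG, Module.Basis.tensorProduct_apply, G.map, TensorProduct.map_tmul, h1,
    DirectSum.lmap_lof, hb, map_vT, AlgHom.toLinearMap_apply, sym_map, map_smul,
    TensorProduct.smul_tmul_smul, chi_add]

end GG

end K

end Pool.Agent.Lib.MP_eb394a_al
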