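import Pool.Agent.Lib.MP_eb394a_al.Weights

/-!
Words, iterated commutators of words, and the graded pieces of the lower central series of
`T(K^4)`.
-/

set_option autoImplicit false

open scoped TensorProduct DirectSum

namespace Pool.Agent.Lib.MP_eb394a_al

universe u

/-- words in four letters -/
abbrev Wd := List (Fin 4)

/-- content of a word -/
def ct (u : Wd) : Fin 4 → ℕ := fun i => u.count i

theorem ct_append (u v : Wd) : ct (u ++ v) = ct u + ct v := by
  funext i; simp [ct, List.count_append]

theorem length_eq_sum_ct (u : Wd) : u.length = ∑ i, ct u i := by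
  induction u with
  | nil => simp [ct]
  | cons a u ih =>
    rw [List.length_cons, ih]
    simp only [ct, List.count_cons]
    rw [Finset.sum_add_distrib]
    congr 1
    simp

variable (K : Type u) [Field K]

/-- the tensor algebra -/
abbrev A := TensorAlgebra K (Fin 4 → K)

/-- the word `u` as an element of the tensor algebra -/
noncomputable def wd (u : Wd) : A K := (u.map fun i => TensorAlgebra.ι K (bas K i)).prod

theorem wd_nil : wd K [] = 1 := rfl
theorem wd_append (u v : Wd) : wd K (u ++ v) = wd K u * wd K v := by
  simp [wd, List.prod_append]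

/-- the basis of words -/
noncomputable def wbas : Module.Basis Wd K (A K) :=
  (bas K).tensorAlgebra.reindex FreeMonoid.toList

theorem wbas_apply (u : Wd) : wbas K u = wd K u := by
  rw [wbas, Module.Basis.reindex_apply, Module.Basis.tensorAlgebra, Module.Basis.map_apply,
    FreeAlgebra.basisFreeMonoid, Module.Basis.map_apply]
  have h1 : (FreeAlgebra.equivMonoidAlgebraFreeMonoid (R := K) (X := Fin 4)).symm
      (MonoidAlgebra.of K (FreeMonoid (Fin 4)) (FreeMonoid.toList.symm u)) =
      (u.map (FreeAlgebra.ι K)).prod := by
    have : (FreeAlgebra.equivMonoidAlgebraFreeMonoid (R := K) (X := Fin 4)).symm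
      (MonoidAlgebra.of K (FreeMonoid (Fin 4)) (FreeMonoid.toList.symm u)) =
      FreeMonoid.lift (FreeAlgebra.ι K) (FreeMonoid.toList.symm u) := by
      change (MonoidAlgebra.lift K (FreeAlgebra K (Fin 4)) (FreeMonoid (Fin 4))
        (FreeMonoid.lift (FreeAlgebra.ι K)))
        (MonoidAlgebra.of K (FreeMonoid (Fin 4)) (FreeMonoid.toList.symm u)) = _
      rw [MonoidAlgebra.lift_of]
    rw [this, FreeMonoid.lift_apply]
    rfl
  have h2 : (FreeAlgebra.equivMonoidAlgebraFreeMonoid.toLinearEquiv.trans
      (MonoidAlgebra.coeffLinearEquiv K)).symm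
      (Finsupp.basisSingleOne (FreeMonoid.toList.symm u)) =
      (FreeAlgebra.equivMonoidAlgebraFreeMonoid (R := K) (X := Fin 4)).symm
      (MonoidAlgebra.of K (FreeMonoid (Fin 4)) (FreeMonoid.toList.symm u)) := by
    rw [Finsupp.coe_basisSingleOne]
    rfl
  rw [h2, h1]
  change (TensorAlgebra.equivFreeAlgebra (bas K)).symm ((u.map (FreeAlgebra.ι K)).prod) = _
  rw [map_list_prod, List.map_map, wd]
  congr 1
  apply List.map_congr_left
  intro i _
  rw [Function.comp_apply, TensorAlgebra.equivFreeAlgebra_symm_ι]

theorem span_wd : Submodule.span K (Set.range (wd K)) = ⊤ := by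
  rw [← (wbas K).span_eq]
  congr 2
  funext u
  rw [wbas_apply]

/-- iterated commutator `[m₁, [m₂, …, [m_{k-1}, m_k]]]` of words -/
noncomputable def comm : List Wd → A K
  | [] => 0
  | [m] => wd K m
  | m :: m' :: bs => wd K m * comm (m' :: bs) - comm (m' :: bs) * wd K m

/-- words occurring in the commutator with sign `+` (`s = true`) or `-` (`s = false`) -/
def cp : List Wd → Bool → List Wd
  | [], _ => []
  | [m], s => if s then [m] else []
  | m :: m' :: bs, s => (cp (m' :: bs) s).map (m ++ ·) ++ (cp (m' :: bs) (!s)).map (· ++ m)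

theorem comm_eq (bs : List Wd) :
    comm K bs = ((cp bs true).map (wd K)).sum - ((cp bs false).map (wd K)).sum := by
  induction bs with
  | nil => simp [comm, cp]
  | cons m bs ih =>
    cases bs with
    | nil => simp [comm, cp]
    | cons m' bs =>
      rw [comm, ih]
      simp only [cp, List.map_append, List.sum_append, List.map_map, Bool.not_true, Bool.not_false]
      have h1 : ∀ l : List Wd, (l.map (wd K ∘ fun x => m ++ x)).sum =
          wd K m * (l.map (wd K)).sum := by
        intro l
        induction l with
        | nil => simp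
        | cons a l ih => simp only [List.map_cons, List.sum_cons, ih, Function.comp_apply,
            wd_append, mul_add]
      have h2 : ∀ l : List Wd, (l.map (wd K ∘ fun x => x ++ m)).sum =
          (l.map (wd K)).sum * wd K m := by
        intro l
        induction l with
        | nil => simp
        | cons a l ih => simp only [List.map_cons, List.sum_cons, ih, Function.comp_apply,
            wd_append, add_mul]
      rw [h1, h2, h1, h2]
      noncomm_ring

theorem ct_of_mem_cp (bs : List Wd) : ∀ s, ∀ u ∈ cp bs s, ct u = ct bs.flatten := by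
  induction bs with
  | nil => intro s u hu; simp [cp] at hu
  | cons m bs ih =>
    intro s u hu
    cases bs with
    | nil =>
      simp only [cp] at hu
      split_ifs at hu with h
      · rw [List.mem_singleton] at hu
        simp [hu]
      · simp at hu
    | cons m' bs =>
      simp only [cp, List.mem_append, List.mem_map] at hu
      rw [List.flatten_cons, ct_append]
      rcases hu with ⟨v, hv, rfl⟩ | ⟨v, hv, rfl⟩
      · rw [ct_append, ih s v hv]
      · rw [ct_append, ih _ v hv, add_comm]

/-- the generators of `L_k` used below: `k` nonempty words, the last but one being a letter -/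
def IsGen (k : ℕ) (bs : List Wd) : Prop :=
  bs.length = k ∧ (∀ m ∈ bs, m ≠ []) ∧ ∃ bs' i m, bs = bs' ++ [[i], m]

theorem comm_pair_mem (u v : Wd) :
    wd K u * wd K v - wd K v * wd K u ∈
      Submodule.span K {x | ∃ bs, IsGen 2 bs ∧ x = comm K bs} := by
  induction u generalizing v with
  | nil => rw [wd_nil, one_mul, mul_one, sub_self]; exact Submodule.zero_mem _
  | cons i u ih =>
    have e : wd K (i :: u) = wd K [i] * wd K u := by
      rw [← wd_append]; rfl
    have h1 : wd K (i :: u) * wd K v - wd K v * wd K (i :: u) =
        (wd K [i] * wd K (u ++ v) - wd K (u ++ v) * wd K [i]) +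
        (wd K u * wd K (v ++ [i]) - wd K (v ++ [i]) * wd K u) := by
      rw [e, wd_append, wd_append]; noncomm_ring
    rw [h1]
    refine Submodule.add_mem _ ?_ (ih _)
    by_cases h : u ++ v = []
    · rw [h, wd_nil, one_mul, mul_one, sub_self]; exact Submodule.zero_mem _
    · refine Submodule.subset_span ⟨[[i], u ++ v], ⟨rfl, ?_, ⟨[], i, u ++ v, rfl⟩⟩, rfl⟩
      intro m hm
      simp only [List.mem_cons, List.not_mem_nil, or_false] at hm
      rcases hm with rfl | rfl
      · simp
      · exact h

theorem L_eq_span (k : ℕ) : L K (Fin 4 → K) (k + 2) =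
    Submodule.span K {x | ∃ bs, IsGen (k + 2) bs ∧ x = comm K bs} := by
  induction k with
  | zero =>
    rw [L]
    apply le_antisymm
    · rw [Submodule.span_le]
      rintro _ ⟨a, b, -, rfl⟩
      have ha : a ∈ Submodule.span K (Set.range (wd K)) := by rw [span_wd]; exact Submodule.mem_top
      have hb : b ∈ Submodule.span K (Set.range (wd K)) := by rw [span_wd]; exact Submodule.mem_top
      rw [SetLike.mem_coe]
      induction ha using Submodule.span_induction with
      | mem a ha =>
        obtain ⟨u, rfl⟩ := ha
        induction hb using Submodule.span_induction with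
        | mem b hb => obtain ⟨v, rfl⟩ := hb; exact comm_pair_mem K u v
        | zero => rw [mul_zero, zero_mul, sub_self]; exact Submodule.zero_mem _
        | add x y _ _ hx hy =>
          have : wd K u * (x + y) - (x + y) * wd K u =
            (wd K u * x - x * wd K u) + (wd K u * y - y * wd K u) := by noncomm_ring
          rw [this]; exact Submodule.add_mem _ hx hy
        | smul c x _ hx =>
          rw [mul_smul_comm, smul_mul_assoc, ← smul_sub]; exact Submodule.smul_mem _ c hx
      | zero => rw [mul_zero, zero_mul, sub_self]; exact Submodule.zero_mem _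
      | add x y _ _ hx hy =>
        have : (x + y) * b - b * (x + y) = (x * b - b * x) + (y * b - b * y) := by noncomm_ring
        rw [this]; exact Submodule.add_mem _ hx hy
      | smul c x _ hx =>
        rw [mul_smul_comm, smul_mul_assoc, ← smul_sub]; exact Submodule.smul_mem _ c hx
    · rw [Submodule.span_le]
      rintro _ ⟨bs, ⟨hlen, -, bs', i, m, rfl⟩, rfl⟩
      rw [List.length_append] at hlen
      have : bs' = [] := by
        apply List.eq_nil_of_length_eq_zero
        simpa using hlen
      subst this
      exact Submodule.subset_span ⟨wd K [i], wd K m, Submodule.mem_top, rfl⟩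
  | succ k ih =>
    rw [L]
    apply le_antisymm
    · rw [Submodule.span_le]
      rintro _ ⟨a, b, hb, rfl⟩
      have hb' : b ∈ Submodule.span K {x | ∃ bs, IsGen (k + 2) bs ∧ x = comm K bs} := by
        rw [← ih]; exact hb
      have ha : a ∈ Submodule.span K (Set.range (wd K)) := by rw [span_wd]; exact Submodule.mem_top
      rw [SetLike.mem_coe]
      clear hb
      induction ha using Submodule.span_induction with
      | mem a ha =>
        obtain ⟨u, rfl⟩ := ha
        induction hb' using Submodule.span_induction with
        | mem b hb =>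
          obtain ⟨bs, ⟨hlen, hne, bs', i, m, hbs⟩, rfl⟩ := hb
          by_cases hu : u = []
          · subst hu
            rw [wd_nil, one_mul, mul_one, sub_self]; exact Submodule.zero_mem _
          · refine Submodule.subset_span ⟨u :: bs, ⟨?_, ?_, ⟨u :: bs', i, m, ?_⟩⟩, ?_⟩
            · rw [List.length_cons, hlen]
            · intro m' hm'
              rcases List.mem_cons.mp hm' with h | h
              · rw [h]; exact hu
              · exact hne m' h
            · rw [hbs]; rfl
            · cases bs with
              | nil => simp at hlen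
              | cons m' bs => rw [comm]
        | zero => rw [mul_zero, zero_mul, sub_self]; exact Submodule.zero_mem _
        | add x y _ _ hx hy =>
          have : wd K u * (x + y) - (x + y) * wd K u =
            (wd K u * x - x * wd K u) + (wd K u * y - y * wd K u) := by noncomm_ring
          rw [this]; exact Submodule.add_mem _ hx hy
        | smul c x _ hx =>
          rw [mul_smul_comm, smul_mul_assoc, ← smul_sub]; exact Submodule.smul_mem _ c hx
      | zero => rw [mul_zero, zero_mul, sub_self]; exact Submodule.zero_mem _
      | add x y _ _ hx hy =>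
        have : (x + y) * b - b * (x + y) = (x * b - b * x) + (y * b - b * y) := by noncomm_ring
        rw [this]; exact Submodule.add_mem _ hx hy
      | smul c x _ hx =>
        rw [mul_smul_comm, smul_mul_assoc, ← smul_sub]; exact Submodule.smul_mem _ c hx
    · rw [Submodule.span_le]
      rintro _ ⟨bs, ⟨hlen, hne, bs', i, m, rfl⟩, rfl⟩
      cases bs' with
      | nil => simp at hlen
      | cons u bs' =>
        have h1 : comm K (u :: bs' ++ [[i], m]) =
            wd K u * comm K (bs' ++ [[i], m]) - comm K (bs' ++ [[i], m]) * wd K u := by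
          cases bs' <;> rfl
        rw [h1]
        refine Submodule.subset_span ⟨wd K u, comm K (bs' ++ [[i], m]), ?_, rfl⟩
        have h2 : comm K (bs' ++ [[i], m]) ∈ L K (Fin 4 → K) (k + 2) := by
          rw [ih]
          refine Submodule.subset_span ⟨bs' ++ [[i], m], ⟨?_, ?_, ⟨bs', i, m, rfl⟩⟩, rfl⟩
          · simp only [List.cons_append, List.length_cons] at hlen; omega
          · intro m' hm'
            exact hne m' (List.mem_cons_of_mem _ hm')
        exact h2

/-! ### graded pieces -/

/-- the span of the words of content `α` -/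
noncomputable def As (α : Fin 4 → ℕ) : Submodule K (A K) :=
  Submodule.span K (wd K '' {u | ct u = α})

/-- the projection onto the piece of content `α` -/
noncomputable def pr (α : Fin 4 → ℕ) : A K →ₗ[K] A K :=
  open scoped Classical in
  (wbas K).constr K fun u => if ct u = α then wd K u else 0

open scoped Classical in
theorem pr_wd (α : Fin 4 → ℕ) (u : Wd) : pr K α (wd K u) = if ct u = α then wd K u else 0 := by
  rw [pr, ← wbas_apply, Module.Basis.constr_basis, wbas_apply]

theorem pr_of_mem {α : Fin 4 → ℕ} {x : A K} (hx : x ∈ As K α) : pr K α x = x := by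
  classical
  induction hx using Submodule.span_induction with
  | mem x hx =>
    obtain ⟨u, hu, rfl⟩ := hx
    have hu' : ct u = α := hu
    rw [pr_wd, if_pos hu']
  | zero => exact map_zero _
  | add x y _ _ hx hy => rw [map_add, hx, hy]
  | smul c x _ hx => rw [map_smul, hx]

theorem pr_of_mem_ne {α β : Fin 4 → ℕ} (h : β ≠ α) {x : A K} (hx : x ∈ As K β) :
    pr K α x = 0 := by
  classical
  induction hx using Submodule.span_induction with
  | mem x hx =>
    obtain ⟨u, hu, rfl⟩ := hx
    have hu' : ct u = β := hu
    rw [pr_wd, if_neg (by rw [hu']; exact h)]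
  | zero => exact map_zero _
  | add x y _ _ hx hy => rw [map_add, hx, hy, add_zero]
  | smul c x _ hx => rw [map_smul, hx, smul_zero]

theorem pr_mem (α : Fin 4 → ℕ) (x : A K) : pr K α x ∈ As K α := by
  classical
  have hx : x ∈ Submodule.span K (Set.range (wd K)) := by rw [span_wd]; exact Submodule.mem_top
  induction hx using Submodule.span_induction with
  | mem x hx =>
    obtain ⟨u, rfl⟩ := hx
    rw [pr_wd]
    split_ifs with h
    · exact Submodule.subset_span ⟨u, h, rfl⟩
    · exact Submodule.zero_mem _
  | zero => rw [map_zero]; exact Submodule.zero_mem _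
  | add x y _ _ hx hy => rw [map_add]; exact Submodule.add_mem _ hx hy
  | smul c x _ hx => rw [map_smul]; exact Submodule.smul_mem _ c hx

theorem comm_mem_As (bs : List Wd) : comm K bs ∈ As K (ct bs.flatten) := by
  rw [comm_eq]
  have h : ∀ s, ((cp bs s).map (wd K)).sum ∈ As K (ct bs.flatten) := by
    intro s
    have h1 := ct_of_mem_cp bs s
    generalize cp bs s = l at h1
    induction l with
    | nil => simp
    | cons a l ih =>
      rw [List.map_cons, List.sum_cons]
      refine Submodule.add_mem _ (Submodule.subset_span ⟨a, h1 a (List.mem_cons_self ..), rfl⟩)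
        (ih fun u hu => h1 u (List.mem_cons_of_mem _ hu))
  exact Submodule.sub_mem _ (h true) (h false)

theorem pr_comm (α : Fin 4 → ℕ) (bs : List Wd) [Decidable (ct bs.flatten = α)] :
    pr K α (comm K bs) = if ct bs.flatten = α then comm K bs else 0 := by
  split_ifs with h
  · exact pr_of_mem K (by rw [← h]; exact comm_mem_As K bs)
  · exact pr_of_mem_ne K h (comm_mem_As K bs)

/-- `X_k(α)`: the piece of content `α` of `L_k` -/
noncomputable def X (k : ℕ) (α : Fin 4 → ℕ) : Submodule K (A K) :=
  Submodule.span K {x | ∃ bs, (IsGen k bs ∧ ct bs.flatten = α) ∧ x = comm K bs}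

theorem X_le_As (k : ℕ) (α : Fin 4 → ℕ) : X K k α ≤ As K α := by
  rw [X, Submodule.span_le]
  rintro _ ⟨bs, ⟨_, h⟩, rfl⟩
  rw [SetLike.mem_coe, ← h]
  exact comm_mem_As K bs

theorem X_le_L (k : ℕ) (α : Fin 4 → ℕ) : X K (k + 2) α ≤ L K (Fin 4 → K) (k + 2) := by
  rw [X, L_eq_span]
  apply Submodule.span_mono
  rintro _ ⟨bs, ⟨h, _⟩, rfl⟩
  exact ⟨bs, h, rfl⟩

theorem pr_L (k : ℕ) (α : Fin 4 → ℕ) {x : A K} (hx : x ∈ L K (Fin 4 → K) (k + 2)) :
    pr K α x ∈ X K (k + 2) α := by
  classical
  rw [L_eq_span] at hx
  induction hx using Submodule.span_induction with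
  | mem x hx =>
    obtain ⟨bs, hbs, rfl⟩ := hx
    rw [pr_comm]
    split_ifs with h
    · exact Submodule.subset_span ⟨bs, ⟨hbs, h⟩, rfl⟩
    · exact Submodule.zero_mem _
  | zero => rw [map_zero]; exact Submodule.zero_mem _
  | add x y _ _ hx hy => rw [map_add]; exact Submodule.add_mem _ hx hy
  | smul c x _ hx => rw [map_smul]; exact Submodule.smul_mem _ c hx

theorem mem_X_iff (k : ℕ) (α : Fin 4 → ℕ) (x : A K) :
    x ∈ X K (k + 2) α ↔ x ∈ L K (Fin 4 → K) (k + 2) ∧ x ∈ As K α := by
  constructor
  · intro h
    exact ⟨X_le_L K k α h, X_le_As K _ α h⟩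
  · rintro ⟨h1, h2⟩
    have h3 := pr_L K k α h1
    rwa [pr_of_mem K h2] at h3

/-- every element is the sum of its homogeneous components -/
theorem exists_sum_pr (x : A K) : ∃ S : Finset (Fin 4 → ℕ), ∀ S', S ⊆ S' →
    x = ∑ α ∈ S', pr K α x := by
  classical
  have hx : x ∈ Submodule.span K (Set.range (wd K)) := by rw [span_wd]; exact Submodule.mem_top
  induction hx using Submodule.span_induction with
  | mem x hx =>
    obtain ⟨u, rfl⟩ := hx
    refine ⟨{ct u}, fun S' hS' => ?_⟩
    rw [Finset.sum_eq_single (ct u)]
    · rw [pr_wd, if_pos rfl]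
    · intro b _ hb
      rw [pr_wd, if_neg (Ne.symm hb)]
    · intro h
      exact absurd (hS' (Finset.mem_singleton_self _)) h
  | zero => exact ⟨∅, fun S' _ => by simp⟩
  | add x y _ _ hx hy =>
    obtain ⟨S, hS⟩ := hx
    obtain ⟨R, hR⟩ := hy
    refine ⟨S ∪ R, fun S' hS' => ?_⟩
    simp only [map_add, Finset.sum_add_distrib]
    rw [← hS S' (Finset.union_subset_left hS'), ← hR S' (Finset.union_subset_right hS')]
  | smul c x _ hx =>
    obtain ⟨S, hS⟩ := hx
    refine ⟨S, fun S' hS' => ?_⟩
    simp only [map_smul]
    rw [← Finset.smul_sum, ← hS S' hS']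

end Pool.Agent.Lib.MP_eb394a_al
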