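import Pool.Agent.Lib.MP_eb394a_al.Weights

/-!
Vanishing and non-vanishing of standard tensors under the Young symmetrizer.
-/

set_option autoImplicit false

open scoped TensorProduct DirectSum

namespace Pool.Agent.Lib.MP_eb394a_al

universe u

variable (K : Type u) [Field K]

theorem reindex_eT (μ : YoungDiagram) (p : Equiv.Perm μ.cells) (T : μ.cells → Fin 4) :
    PiTensorProduct.reindex K (fun _ => (Fin 4 → K)) p (eT K μ T) = eT K μ (T ∘ p.symm) := by
  rw [eT, PiTensorProduct.reindex_tprod]
  rfl

/-- the subgroup of row preserving permutations as a type -/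
abbrev RowP (μ : YoungDiagram) := {p : Equiv.Perm μ.cells // ∀ c, (p c).1.1 = c.1.1}
/-- the subgroup of column preserving permutations as a type -/
abbrev ColP (μ : YoungDiagram) := {q : Equiv.Perm μ.cells // ∀ c, (q c).1.2 = c.1.2}

open scoped Classical in
theorem young_eT (μ : YoungDiagram) (T : μ.cells → Fin 4) :
    youngSymmetrizer K μ _ (eT K μ T) =
      ∑ p : RowP μ, ∑ q : ColP μ, ((Equiv.Perm.sign q.1 : ℤ) : K) •
        eT K μ (T ∘ q.1.symm ∘ p.1.symm) := by
  simp only [youngSymmetrizer_eq, LinearMap.comp_apply, LinearMap.sum_apply, LinearMap.smul_apply,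
    map_sum, map_smul, LinearEquiv.coe_coe, reindex_eT, Finset.smul_sum]
  rw [Finset.sum_comm]
  rfl

/-- If two cells in the same column have the same entry, the Young symmetrizer kills the tensor. -/
theorem young_eT_eq_zero (μ : YoungDiagram) (T : μ.cells → Fin 4) (c c' : μ.cells)
    (hne : c ≠ c') (hcol : c.1.2 = c'.1.2) (hT : T c = T c') :
    youngSymmetrizer K μ _ (eT K μ T) = 0 := by
  classical
  rw [young_eT]
  refine Finset.sum_eq_zero fun p _ => ?_
  have hsw : ∀ x : μ.cells, (Equiv.swap c c' x).1.2 = x.1.2 := by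
    intro x
    rw [Equiv.swap_apply_def]
    split_ifs with h1 h2
    · rw [h1, hcol]
    · rw [h2, hcol]
    · rfl
  have hTs : T ∘ (Equiv.swap c c') = T := by
    funext x
    simp only [Function.comp_apply, Equiv.swap_apply_def]
    split_ifs with h1 h2
    · rw [h1, hT]
    · rw [h2, hT]
    · rfl
  refine Finset.sum_involution
    (fun q _ => ⟨q.1 * Equiv.swap c c', fun x => by
      rw [Equiv.Perm.mul_apply, q.2, hsw]⟩) ?_ ?_ ?_ ?_
  · intro q _
    have h1 : T ∘ (q.1 * Equiv.swap c c').symm ∘ p.1.symm = T ∘ q.1.symm ∘ p.1.symm := by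
      have : ((q.1 * Equiv.swap c c').symm : μ.cells → μ.cells) =
          Equiv.swap c c' ∘ q.1.symm := by
        funext x
        rw [← Equiv.Perm.inv_def, mul_inv_rev, Equiv.swap_inv]
        rfl
      rw [this, ← Function.comp_assoc, ← Function.comp_assoc, hTs]
      rfl
    simp only
    rw [h1, map_mul, Equiv.Perm.sign_swap hne, ← add_smul]
    simp
  · intro q _ _ h
    have h1 := congrArg (fun r => r.1) h
    simp only at h1
    have h2 : Equiv.swap c c' = 1 := by
      have := mul_left_cancel (a := q.1) (b := Equiv.swap c c') (c := 1) (by rw [h1, mul_one])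
      exact this
    have h3 : Equiv.swap c c' c = c := by rw [h2]; rfl
    rw [Equiv.swap_apply_left] at h3
    exact hne h3.symm
  · intro q _
    exact Finset.mem_univ _
  · intro q _
    apply Subtype.ext
    simp only
    rw [mul_assoc, Equiv.swap_mul_self, mul_one]

variable [CharZero K]

/-- A criterion for non-vanishing. -/
theorem young_eT_ne_zero (μ : YoungDiagram) (T : μ.cells → Fin 4)
    (H : ∀ (p : RowP μ) (q : ColP μ), (∀ c, T (q.1.symm c) = T (p.1 c)) → q.1 = 1) :
    youngSymmetrizer K μ _ (eT K μ T) ≠ 0 := by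
  classical
  intro h0
  rw [young_eT] at h0
  have hb : ∀ S : μ.cells → Fin 4,
      (Basis.piTensorProduct (R := K) (fun _ : μ.cells => bas K)).repr (eT K μ S) T =
        if S = T then 1 else 0 := by
    intro S
    have : eT K μ S = Basis.piTensorProduct (R := K) (fun _ : μ.cells => bas K) S := by
      rw [Basis.piTensorProduct_apply]; rfl
    rw [this, Module.Basis.repr_self, Finsupp.single_apply]
  have h1 := congrArg
    (fun x => (Basis.piTensorProduct (R := K) (fun _ : μ.cells => bas K)).repr x T) h0
  simp only [map_sum, map_smul, map_zero, Finsupp.zero_apply, Finsupp.coe_finset_sum,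
    Finset.sum_apply, Finsupp.smul_apply, hb, smul_eq_mul] at h1
  have h2 : ∀ p : RowP μ, (∑ q : ColP μ, ((Equiv.Perm.sign q.1 : ℤ) : K) *
      (if T ∘ q.1.symm ∘ p.1.symm = T then 1 else 0)) =
      if T ∘ p.1.symm = T then 1 else 0 := by
    intro p
    rw [Finset.sum_eq_single (⟨1, fun _ => rfl⟩ : ColP μ)]
    · simp only [Equiv.Perm.sign_one, Units.val_one, Int.cast_one, one_mul]
      rfl
    · intro q _ hq
      rw [if_neg, mul_zero]
      intro h
      apply hq
      apply Subtype.ext
      apply H p q
      intro c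
      have := congrFun h (p.1 c)
      simpa using this
    · intro h; exact absurd (Finset.mem_univ _) h
  rw [Finset.sum_congr rfl (fun p _ => h2 p)] at h1
  have h3 : (∑ p : RowP μ, if T ∘ p.1.symm = T then (1 : K) else 0) =
      ((Finset.univ.filter fun p : RowP μ => T ∘ p.1.symm = T).card : K) := by
    rw [Finset.sum_boole]
  rw [h3, Nat.cast_eq_zero, Finset.card_eq_zero] at h1
  have h4 : (⟨1, fun _ => rfl⟩ : RowP μ) ∈
      Finset.univ.filter fun p : RowP μ => T ∘ p.1.symm = T := by
    rw [Finset.mem_filter]
    exact ⟨Finset.mem_univ _, rfl⟩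
  rw [h1] at h4
  exact absurd h4 (Finset.notMem_empty _)

/-! ### fillings of the relevant shapes -/

theorem cont_eq {C : Type} [DecidableEq C] (S : Finset C) (f : C → Fin 4) (i : Fin 4) :
    cont (fun c : S => f c.1) i = (S.filter fun x => f x = i).card := by
  unfold cont
  have : (S.filter fun x => f x = i) =
      (Finset.univ.filter fun c : S => f c.1 = i).map (Function.Embedding.subtype _) := by
    ext x
    simp only [Finset.mem_filter, Finset.mem_map, Finset.mem_univ, true_and,
      Function.Embedding.coe_subtype, Subtype.exists, exists_and_left, exists_prop,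
      exists_eq_right_right]
    tauto
  rw [this, Finset.card_map]

theorem cont_sum {C : Type} [Fintype C] (T : C → Fin 4) : ∑ i, cont T i = Fintype.card C := by
  unfold cont
  rw [← Finset.card_univ, Finset.card_eq_sum_card_fiberwise (f := T) (t := Finset.univ)]
  exact fun _ _ => Finset.mem_coe.mpr (Finset.mem_univ _)

theorem mem_appendOnes {μ : YoungDiagram} {m i j : ℕ} :
    (i, j) ∈ (appendOnes μ m).cells ↔
      (i, j) ∈ μ ∨ (j = 0 ∧ μ.colLen 0 ≤ i ∧ i < μ.colLen 0 + m) := by
  simp only [appendOnes, Finset.mem_union, YoungDiagram.mem_cells, Finset.mem_image,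
    Finset.mem_range, Prod.mk.injEq]
  constructor
  · rintro (h | ⟨a, ha, h1, h2⟩)
    · exact Or.inl h
    · exact Or.inr ⟨h2.symm, by omega, by omega⟩
  · rintro (h | ⟨h0, h1, h2⟩)
    · exact Or.inl h
    · exact Or.inr ⟨i - μ.colLen 0, by omega, by omega, h0.symm⟩

/-- the filling of `(λ, 1, 1)` used below; `l` is the number of rows of `λ`. -/
def fil (l : ℕ) (c : ℕ × ℕ) : Fin 4 :=
  if c.1 < l then (if c.1 = 1 then 1 else if c.2 < 3 then 0 else 1)
  else if c.1 = l then 2 else 3

theorem two_rows {μ : YoungDiagram} (hcard : μ.cells.card = 5) (h20 : (2, 0) ∉ μ) :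
    μ.rowLen 0 + μ.rowLen 1 = 5 ∧ μ.rowLen 1 ≤ μ.rowLen 0 ∧
      μ.cells = (Finset.range (μ.rowLen 0)).image (fun j => (0, j)) ∪
        (Finset.range (μ.rowLen 1)).image (fun j => (1, j)) := by
  have hcells : μ.cells = (Finset.range (μ.rowLen 0)).image (fun j => (0, j)) ∪
        (Finset.range (μ.rowLen 1)).image (fun j => (1, j)) := by
    ext ⟨i, j⟩
    simp only [YoungDiagram.mem_cells, Finset.mem_union, Finset.mem_image, Finset.mem_range,
      Prod.mk.injEq]
    constructor
    · intro h
      have hi : i < 2 := by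
        by_contra hi
        exact h20 (μ.up_left_mem (by omega) (Nat.zero_le _) h)
      interval_cases i
      · exact Or.inl ⟨j, YoungDiagram.mem_iff_lt_rowLen.mp h, rfl, rfl⟩
      · exact Or.inr ⟨j, YoungDiagram.mem_iff_lt_rowLen.mp h, rfl, rfl⟩
    · rintro (⟨a, ha, h1, h2⟩ | ⟨a, ha, h1, h2⟩)
      · subst h1 h2; exact YoungDiagram.mem_iff_lt_rowLen.mpr ha
      · subst h1 h2; exact YoungDiagram.mem_iff_lt_rowLen.mpr ha
  refine ⟨?_, μ.rowLen_anti 0 1 (by omega), hcells⟩
  rw [hcells, Finset.card_union_of_disjoint, Finset.card_image_of_injective,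
    Finset.card_image_of_injective, Finset.card_range, Finset.card_range] at hcard
  · exact hcard
  · intro a b h; exact congrArg Prod.snd h
  · intro a b h; exact congrArg Prod.snd h
  · rw [Finset.disjoint_left]
    rintro ⟨i, j⟩ h1 h2
    simp only [Finset.mem_image, Finset.mem_range, Prod.mk.injEq] at h1 h2
    obtain ⟨_, _, h3, _⟩ := h1
    obtain ⟨_, _, h4, _⟩ := h2
    omega

/-- If the Young symmetrizer of `(μ, 1^{2j})` does not kill some standard tensor of content
`(3, 2, 0, 0)`, then that of `(μ, 1^2)` does not kill some standard tensor of content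
`(3, 2, 1, 1)`. -/
theorem young_step (μ : YoungDiagram) (j : ℕ) (T : (appendOnes μ (2 * j)).cells → Fin 4)
    (hT : youngSymmetrizer K _ _ (eT K _ T) ≠ 0) (hc : cont T = ![3, 2, 0, 0]) :
    ∃ T' : (appendOnes μ (2 * 1)).cells → Fin 4,
      youngSymmetrizer K _ _ (eT K _ T') ≠ 0 ∧ cont T' = ![3, 2, 1, 1] := by
  classical
  -- number of cells
  have hcard : (appendOnes μ (2 * j)).cells.card = 5 := by
    have h1 := cont_sum T
    rw [hc] at h1
    simp only [Fin.sum_univ_four, Matrix.cons_val_zero, Matrix.cons_val_one, Matrix.cons_val,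
      Fintype.card_coe] at h1
    omega
  have hval : ∀ c, T c = 0 ∨ T c = 1 := by
    intro c
    have h2 : cont T 2 = 0 := by rw [hc]; rfl
    have h3 : cont T 3 = 0 := by rw [hc]; rfl
    unfold cont at h2 h3
    rw [Finset.card_eq_zero] at h2 h3
    have e2 : T c ≠ 2 := fun h => by
      have : c ∈ (Finset.univ.filter fun c => T c = 2) := Finset.mem_filter.mpr ⟨Finset.mem_univ _, h⟩
      rw [h2] at this; exact absurd this (Finset.notMem_empty _)
    have e3 : T c ≠ 3 := fun h => by
      have : c ∈ (Finset.univ.filter fun c => T c = 3) := Finset.mem_filter.mpr ⟨Finset.mem_univ _, h⟩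
      rw [h3] at this; exact absurd this (Finset.notMem_empty _)
    generalize T c = t at e2 e3
    fin_cases t <;> simp_all
  have h20 : (2, 0) ∉ appendOnes μ (2 * j) := by
    intro h
    have h10 := (appendOnes μ (2 * j)).up_left_mem (i1 := 1) (by omega) (le_refl 0) h
    have h00 := (appendOnes μ (2 * j)).up_left_mem (i1 := 0) (by omega) (le_refl 0) h
    let c0 : (appendOnes μ (2 * j)).cells := ⟨(0, 0), h00⟩
    let c1 : (appendOnes μ (2 * j)).cells := ⟨(1, 0), h10⟩
    let c2 : (appendOnes μ (2 * j)).cells := ⟨(2, 0), h⟩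
    have n01 : c0 ≠ c1 := fun h => by simpa [c0, c1] using congrArg (fun c => c.1.1) h
    have n02 : c0 ≠ c2 := fun h => by simpa [c0, c2] using congrArg (fun c => c.1.1) h
    have n12 : c1 ≠ c2 := fun h => by simpa [c1, c2] using congrArg (fun c => c.1.1) h
    have k01 : T c0 ≠ T c1 := fun h => hT (young_eT_eq_zero K _ T c0 c1 n01 rfl h)
    have k02 : T c0 ≠ T c2 := fun h => hT (young_eT_eq_zero K _ T c0 c2 n02 rfl h)
    have k12 : T c1 ≠ T c2 := fun h => hT (young_eT_eq_zero K _ T c1 c2 n12 rfl h)
    rcases hval c0 with a | a <;> rcases hval c1 with b | b <;> rcases hval c2 with c | c <;>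
      simp_all
  have hj : j = 0 := by
    by_contra hj
    have hl : ∀ i, i < μ.colLen 0 + 2 * j → (i, 0) ∈ (appendOnes μ (2 * j)).cells := by
      intro i hi
      rw [mem_appendOnes]
      by_cases h : i < μ.colLen 0
      · exact Or.inl (YoungDiagram.mem_iff_lt_colLen.mpr h)
      · exact Or.inr ⟨rfl, by omega, hi⟩
    have h1 : μ.colLen 0 + 2 * j ≤ 2 := by
      by_contra h
      exact h20 (hl 2 (by omega))
    have h2 : μ.colLen 0 = 0 := by omega
    have h3 : (appendOnes μ (2 * j)).cells ⊆ {(0, 0), (1, 0)} := by
      rintro ⟨a, b⟩ h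
      rw [mem_appendOnes] at h
      rcases h with h | ⟨h4, _, h5⟩
      · have h6 := μ.up_left_mem (le_refl a) (Nat.zero_le b) h
        rw [YoungDiagram.mem_iff_lt_colLen, h2] at h6
        omega
      · have : a = 0 ∨ a = 1 := by omega
        rcases this with rfl | rfl <;> simp [h4]
    have h4 := Finset.card_le_card h3
    rw [hcard] at h4
    have h5 : ({(0, 0), (1, 0)} : Finset (ℕ × ℕ)).card = 2 := by decide
    omega
  subst hj
  have happ : (appendOnes μ (2 * 0)).cells = μ.cells := by
    ext ⟨a, b⟩
    rw [mem_appendOnes, YoungDiagram.mem_cells]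
    constructor
    · rintro (h | ⟨_, _, _⟩)
      · exact h
      · omega
    · exact Or.inl
  rw [happ] at hcard
  have h20' : (2, 0) ∉ μ := by
    intro h
    apply h20
    rw [← YoungDiagram.mem_cells, happ]
    exact h
  obtain ⟨hsum, hle, hcells⟩ := two_rows hcard h20'
  set a := μ.rowLen 0 with ha
  set b := μ.rowLen 1 with hb
  set l := μ.colLen 0 with hl
  have hrow : ∀ i j, (i, j) ∈ μ ↔ (i = 0 ∧ j < a) ∨ (i = 1 ∧ j < b) := by
    intro i j
    rw [← YoungDiagram.mem_cells, hcells]
    simp only [Finset.mem_union, Finset.mem_image, Finset.mem_range, Prod.mk.injEq]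
    constructor
    · rintro (⟨x, h1, h2, h3⟩ | ⟨x, h1, h2, h3⟩)
      · exact Or.inl ⟨h2.symm, h3 ▸ h1⟩
      · exact Or.inr ⟨h2.symm, h3 ▸ h1⟩
    · rintro (⟨h1, h2⟩ | ⟨h1, h2⟩)
      · exact Or.inl ⟨j, h2, h1.symm, rfl⟩
      · exact Or.inr ⟨j, h2, h1.symm, rfl⟩
  have hcol : ∀ i, i < l ↔ (i = 0 ∧ 0 < a) ∨ (i = 1 ∧ 0 < b) := by
    intro i
    rw [hl, ← YoungDiagram.mem_iff_lt_colLen, hrow]
  -- the value of l
  have hl1 : 1 ≤ l := by
    have := (hcol 0).mpr (Or.inl ⟨rfl, by omega⟩)
    omega
  have hl2 : l ≤ 2 := by
    by_contra h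
    have := (hcol 2).mp (by omega)
    omega
  have hlb : l = 2 ↔ 0 < b := by
    constructor
    · intro h
      have := (hcol 1).mp (by omega)
      omega
    · intro h
      have := (hcol 1).mpr (Or.inr ⟨rfl, h⟩)
      omega
  have hmem : ∀ i j, (i, j) ∈ (appendOnes μ (2 * 1)).cells ↔
      (i = 0 ∧ j < a) ∨ (i = 1 ∧ j < b) ∨ (j = 0 ∧ l ≤ i ∧ i < l + 2) := by
    intro i j
    rw [mem_appendOnes, hrow, or_assoc]
  refine ⟨fun c => fil l c.1, ?_, ?_⟩
  · apply young_eT_ne_zero
    intro p q h
    -- long rows
    have hbig : ∀ c : (appendOnes μ (2 * 1)).cells, l ≤ c.1.1 → q.1.symm c = c := by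
      rintro ⟨⟨i, j⟩, hc⟩ hi
      have hi' : l ≤ i := hi
      have hj0 : j = 0 := by
        rcases (hmem i j).mp hc with h1 | h1 | h1
        · simp only at hi; omega
        · simp only at hi; omega
        · exact h1.1
      subst hj0
      set c : (appendOnes μ (2 * 1)).cells := ⟨(i, 0), hc⟩ with hcdef
      have hpc : (p.1 c).1 = c.1 := by
        have h1 : (p.1 c).1.1 = i := p.2 c
        have hc' := (p.1 c).2
        change (p.1 c).1 = (i, 0)
        generalize (p.1 c).1 = d at h1 hc'
        obtain ⟨i', j'⟩ := d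
        simp only at h1 hi
        subst h1
        rcases (hmem i' j').mp hc' with h2 | h2 | h2
        · omega
        · omega
        · rw [h2.1]
      have h2 : fil l (q.1.symm c).1 = fil l (p.1 c).1 := h c
      rw [hpc] at h2
      have h3 : (q.1.symm c).1.2 = 0 := by
        have := q.2 (q.1.symm c)
        rw [Equiv.apply_symm_apply] at this
        exact this.symm
      apply Subtype.ext
      have h4 := (q.1.symm c).2
      generalize (q.1.symm c).1 = d at h2 h3 h4
      obtain ⟨i', j'⟩ := d
      simp only at h3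
      subst h3
      have h5 : ¬ (i < l) := by simpa [hcdef] using hi
      have h6 : l ≤ i ∧ i < l + 2 := by
        rcases (hmem i 0).mp hc with h1 | h1 | h1
        · omega
        · omega
        · exact h1.2
      simp only [hcdef, fil, if_neg h5] at h2 ⊢
      have h7 : i' = i := by
        by_cases h8 : i' < l
        · rw [if_pos h8] at h2
          by_cases h9 : i = l
          · rw [if_pos h9] at h2
            split_ifs at h2 <;> simp at h2
          · rw [if_neg h9] at h2
            split_ifs at h2 <;> simp at h2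
        · rw [if_neg h8] at h2
          have h10 : l ≤ i' ∧ i' < l + 2 := by
            rcases (hmem i' 0).mp h4 with h1 | h1 | h1
            · omega
            · omega
            · exact h1.2
          by_cases h9 : i = l
          · rw [if_pos h9] at h2
            by_cases h11 : i' = l
            · omega
            · rw [if_neg h11] at h2; simp at h2
          · rw [if_neg h9] at h2
            by_cases h11 : i' = l
            · rw [if_pos h11] at h2; simp at h2
            · omega
      rw [h7]
    have hone : ∀ c : (appendOnes μ (2 * 1)).cells, c.1.1 = 1 → q.1.symm c = c := by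
      intro c hc1
      by_cases hcl : l ≤ c.1.1
      · exact hbig c hcl
      have hl2' : l = 2 := by omega
      have hb0 : 0 < b := hlb.mp hl2'
      have h2 : fil l (q.1.symm c).1 = fil l (p.1 c).1 := h c
      have hp1 : (p.1 c).1.1 = 1 := by rw [p.2 c, hc1]
      have hval1 : fil l (p.1 c).1 = 1 := by
        unfold fil
        rw [hp1, if_pos (by omega), if_pos rfl]
      rw [hval1] at h2
      have h3 : (q.1.symm c).1.2 = c.1.2 := by
        have := q.2 (q.1.symm c)
        rw [Equiv.apply_symm_apply] at this
        exact this.symm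
      have h4 := (q.1.symm c).2
      have h5 := c.2
      apply Subtype.ext
      generalize (q.1.symm c).1 = d at h2 h3 h4
      generalize c.1 = e at hc1 hcl h3 h5
      obtain ⟨i', j'⟩ := d
      obtain ⟨i, j⟩ := e
      simp only at hc1 h3
      subst hc1 h3
      have h6 : j' < b := by
        rcases (hmem 1 j').mp h5 with h1 | h1 | h1
        · omega
        · exact h1.2
        · omega
      unfold fil at h2
      simp only at h2
      by_cases h8 : i' < l
      · rw [if_pos h8] at h2
        by_cases h9 : i' = 1
        · rw [h9]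
        · rw [if_neg h9, if_pos (by omega)] at h2
          simp at h2
      · rw [if_neg h8] at h2
        split_ifs at h2 <;> simp at h2
    have hall : ∀ c : (appendOnes μ (2 * 1)).cells, q.1.symm c = c := by
      intro c
      by_cases h0 : c.1.1 = 0
      · by_contra hne
        have hne0 : (q.1.symm c).1.1 ≠ 0 := by
          intro h1
          apply hne
          apply Subtype.ext
          have h3 : (q.1.symm c).1.2 = c.1.2 := by
            have := q.2 (q.1.symm c)
            rw [Equiv.apply_symm_apply] at this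
            exact this.symm
          exact Prod.ext (by rw [h1, h0]) h3
        have h5 : q.1.symm (q.1.symm c) = q.1.symm c := by
          by_cases h6 : (q.1.symm c).1.1 = 1
          · exact hone _ h6
          · exact hbig _ (by omega)
        have h7 := q.1.symm.injective h5
        exact hne h7
      · by_cases h1 : c.1.1 = 1
        · exact hone c h1
        · exact hbig c (by omega)
    ext1 c
    have := hall (q.1 c)
    rw [Equiv.symm_apply_apply] at this
    rw [← this]
    rfl
  · funext i
    have hcc : cont (fun c : (appendOnes μ (2 * 1)).cells => fil l c.1) i =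
        ((appendOnes μ (2 * 1)).cells.filter fun x => fil l x = i).card := cont_eq _ _ _
    have hb5 : b = 0 ∨ b = 1 ∨ b = 2 := by omega
    rcases hb5 with hb' | hb' | hb'
    · have ha' : a = 5 := by omega
      have hl' : l = 1 := by
        rcases Nat.lt_or_ge l 2 with h | h
        · omega
        · have := hlb.mp (by omega); omega
      have hS : (appendOnes μ (2 * 1)).cells =
          {(0, 0), (0, 1), (0, 2), (0, 3), (0, 4), (1, 0), (2, 0)} := by
        ext ⟨i, j⟩
        rw [hmem, ha', hb', hl']
        simp only [Finset.mem_insert, Finset.mem_singleton, Prod.mk.injEq]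
        omega
      rw [hcc, hS, hl']
      clear hcc
      revert i; decide
    · have ha' : a = 4 := by omega
      have hl' : l = 2 := hlb.mpr (by omega)
      have hS : (appendOnes μ (2 * 1)).cells =
          {(0, 0), (0, 1), (0, 2), (0, 3), (1, 0), (2, 0), (3, 0)} := by
        ext ⟨i, j⟩
        rw [hmem, ha', hb', hl']
        simp only [Finset.mem_insert, Finset.mem_singleton, Prod.mk.injEq]
        omega
      rw [hcc, hS, hl']
      clear hcc
      revert i; decide
    · have ha' : a = 3 := by omega
      have hl' : l = 2 := hlb.mpr (by omega)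
      have hS : (appendOnes μ (2 * 1)).cells =
          {(0, 0), (0, 1), (0, 2), (1, 0), (1, 1), (2, 0), (3, 0)} := by
        ext ⟨i, j⟩
        rw [hmem, ha', hb', hl']
        simp only [Finset.mem_insert, Finset.mem_singleton, Prod.mk.injEq]
        omega
      rw [hcc, hS, hl']
      clear hcc
      revert i; decide

end Pool.Agent.Lib.MP_eb394a_al
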